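import Pool.Agent.X280.BP.Conic

/-!
# The products of three families of elliptic curves
-/

set_option autoImplicit false
set_option linter.unusedSimpArgs false
set_option linter.unusedSectionVars false
set_option linter.unusedVariables false

namespace Pool.Agent.X280.BP

open Finset Pool.Agent.Y722.HS

variable {ι : Type} [Fintype ι] [DecidableEq ι]

/-- The trace of the Frobenius. -/
noncomputable def trc (V : ∀ p : ℕ, (ι → ZMod p) → WeierstrassCurve (ZMod p)) (p : ℕ)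
    (c : ι → ZMod p) : ℝ := (p : ℝ) - pts (V p c)

open Classical in
theorem dat_fam (V : ∀ p : ℕ, (ι → ZMod p) → WeierstrassCurve (ZMod p)) (r : ℕ)
    (Z : ∀ p : ℕ, Finset (ZMod p)) (hZ : ∀ p : ℕ, p.Prime → 5 ≤ p → (Z p).card = r)
    (hM : ∀ (p : ℕ) [Fact p.Prime], 5 ≤ p → Mark (V p) (Z p))
    (hO : ∀ (p : ℕ) [Fact p.Prime], 5 ≤ p → |∑ x ∈ (Z p)ᶜ, ∑ x' ∈ (Z p)ᶜ.erase x,
      EM p (fun c => ch (gg (V p c) x) * ch (gg (V p c) x'))| ≤ 1)
    (hF : ∀ (p : ℕ) [Fact p.Prime], 5 ≤ p →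
      EM p (fun c => if (V p c).Δ ≠ 0 then (0 : ℝ) else 1) ≤ 4 / p) :
    Dat (trc V) (fun p c => (V p c).Δ ≠ 0) r ((r : ℝ) ^ 2 + r + 4) where
  C1 := by
    have : (0 : ℝ) ≤ (r : ℝ) ^ 2 + r := by positivity
    linarith
  hasse := by
    intro p hp h5 c
    have : Fact p.Prime := ⟨hp⟩
    unfold trc
    by_cases hc : (V p c).Δ = 0
    · have h1 := pts_bad (six_ne (p := p) h5) (V p c) hc
      rw [ZMod.card] at h1
      obtain ⟨_, _, h2, _⟩ := sqrt_facts hp h5
      linarith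
    · have h1 := pts_good (six_ne (p := p) h5) (V p c) hc
      rw [ZMod.card] at h1
      exact h1
  bad := by
    intro p hp h5 c hc
    have : Fact p.Prime := ⟨hp⟩
    rw [not_not] at hc
    have h1 := pts_bad (six_ne (p := p) h5) (V p c) hc
    rw [ZMod.card] at h1
    exact h1
  mean := by
    intro p hp h5 _
    have : Fact p.Prime := ⟨hp⟩
    have h1 := (hM p h5).mean h5
    rw [hZ p hp h5] at h1
    obtain ⟨h0, _, h2, h3, h4, _⟩ := sqrt_facts hp h5
    refine h1.trans ?_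
    calc (r : ℝ) / p ≤ r / √p := by gcongr
      _ ≤ ((r : ℝ) ^ 2 + r + 4) / √p := by
        gcongr
        nlinarith [sq_nonneg (r : ℝ)]
  sq := by
    intro p hp h5 _
    have : Fact p.Prime := ⟨hp⟩
    have h1 := (hM p h5).sq h5 1 (hO p h5)
    rw [hZ p hp h5] at h1
    obtain ⟨h0, _, h2, h3, h4, _⟩ := sqrt_facts hp h5
    refine h1.trans ?_
    have : (0 : ℝ) ≤ (r : ℝ) ^ 2 + r := by positivity
    nlinarith
  few := by
    intro p hp h5 _
    have : Fact p.Prime := ⟨hp⟩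
    have h1 := hF p h5
    obtain ⟨h0, _, h2, h3, h4, _⟩ := sqrt_facts hp h5
    have h6 : (4 : ℝ) / p ≤ ((r : ℝ) ^ 2 + r + 4) / √p := by
      calc (4 : ℝ) / p ≤ 4 / √p := by gcongr
        _ ≤ ((r : ℝ) ^ 2 + r + 4) / √p := by
          gcongr
          have : (0 : ℝ) ≤ (r : ℝ) ^ 2 + r := by positivity
          linarith
    refine le_trans (le_of_eq ?_) (h1.trans h6)
    congr 1
    funext c
    congr

theorem dat0 : Dat (trc fun p (c : Fin 2 → ZMod p) => V0 c) (fun p c => (V0 c).Δ ≠ 0) 0 4 := by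
  have h := dat_fam (fun p (c : Fin 2 → ZMod p) => V0 c) 0 (fun _ => ∅) (fun p _ _ => rfl)
    (fun p _ h5 => mark0 h5) (fun p _ h5 => by
      rw [off_zero h5 (off0 h5), abs_zero]; norm_num)
    (fun p _ h5 => few0 h5)
  simpa using h

theorem dat1 : Dat (trc fun p (c : Fin 4 → ZMod p) => V1 c) (fun p c => (V1 c).Δ ≠ 0) 1 6 := by
  have h := dat_fam (fun p (c : Fin 4 → ZMod p) => V1 c) 1 (fun _ => {0}) (fun p _ _ => rfl)
    (fun p _ h5 => mark1 h5) (fun p _ h5 => by
      rw [off_zero h5 (off1 h5), abs_zero]; norm_num)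
    (fun p _ h5 => few1 h5)
  norm_num at h
  exact h

theorem dat2 : Dat (trc fun p (c : Fin 3 → ZMod p) => V2 c) (fun p c => (V2 c).Δ ≠ 0) 2 10 := by
  have h := dat_fam (fun p (c : Fin 3 → ZMod p) => V2 c) 2 (fun _ => {0, 1}) (fun p hp _ => by
      have : Fact p.Prime := ⟨hp⟩
      exact Finset.card_pair zero_ne_one)
    (fun p _ h5 => mark2 h5) (fun p _ h5 => off2 h5)
    (fun p _ h5 => few2 h5)
  norm_num at h
  exact h

/-! ### Integral equations -/

/-- The number of points modulo `p` with the point at infinity. -/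
noncomputable def np (W : WeierstrassCurve ℤ) (p : ℕ) : ℕ :=
  Nat.card {q : ZMod p × ZMod p // q.2 ^ 2 + (W.a₁ : ZMod p) * q.1 * q.2 + (W.a₃ : ZMod p) * q.2 =
    q.1 ^ 3 + (W.a₂ : ZMod p) * q.1 ^ 2 + (W.a₄ : ZMod p) * q.1 + (W.a₆ : ZMod p)} + 1

/-- `p` is a prime that does not divide `2 Δ`. -/
def Gd (W : WeierstrassCurve ℤ) (p : ℕ) : Prop := p.Prime ∧ ¬ (p : ℤ) ∣ 2 * W.Δ

open Classical in
/-- The product of `N_p / p` over the good primes `p ≤ y`. -/
noncomputable def bsd (W : WeierstrassCurve ℤ) (y : ℕ) : ℝ :=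
  ∏ p ∈ (range (y + 1)).filter (Gd W), ((np W p : ℝ) / p)

open Classical in
/-- Its logarithm. -/
noncomputable def lq (W : WeierstrassCurve ℤ) (y : ℕ) : ℝ :=
  ∑ p ∈ (range (y + 1)).filter (Gd W), Real.log ((np W p : ℝ) / p)

theorem bsd_eq (W : WeierstrassCurve ℤ) (y : ℕ) : bsd W y = Real.exp (lq W y) := by
  classical
  unfold bsd lq
  rw [Real.exp_sum]
  refine Finset.prod_congr rfl fun p hp => ?_
  rw [Finset.mem_filter] at hp
  have h1 : (0 : ℝ) < np W p := by
    unfold np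
    positivity
  have h2 : (0 : ℝ) < p := by exact_mod_cast hp.2.1.pos
  rw [Real.exp_log (by positivity)]

theorem np_map (W : WeierstrassCurve ℤ) (p : ℕ) :
    np W p = pts (W.map (Int.castRingHom (ZMod p))) + 1 := rfl

/-- An integral family and its reductions. -/
structure Red (W : (ι → ℤ) → WeierstrassCurve ℤ)
    (V : ∀ p : ℕ, (ι → ZMod p) → WeierstrassCurve (ZMod p)) : Prop where
  map : ∀ (c : ι → ℤ) (p : ℕ), (W c).map (Int.castRingHom (ZMod p)) = V p (red p c)

theorem Red.lq_near {W : (ι → ℤ) → WeierstrassCurve ℤ}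
    {V : ∀ p : ℕ, (ι → ZMod p) → WeierstrassCurve (ZMod p)} (h : Red W V) (y : ℕ) (c : ι → ℤ) :
    |lq (W c) y - logP (trc V) (fun p c => (V p c).Δ ≠ 0) y c| ≤ 2 := by
  classical
  have hnp : ∀ p, (np (W c) p : ℝ) = p + 1 - trc V p (red p c) := by
    intro p
    rw [np_map, h.map]
    unfold trc
    push_cast
    ring
  have hgood : ∀ p, 5 ≤ p → (Gd (W c) p ↔ (p.Prime ∧ (V p (red p c)).Δ ≠ 0)) := by
    intro p h5
    unfold Gd
    refine and_congr_right fun hp => ?_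
    rw [not_iff_not, ← h.map, WeierstrassCurve.map_Δ]
    have hpi : Prime (p : ℤ) := Nat.prime_iff_prime_int.mp hp
    have h2 : ¬ (p : ℤ) ∣ 2 := by
      intro hd
      have := Int.le_of_dvd (by norm_num) hd
      omega
    have h3 : (Int.castRingHom (ZMod p)) (W c).Δ = (((W c).Δ : ℤ) : ZMod p) := rfl
    rw [h3, ZMod.intCast_zmod_eq_zero_iff_dvd]
    constructor
    · intro hd
      exact (hpi.dvd_or_dvd hd).resolve_left h2
    · intro hd
      exact Dvd.dvd.mul_left hd 2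
  have e1 : lq (W c) y - logP (trc V) (fun p c => (V p c).Δ ≠ 0) y c =
      ∑ p ∈ ((range (y + 1)).filter (Gd (W c))).filter (fun p => p < 5),
        Real.log ((np (W c) p : ℝ) / p) := by
    unfold lq logP
    rw [← Finset.sum_filter_add_sum_filter_not ((range (y + 1)).filter (Gd (W c))) (fun p => p < 5)]
    rw [add_sub_assoc, add_eq_left, sub_eq_zero]
    refine Finset.sum_congr ?_ fun p hp => ?_
    · ext p
      simp only [Finset.mem_filter, Finset.mem_range, Finset.mem_Ico, not_lt]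
      constructor
      · rintro ⟨⟨h1, h2⟩, h3⟩
        exact ⟨⟨h3, h1⟩, (hgood p h3).mp h2⟩
      · rintro ⟨⟨h3, h1⟩, h2⟩
        exact ⟨⟨h1, (hgood p h3).mpr h2⟩, h3⟩
    · rw [hnp]
  rw [e1]
  have hsub : ((range (y + 1)).filter (Gd (W c))).filter (fun p => p < 5) ⊆ {3} := by
    intro p hp
    simp only [Finset.mem_filter, Finset.mem_range] at hp
    obtain ⟨⟨_, hp1, hp2⟩, hp3⟩ := hp
    rw [Finset.mem_singleton]
    have h2 := hp1.two_le
    have hne2 : p ≠ 2 := by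
      rintro rfl
      exact hp2 (Dvd.intro _ rfl)
    have hne4 : p ≠ 4 := by
      rintro rfl
      norm_num at hp1
    omega
  refine (Finset.abs_sum_le_sum_abs _ _).trans ?_
  have h3 : ∀ p ∈ ((range (y + 1)).filter (Gd (W c))).filter (fun p => p < 5),
      |Real.log ((np (W c) p : ℝ) / p)| ≤ 2 := by
    intro p hp
    have hp3 := hsub hp
    rw [Finset.mem_singleton] at hp3
    rw [hp3]
    have h4 : np (W c) 3 ≤ 10 := by
      unfold np
      have : Nat.card {q : ZMod 3 × ZMod 3 // q.2 ^ 2 + ((W c).a₁ : ZMod 3) * q.1 * q.2 +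
          ((W c).a₃ : ZMod 3) * q.2 = q.1 ^ 3 + ((W c).a₂ : ZMod 3) * q.1 ^ 2 +
          ((W c).a₄ : ZMod 3) * q.1 + ((W c).a₆ : ZMod 3)} ≤ Nat.card (ZMod 3 × ZMod 3) :=
        Nat.card_le_card_of_injective Subtype.val Subtype.val_injective
      have h5 : Nat.card (ZMod 3 × ZMod 3) = 9 := by
        rw [Nat.card_prod, Nat.card_zmod]
      omega
    have h5 : 1 ≤ np (W c) 3 := by unfold np; omega
    have h6 : (np (W c) 3 : ℝ) ≤ 10 := by exact_mod_cast h4
    have h7 : (1 : ℝ) ≤ np (W c) 3 := by exact_mod_cast h5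
    have hpos : (0 : ℝ) < (np (W c) 3 : ℝ) / (3 : ℕ) := by positivity
    rw [abs_le]
    constructor
    · have h8 := Real.one_sub_inv_le_log_of_pos hpos
      have h9 : ((np (W c) 3 : ℝ) / (3 : ℕ))⁻¹ ≤ 3 := by
        rw [inv_div, div_le_iff₀ (by linarith)]
        push_cast
        linarith
      linarith
    · have h10 : (np (W c) 3 : ℝ) / (3 : ℕ) ≤ Real.exp 2 := by
        have h11 : (4 : ℝ) ≤ Real.exp 2 := by
          have h12 : Real.exp 2 = Real.exp 1 * Real.exp 1 := by rw [← Real.exp_add]; norm_num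
          rw [h12]
          have := Real.exp_one_gt_d9
          nlinarith
        push_cast
        linarith
      rw [Real.log_le_iff_le_exp hpos]
      exact h10
  refine (Finset.sum_le_sum h3).trans ?_
  rw [Finset.sum_const, nsmul_eq_mul]
  have h4 : ((((range (y + 1)).filter (Gd (W c))).filter (fun p => p < 5)).card : ℝ) ≤ 1 := by
    have := Finset.card_le_card hsub
    rw [Finset.card_singleton] at this
    exact_mod_cast this
  nlinarith

open Classical in
/-- **The typical size of the products of a family.** -/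
theorem typical_of {W : (ι → ℤ) → WeierstrassCurve ℤ}
    {V : ∀ p : ℕ, (ι → ZMod p) → WeierstrassCurve (ZMod p)} (h : Red W V) {r C : ℝ}
    (D : Dat (trc V) (fun p c => (V p c).Δ ≠ 0) r C) {δ : ℝ} (hδ : 0 < δ) :
    ∃ K : ℝ, ∀ H Y : ℕ, 3 ≤ Y →
      ({c : ι → ℤ | (∀ i, |c i| ≤ H) ∧ ∃ y : ℕ, Y ≤ y ∧ y ^ 11 ≤ H ∧
        (bsd (W c) y < Real.log y ^ (r + 1 / 2 - δ) ∨
          Real.log y ^ (r + 1 / 2 + δ) < bsd (W c) y)}.ncard : ℝ) ≤
      K / Real.log (Real.log Y) ^ 2 * (2 * H + 1 : ℝ) ^ Fintype.card ι := by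
  obtain ⟨K, hK⟩ := D.typical (fun y c => lq (W c) y) 2 (fun y c => h.lq_near y c) hδ
  refine ⟨K, fun H Y hY => ?_⟩
  refine le_trans ?_ (hK H Y hY)
  rw [← Set.ncard_coe_finset]
  have hsub : {c : ι → ℤ | (∀ i, |c i| ≤ H) ∧ ∃ y : ℕ, Y ≤ y ∧ y ^ 11 ≤ H ∧
        (bsd (W c) y < Real.log y ^ (r + 1 / 2 - δ) ∨
          Real.log y ^ (r + 1 / 2 + δ) < bsd (W c) y)} ⊆
      (((Pool.Agent.Y722.HS.box ι H).filter (fun c => ∃ y : ℕ, Y ≤ y ∧ y ^ 11 ≤ H ∧
        δ * Lg y < |lq (W c) y - (r + 1 / 2) * Lg y|) : Finset (ι → ℤ)) : Set (ι → ℤ)) := by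
    rintro c ⟨hc, y, hy1, hy2, hy3⟩
    rw [Finset.coe_filter]
    refine ⟨?_, y, hy1, hy2, ?_⟩
    · unfold Pool.Agent.Y722.HS.box IH
      rw [Fintype.mem_piFinset]
      intro i
      rw [Finset.mem_Icc]
      exact abs_le.mp (hc i)
    · have hl : 0 < Real.log y := Real.log_pos (by exact_mod_cast (by omega : 1 < y))
      rw [bsd_eq] at hy3
      rw [Real.rpow_def_of_pos hl, Real.rpow_def_of_pos hl, Real.exp_lt_exp, Real.exp_lt_exp] at hy3
      change δ * Lg y < |lq (W c) y - (r + 1 / 2) * Lg y|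
      rw [lt_abs]
      unfold Lg
      rcases hy3 with h1 | h1
      · right
        linarith
      · left
        linarith
  exact_mod_cast Set.ncard_le_ncard hsub (Finset.finite_toSet _)

end Pool.Agent.X280.BP
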