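import Pool.Agent.X280.BP.Gauss
import Pool.Agent.X280.BP.Final

/-!
# The normal law of the products for families of integral equations
-/

set_option autoImplicit false
set_option linter.unusedSectionVars false

namespace Pool.Agent.X280.BP

open Finset Filter Topology Pool.Agent.Y722.HS MeasureTheory ProbabilityTheory

variable {ι : Type} [Fintype ι] [DecidableEq ι]

theorem ncard_box (H : ℕ) (P : (ι → ℤ) → Prop) [DecidablePred P] :
    {c : ι → ℤ | (∀ i, |c i| ≤ H) ∧ P c}.ncard =
      ((Pool.Agent.Y722.HS.box ι H).filter P).card := by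
  rw [← Set.ncard_coe_finset]
  congr 1
  ext c
  rw [Finset.coe_filter]
  simp only [Set.mem_setOf_eq]
  refine and_congr_left fun _ => ?_
  unfold Pool.Agent.Y722.HS.box IH
  rw [Fintype.mem_piFinset]
  refine forall_congr' fun i => ?_
  rw [Finset.mem_Icc, abs_le]

theorem gauss_of {W : (ι → ℤ) → WeierstrassCurve ℤ}
    {V : ∀ p : ℕ, (ι → ZMod p) → WeierstrassCurve (ZMod p)} (h : Red W V) {r C : ℝ}
    (D : Dat (trc V) (fun p c => (V p c).Δ ≠ 0) r C) (u : ℝ) {ε : ℝ} (hε : 0 < ε) :
    ∃ k y0 : ℕ, ∀ y H : ℕ, y0 ≤ y → y ^ k ≤ H →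
      |({c : ι → ℤ | (∀ i, |c i| ≤ H) ∧ Real.log (bsd (W c) y) ≤
        (r + 1 / 2) * Real.log (Real.log y) + u * √(Real.log (Real.log y))}.ncard : ℝ) /
        (2 * H + 1 : ℝ) ^ Fintype.card ι - (gaussianReal 0 1).real (Set.Iic u)| ≤ ε := by
  classical
  obtain ⟨k, y0, hk⟩ := D.gauss (fun y c => lq (W c) y) 2 (fun y c => h.lq_near y c) u hε
  refine ⟨k, max y0 3, fun y H hy hH => ?_⟩
  have h1 := hk y H ((le_max_left _ _).trans hy) hH
  have hy3 : 3 ≤ y := (le_max_right _ _).trans hy
  have hlog : 1 < Real.log y := by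
    rw [Real.lt_log_iff_exp_lt (by positivity)]
    have h3 : Real.exp 1 < 3 := by
      have := Real.exp_one_lt_d9
      linarith
    have h4 : (3 : ℝ) ≤ y := by exact_mod_cast hy3
    linarith
  have hL : 0 < Real.log (Real.log y) := Real.log_pos hlog
  have hs : 0 < √(Real.log (Real.log y)) := Real.sqrt_pos.2 hL
  rw [measureReal_def, law_apply H _ _ measurableSet_Iic,
    ENNReal.toReal_ofReal (by positivity)] at h1
  rw [ncard_box]
  have e : ((Pool.Agent.Y722.HS.box ι H).filter (fun c => Real.log (bsd (W c) y) ≤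
        (r + 1 / 2) * Real.log (Real.log y) + u * √(Real.log (Real.log y)))) =
      (Pool.Agent.Y722.HS.box ι H).filter
        (fun c => TT (fun y c => lq (W c) y) (r + 1 / 2) y c ∈ Set.Iic u) := by
    apply Finset.filter_congr
    intro c _
    rw [Set.mem_Iic, bsd_eq, Real.log_exp]
    unfold TT Lg
    rw [div_le_iff₀ hs]
    constructor
    · intro h; linarith
    · intro h; linarith
  rw [e]
  exact h1

end Pool.Agent.X280.BP
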