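import Pool.Agent.X280.BP.Six2

/-!
# The family with six marked points: local data
-/

set_option autoImplicit false
set_option linter.unusedSimpArgs false
set_option linter.unusedVariables false

namespace Pool.Agent.X280.BP

open Finset Pool.Agent.Y722.HS

variable {p : ℕ} [hp : Fact p.Prime]

theorem roots_eight (s e8 e7 e6 e5 e4 e3 e2 e1 e0 : ZMod p) (he : e8 ≠ 0) (Q : ZMod p → Prop)
    [DecidablePred Q]
    (hQ : ∀ t, Q t → e8 * (t + s) ^ 8 + e7 * (t + s) ^ 7 + e6 * (t + s) ^ 6 + e5 * (t + s) ^ 5 +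
      e4 * (t + s) ^ 4 + e3 * (t + s) ^ 3 + e2 * (t + s) ^ 2 + e1 * (t + s) + e0 = 0) :
    (univ.filter Q).card ≤ 8 := by
  classical
  set P : Polynomial (ZMod p) := Polynomial.C e8 * Polynomial.X ^ 8 +
    Polynomial.C e7 * Polynomial.X ^ 7 + Polynomial.C e6 * Polynomial.X ^ 6 +
    Polynomial.C e5 * Polynomial.X ^ 5 + Polynomial.C e4 * Polynomial.X ^ 4 +
    Polynomial.C e3 * Polynomial.X ^ 3 + Polynomial.C e2 * Polynomial.X ^ 2 +
    Polynomial.C e1 * Polynomial.X + Polynomial.C e0 with hP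
  have hc8 : P.coeff 8 = e8 := by
    rw [hP]
    simp [Polynomial.coeff_X, Polynomial.coeff_C]
  have hP0 : P ≠ 0 := by
    intro h
    rw [h, Polynomial.coeff_zero] at hc8
    exact he hc8.symm
  have hdeg : P.natDegree ≤ 8 := by
    rw [hP]
    compute_degree
  have h1 : ((univ.filter Q).image (fun t => t + s)).card = (univ.filter Q).card :=
    Finset.card_image_of_injective _ (add_left_injective s)
  rw [← h1]
  have h2 : (univ.filter Q).image (fun t => t + s) ⊆ P.roots.toFinset := by
    intro u hu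
    rw [Finset.mem_image] at hu
    obtain ⟨t, ht, rfl⟩ := hu
    rw [Finset.mem_filter] at ht
    rw [Multiset.mem_toFinset, Polynomial.mem_roots hP0, Polynomial.IsRoot.def, hP]
    simp only [Polynomial.eval_add, Polynomial.eval_mul, Polynomial.eval_C, Polynomial.eval_pow,
      Polynomial.eval_X]
    exact hQ t ht.2
  calc _ ≤ P.roots.toFinset.card := Finset.card_le_card h2
    _ ≤ Multiset.card P.roots := Multiset.toFinset_card_le _
    _ ≤ P.natDegree := Polynomial.card_roots' P
    _ ≤ 8 := hdeg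

open Classical in
theorem few6 (h5 : 5 ≤ p) :
    EM p (fun c : Fin 2 → ZMod p => if (V6 c).Δ ≠ 0 then (0 : ℝ) else 1) ≤ 8 / p := by
  have h := EM_few (fun c : Fin 2 → ZMod p => (V6 c).Δ = 0) ![0, 1] 8 (by
    intro c
    refine roots_eight (c 1) (-1769472)
      ((-70778880) * c 0 ^ 1 + (262144) * c 0 ^ 3)
      ((3220439040) + (-1008599040) * c 0 ^ 2 + (7864320) * c 0 ^ 4)
      ((132172480512) * c 0 ^ 1 + (-6658457600) * c 0 ^ 3 + (71565312) * c 0 ^ 5)
      ((-441178914816) + (2053330698240) * c 0 ^ 2 + (-30001790976) * c 0 ^ 4 +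
        (214958080) * c 0 ^ 6)
      ((-11747595386880) * c 0 ^ 1 + (14951724875776) * c 0 ^ 3 + (-167195443200) * c 0 ^ 5 +
        (150994944) * c 0 ^ 7)
      ((-1299500236800) + (-140150222880768) * c 0 ^ 2 + (52267002101760) * c 0 ^ 4 +
        (-661693399040) * c 0 ^ 6)
      ((-76186386432000) * c 0 ^ 1 + (-817121219051520) * c 0 ^ 3 + (87152406822912) * c 0 ^ 5 +
        (-1114342686720) * c 0 ^ 7)
      ((1498247331840000) + (-1489354673356800) * c 0 ^ 2 + (-1574375198294016) * c 0 ^ 4 +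
        (62878237327360) * c 0 ^ 6 + (-587068342272) * c 0 ^ 8) ?_ _ ?_
    · rw [show (-1769472 : ZMod p) = -(2 ^ 16 * 3 ^ 3) by norm_num]
      exact neg_ne_zero.mpr (mul_ne_zero (pow_ne_zero _ (two_ne h5)) (pow_ne_zero _ (three_ne h5)))
    · intro t ht
      refine Eq.trans ?_ ht
      simp only [V6, w6, G6, WeierstrassCurve.Δ, WeierstrassCurve.b₂, WeierstrassCurve.b₄,
        WeierstrassCurve.b₆, WeierstrassCurve.b₈, Pi.add_apply, Pi.smul_apply, smul_eq_mul,
        Matrix.cons_val_zero, Matrix.cons_val_one, mul_zero, mul_one, add_zero]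
      ring)
  refine le_trans (le_of_eq ?_) (h.trans (le_of_eq (by norm_num)))
  congr 1
  funext c
  by_cases hc : (V6 c).Δ = 0
  · simp [hc]
  · simp [hc]

/-- The exceptional parameters. -/
def Ex6 (c : Fin 2 → ZMod p) : Prop := (V6 c).a₃ = 0 ∧ (V6 c).a₄ = 0

open Classical in
theorem ex6_few (h5 : 5 ≤ p) :
    EM p (fun c : Fin 2 → ZMod p => if Ex6 c then (1 : ℝ) else 0) ≤ 64 / (p : ℝ) ^ 2 := by
  have h2 := two_ne (p := p) h5
  have h8 := eight_ne (p := p) h5
  have hp0 := p_pos' (p := p)
  rw [EM_two']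
  apply div_le_div_of_nonneg_right _ (by positivity)
  set P1 : ZMod p → Prop := fun u => u ^ 8 - 120 * u ^ 6 + 2064 * u ^ 4 - 6400 * u ^ 2 = 0 with hP1
  set P2 : ZMod p → Prop := fun u => u ^ 8 - 120 * u ^ 6 + 4368 * u ^ 4 - 52480 * u ^ 2 + 147456 = 0
    with hP2
  have k1 : (univ.filter P1).card ≤ 8 := by
    refine roots_eight 0 1 0 (-120) 0 2064 0 (-6400) 0 0 one_ne_zero P1 fun t ht => ?_
    rw [hP1] at ht
    linear_combination ht
  have k2 : (univ.filter P2).card ≤ 8 := by
    refine roots_eight 0 1 0 (-120) 0 4368 0 (-52480) 0 147456 one_ne_zero P2 fun t ht => ?_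
    rw [hP2] at ht
    linear_combination ht
  have hmain : ∀ u v : ZMod p, Ex6 ![u, v] → (P1 u ∨ P2 u) ∧
      (v ^ 2 - 820 - 24 * (u ^ 2 - 30)) * (v ^ 2 - 820 + 24 * (u ^ 2 - 30)) = 0 := by
    intro u v hE
    obtain ⟨h3, h4⟩ := hE
    simp only [V6, w6, G6, Matrix.cons_val_zero, Matrix.cons_val_one] at h3 h4
    set w := u ^ 2 - 30 with hw
    set g := 8 * u * v + 1092 - w ^ 2 with hg
    have h6 : (g - 192) * (g + 192) = 0 := by linear_combination h4
    have h7 : 8 * (v ^ 2 - 820) = w * g := by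
      apply mul_left_cancel₀ h2
      linear_combination h3
    rcases mul_eq_zero.mp h6 with h | h
    · have hg' : g = 192 := by linear_combination h
      rw [hg'] at h7
      have h9 : v ^ 2 - 820 - 24 * w = 0 := by
        apply mul_left_cancel₀ h8
        linear_combination h7
      refine ⟨Or.inl ?_, by rw [h9, zero_mul]⟩
      have h10 : 8 * u * v = w ^ 2 - 900 := by linear_combination hg' - hg
      have h11 : 64 * u ^ 2 * (820 + 24 * w) = (w ^ 2 - 900) ^ 2 := by
        rw [← h10]
        linear_combination (-64 * u ^ 2) * h9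
      rw [hP1]
      rw [hw] at h11
      linear_combination -h11
    · have hg' : g = -192 := by linear_combination h
      rw [hg'] at h7
      have h9 : v ^ 2 - 820 + 24 * w = 0 := by
        apply mul_left_cancel₀ h8
        linear_combination h7
      refine ⟨Or.inr ?_, by rw [h9, mul_zero]⟩
      have h10 : 8 * u * v = w ^ 2 - 1284 := by linear_combination hg' - hg
      have h11 : 64 * u ^ 2 * (820 - 24 * w) = (w ^ 2 - 1284) ^ 2 := by
        rw [← h10]
        linear_combination (-64 * u ^ 2) * h9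
      rw [hP2]
      rw [hw] at h11
      linear_combination -h11
  have hv : ∀ u : ZMod p, ∑ v : ZMod p, (if Ex6 ![u, v] then (1 : ℝ) else 0) ≤
      4 * ((if P1 u then 1 else 0) + (if P2 u then 1 else 0)) := by
    intro u
    by_cases hu : P1 u ∨ P2 u
    · have h1 : (1 : ℝ) ≤ (if P1 u then 1 else 0) + (if P2 u then 1 else 0) := by
        rcases hu with h | h
        · rw [if_pos h]
          have : (0 : ℝ) ≤ if P2 u then 1 else 0 := by split_ifs <;> norm_num
          linarith
        · rw [if_pos h]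
          have : (0 : ℝ) ≤ if P1 u then 1 else 0 := by split_ifs <;> norm_num
          linarith
      have h3 : (univ.filter fun v : ZMod p => Ex6 ![u, v]).card ≤ 4 := by
        refine roots_four 0 1 0 (-1640) 0 (820 ^ 2 - 24 ^ 2 * (u ^ 2 - 30) ^ 2)
          (Or.inl one_ne_zero) _ fun v hE => ?_
        have := (hmain u v hE).2
        linear_combination this
      rw [Finset.sum_ite, Finset.sum_const_zero, add_zero, Finset.sum_const, nsmul_eq_mul, mul_one]
      have h4 : ((univ.filter fun v : ZMod p => Ex6 ![u, v]).card : ℝ) ≤ 4 := by exact_mod_cast h3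
      linarith
    · have h1 : ∀ v : ZMod p, (if Ex6 ![u, v] then (1 : ℝ) else 0) = 0 := fun v =>
        if_neg fun hE => hu (hmain u v hE).1
      rw [Finset.sum_congr rfl fun v _ => h1 v, Finset.sum_const_zero]
      positivity
  refine (Finset.sum_le_sum fun u _ => hv u).trans ?_
  rw [← Finset.mul_sum, Finset.sum_add_distrib, Finset.sum_ite, Finset.sum_ite, Finset.sum_const_zero,
    Finset.sum_const_zero, Finset.sum_const, Finset.sum_const]
  have k1' : ((univ.filter P1).card : ℝ) ≤ 8 := by exact_mod_cast k1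
  have k2' : ((univ.filter P2).card : ℝ) ≤ 8 := by exact_mod_cast k2
  simp only [nsmul_eq_mul, mul_one, add_zero]
  linarith

/-- The trace is close to the quartic sum. -/
theorem trc6 (c : Fin 2 → ZMod p) (h5 : 5 ≤ p) (h : ¬ Ex6 c) :
    trc (fun p (c : Fin 2 → ZMod p) => V6 c) p c = -1 - SQ c := by
  classical
  have h1 : (V6 c).a₃ ≠ 0 ∨ (V6 c).a₄ ≠ 0 := by
    unfold Ex6 at h
    by_contra hcon
    push Not at hcon
    exact h hcon
  unfold trc
  rw [count_rel c h5 h1]
  ring

theorem SQ_le (c : Fin 2 → ZMod p) : |SQ c| ≤ p := by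
  unfold SQ
  refine (Finset.abs_sum_le_sum_abs _ _).trans ?_
  calc ∑ x : ZMod p, |ch (ff c x)| ≤ ∑ _x : ZMod p, (1 : ℝ) :=
        Finset.sum_le_sum fun x _ => ch_abs _
    _ = p := by rw [Finset.sum_const, Finset.card_univ, ZMod.card, nsmul_eq_mul, mul_one]

theorem trc6_le {p : ℕ} (hpp : p.Prime) (h5 : 5 ≤ p) (c : Fin 2 → ZMod p) :
    |trc (fun p (c : Fin 2 → ZMod p) => V6 c) p c| ≤ 2 * √p ∧
      ((V6 c).Δ = 0 → |trc (fun p (c : Fin 2 → ZMod p) => V6 c) p c| ≤ 1) := by
  have : Fact p.Prime := ⟨hpp⟩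
  unfold trc
  by_cases hc : (V6 c).Δ = 0
  · have h1 := pts_bad (six_ne (p := p) h5) (V6 c) hc
    rw [ZMod.card] at h1
    obtain ⟨_, _, h2, _⟩ := sqrt_facts hpp h5
    exact ⟨by linarith, fun _ => h1⟩
  · have h1 := pts_good (six_ne (p := p) h5) (V6 c) hc
    rw [ZMod.card] at h1
    exact ⟨h1, fun h => absurd h hc⟩

theorem dat6 : Dat (trc fun p (c : Fin 2 → ZMod p) => V6 c) (fun p c => (V6 c).Δ ≠ 0) 6 400 where
  C1 := by norm_num
  hasse := fun p hpp h5 c => (trc6_le hpp h5 c).1
  bad := fun p hpp h5 c hc => (trc6_le hpp h5 c).2 (not_not.mp hc)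
  mean := by
    intro p hpp h5 _
    have hF : Fact p.Prime := ⟨hpp⟩
    classical
    obtain ⟨h0, h1, h2, h3, h4, h6⟩ := sqrt_facts hpp h5
    set T := trc fun p (c : Fin 2 → ZMod p) => V6 c with hT
    by_cases h11 : 11 ≤ p
    · have e : EM p (T p) + 6 = EM p (fun c => T p c - (-1 - SQ c)) := by
        rw [EM_sub', EM_sub', EM_const', SQ_mean h11]
        ring
      rw [e]
      refine (EM_abs_le p _ (fun c => (p + 2 * √p + 1) * (if Ex6 c then (1 : ℝ) else 0)) fun c => ?_).trans ?_
      · by_cases hE : Ex6 c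
        · rw [if_pos hE, mul_one]
          have k1 := (trc6_le hpp h5 c).1
          have k2 := SQ_le c
          rw [abs_le] at k1 k2 ⊢
          constructor <;> linarith [k1.1, k1.2, k2.1, k2.2]
        · rw [if_neg hE, mul_zero, hT, trc6 c h5 hE, sub_self, abs_zero]
      · rw [EM_mul']
        have k3 := ex6_few (p := p) h5
        calc (p + 2 * √p + 1) * EM p (fun c : Fin 2 → ZMod p => if Ex6 c then (1 : ℝ) else 0)
            ≤ (p + 2 * p + p) * (64 / (p : ℝ) ^ 2) :=
              mul_le_mul (by linarith) k3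
                (EM_ind_nonneg (p := p) (fun c => Ex6 c)) (by positivity)
          _ = 256 / p := by field_simp; norm_num
          _ ≤ 400 / √p := by gcongr; norm_num
    · have k1 : |EM p (T p)| ≤ 2 * √p :=
        (EM_abs_le p _ (fun _ => 2 * √p) fun c => (trc6_le hpp h5 c).1).trans
          (le_of_eq (EM_const' p _))
      have hp10 : (p : ℝ) ≤ 10 := by exact_mod_cast (by omega : p ≤ 10)
      rw [le_div_iff₀ h0]
      have k2 : |EM p (T p) + 6| ≤ 2 * √p + 6 := by
        refine (abs_add_le _ _).trans ?_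
        rw [abs_of_pos (by norm_num : (0 : ℝ) < 6)]
        linarith
      calc |EM p (T p) + 6| * √p ≤ (2 * √p + 6) * √p := by gcongr
        _ = 2 * p + 6 * √p := by rw [add_mul, mul_assoc, h1]
        _ ≤ 400 := by linarith
  sq := by
    intro p hpp h5 _
    have hF : Fact p.Prime := ⟨hpp⟩
    classical
    obtain ⟨h0, h1, h2, h3, h4, h6⟩ := sqrt_facts hpp h5
    set T := trc fun p (c : Fin 2 → ZMod p) => V6 c with hT
    by_cases h11 : 11 ≤ p
    · have e : EM p (fun c => T p c ^ 2) - p = EM p (fun c => T p c ^ 2 - (-1 - SQ c) ^ 2) +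
          (11 + (EM p (fun c : Fin 2 → ZMod p => SQ c ^ 2) - p)) := by
        rw [EM_sub']
        have e1 : EM p (fun c : Fin 2 → ZMod p => (-1 - SQ c) ^ 2) =
            11 + EM p (fun c : Fin 2 → ZMod p => SQ c ^ 2) := by
          have : (fun c : Fin 2 → ZMod p => (-1 - SQ c) ^ 2) = fun c =>
              (1 + 2 * SQ c) + SQ c ^ 2 := by funext c; ring
          rw [this, EM_add', EM_add', EM_const', EM_mul', SQ_mean h11]
          norm_num
        rw [e1]
        ring
      rw [e]
      have k3 := ex6_few (p := p) h5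
      have k4 : |EM p (fun c => T p c ^ 2 - (-1 - SQ c) ^ 2)| ≤ 256 := by
        refine (EM_abs_le p _ (fun c => (4 * (p : ℝ) ^ 2) * (if Ex6 c then (1 : ℝ) else 0)) fun c => ?_).trans ?_
        · by_cases hE : Ex6 c
          · rw [if_pos hE, mul_one]
            have k1 := (trc6_le hpp h5 c).1
            have k2 := SQ_le c
            have k5 : T p c ^ 2 ≤ 4 * (p : ℝ) ^ 2 := by
              rw [← sq_abs]
              calc |T p c| ^ 2 ≤ (2 * √p) ^ 2 := by gcongr
                _ = 4 * (√p * √p) := by ring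
                _ = 4 * p := by rw [h1]
                _ ≤ 4 * (p : ℝ) ^ 2 := by nlinarith
            have k6 : (-1 - SQ c) ^ 2 ≤ 4 * (p : ℝ) ^ 2 := by
              have k7 : |-1 - SQ c| ≤ 2 * p := by
                rw [abs_le] at k2 ⊢
                have : (1 : ℝ) ≤ p := by exact_mod_cast hpp.one_lt.le
                constructor <;> linarith [k2.1, k2.2]
              rw [← sq_abs]
              calc |-1 - SQ c| ^ 2 ≤ (2 * (p : ℝ)) ^ 2 := by gcongr
                _ = 4 * (p : ℝ) ^ 2 := by ring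
            rw [abs_le]
            constructor <;> nlinarith [sq_nonneg (T p c), sq_nonneg (-1 - SQ c)]
          · rw [if_neg hE, mul_zero, hT, trc6 c h5 hE, sub_self, abs_zero]
        · rw [EM_mul']
          calc 4 * (p : ℝ) ^ 2 * EM p (fun c : Fin 2 → ZMod p => if Ex6 c then (1 : ℝ) else 0)
              ≤ 4 * (p : ℝ) ^ 2 * (64 / (p : ℝ) ^ 2) := by gcongr
            _ = 256 := by field_simp; norm_num
      have k8 := SQ_sq (p := p) h11
      refine (abs_add_le _ _).trans ?_
      have k9 : |11 + (EM p (fun c : Fin 2 → ZMod p => SQ c ^ 2) - p)| ≤ 44 := by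
        rw [abs_le] at k8 ⊢
        constructor <;> linarith [k8.1, k8.2]
      nlinarith
    · have hp10 : (p : ℝ) ≤ 10 := by exact_mod_cast (by omega : p ≤ 10)
      have k1 : |EM p (fun c => T p c ^ 2)| ≤ 4 * p := by
        refine (EM_abs_le p _ (fun _ => 4 * p) fun c => ?_).trans (le_of_eq (EM_const' p _))
        rw [abs_pow]
        calc |T p c| ^ 2 ≤ (2 * √p) ^ 2 := by
              have := (trc6_le hpp h5 c).1
              gcongr
          _ = 4 * (√p * √p) := by ring
          _ = 4 * p := by rw [h1]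
      refine (abs_sub _ _).trans ?_
      rw [abs_of_pos h4]
      nlinarith
  few := by
    intro p hpp h5 _
    have hF : Fact p.Prime := ⟨hpp⟩
    obtain ⟨h0, h1, h2, h3, h4, h6⟩ := sqrt_facts hpp h5
    have h7 := few6 (p := p) h5
    have h8 : (8 : ℝ) / p ≤ 400 / √p := by
      gcongr
      norm_num
    refine le_trans (le_of_eq ?_) (h7.trans h8)
    congr 1
    funext c
    congr

end Pool.Agent.X280.BP
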