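import Pool.Agent.X280.BP.Gauss

/-!
# Abstract forms of the theorems on sums over primes of functions of the residues
-/

set_option autoImplicit false

namespace Pool.Agent.X280.BP

open Finset Filter Topology Pool.Agent.Y722.HS MeasureTheory ProbabilityTheory

variable {ι : Type} [Fintype ι] [DecidableEq ι]

/-- **Comparison with the model**, general bounds. -/
theorem charG (Z : ∀ p : ℕ, (ι → ZMod p) → ℝ) (b : ℕ → ℝ) {B : ℝ} (hB1 : 1 ≤ B) {x H m : ℕ}
    (hx1 : 1 ≤ x) (hm : 1 ≤ m) (hH : x ^ (2 * m) ≤ 2 * H + 1)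
    (hb : ∀ p ∈ (Ico 0 x).filter Nat.Prime, ∀ c, |Z p c| ≤ b p)
    (hbB : ∀ p ∈ (Ico 0 x).filter Nat.Prime, b p ≤ B)
    (hmean : ∀ p ∈ (Ico 0 x).filter Nat.Prime, ∀ [NeZero p], EM p (Z p) = 0)
    {s W : ℝ} (hs : |s| ≤ 1) (hW0 : 0 < W)
    (hW : ∑ p ∈ (Ico 0 x).filter Nat.Prime, b p ^ 2 ≤ W) :
    ‖EBc H (fun c => Complex.exp ((s * SS Z 0 x c : ℝ) * Complex.I)) - phi Z x s‖ ≤
      4 * 2 ^ Fintype.card ι * (B * x ^ 2) ^ (2 * m) / (2 * H + 1) +
      4 * (s ^ 2 * W * Real.exp 1 / m) ^ m := by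
  classical
  have hB0 : 0 < B := lt_of_lt_of_le one_pos hB1
  have hxR : (1 : ℝ) ≤ x := by exact_mod_cast hx1
  set I := (Ico 0 x).filter Nat.Prime with hI
  set n := Fintype.card ι with hn
  set S : (ι → ℤ) → ℝ := fun c => SS Z 0 x c with hS
  have hIp : ∀ p ∈ I, p.Prime ∧ p ≤ x := fun p hp => by
    rw [hI, Finset.mem_filter, Finset.mem_Ico] at hp
    exact ⟨hp.2, by omega⟩
  have hb0 : ∀ p ∈ I, 0 ≤ b p := fun p hp => (abs_nonneg _).trans (hb p hp 0)
  have hsum : ∑ p ∈ I, b p ≤ B * x := by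
    calc ∑ p ∈ I, b p ≤ ∑ p ∈ I, B := Finset.sum_le_sum fun p hp => hbB p hp
      _ = I.card * B := by rw [Finset.sum_const, nsmul_eq_mul]
      _ ≤ x * B := by
          have hc : I.card ≤ x := by
            calc I.card ≤ (Ico 0 x).card := Finset.card_filter_le _ _
              _ = x := by simp
          have : (I.card : ℝ) ≤ x := by exact_mod_cast hc
          gcongr
      _ = B * x := by ring
  have hsum0 : 0 ≤ ∑ p ∈ I, b p := Finset.sum_nonneg hb0
  set q : ℝ := B * x ^ 2 with hq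
  have hq1 : 1 ≤ q := by
    rw [hq]
    have : (1 : ℝ) ≤ (x : ℝ) ^ 2 := one_le_pow₀ hxR
    nlinarith
  have hxs : ∀ j : ℕ, (x : ℝ) ^ j * (∑ p ∈ I, b p) ^ j ≤ q ^ j := by
    intro j
    rw [← mul_pow]
    apply pow_le_pow_left₀ (by positivity)
    calc (x : ℝ) * ∑ p ∈ I, b p ≤ x * (B * x) := by gcongr
      _ = q := by rw [hq]; ring
  have hqj : ∀ j : ℕ, j ≤ 2 * m → q ^ j ≤ q ^ (2 * m) := fun j hj => pow_le_pow_right₀ hq1 hj
  -- the moments over the two boxes
  have hdiff : ∀ H' : ℕ, x ^ (2 * m) ≤ 2 * H' + 1 → ∀ j : ℕ, j ≤ 2 * m →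
      |EB H (fun c => S c ^ j) - EB H' (fun c => S c ^ j)| ≤
        2 ^ n * q ^ (2 * m) * (1 / (2 * H + 1) + 1 / (2 * H' + 1)) := by
    intro H' hH' j hj
    have hxj : x ^ j ≤ x ^ (2 * m) := Nat.pow_le_pow_right hx1 hj
    have h1 := mom_diff I x (fun p hp => ⟨(hIp p hp).1.ne_zero, (hIp p hp).2⟩) Z
      b hb j H H' (hxj.trans hH) (hxj.trans hH')
    refine h1.trans ?_
    rw [← hn]
    calc 2 ^ n * ((x : ℝ) ^ j / (2 * H + 1) + (x : ℝ) ^ j / (2 * H' + 1)) *
          (∑ p ∈ I, b p) ^ j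
        = 2 ^ n * ((x : ℝ) ^ j * (∑ p ∈ I, b p) ^ j) *
          (1 / (2 * H + 1) + 1 / (2 * H' + 1)) := by ring
      _ ≤ 2 ^ n * q ^ (2 * m) * (1 / (2 * H + 1) + 1 / (2 * H' + 1)) := by
          gcongr
          exact (hxs j).trans (hqj j hj)
  -- the even moment
  set l : ℝ := Real.sqrt (m / W) with hl
  have hm0 : (0 : ℝ) < m := by exact_mod_cast hm
  have hl0 : 0 < l := Real.sqrt_pos.2 (by positivity)
  have hl2 : l ^ 2 = m / W := Real.sq_sqrt (by positivity)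
  have hl2m : l ^ (2 * m) = (m / W) ^ m := by rw [pow_mul, hl2]
  have heven : ∀ H' : ℕ, x ^ (2 * m) ≤ 2 * H' + 1 → EB H' (fun c => S c ^ (2 * m)) ≤
      ((2 * m).factorial : ℝ) * (2 * (W * Real.exp 1 / m) ^ m) +
        2 ^ n * q ^ (2 * m) * (1 / (2 * H' + 1)) := by
    intro H' hH'
    have h1 := mom_even I x hIp Z b hb (fun p hp => hmean p hp) W hW l hl0 m H' hH'
    refine h1.trans (add_le_add (le_of_eq ?_) ?_)
    · rw [hl2, hl2m, show (m : ℝ) / W * W = m by field_simp]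
      have : Real.exp (m : ℝ) = Real.exp 1 ^ m := by rw [← Real.exp_nat_mul, mul_one]
      rw [this, div_pow, div_pow, mul_pow]
      field_simp
    · rw [← hn]
      calc 2 ^ n * ((x : ℝ) ^ (2 * m) / (2 * H' + 1)) * (∑ p ∈ I, b p) ^ (2 * m)
          = 2 ^ n * ((x : ℝ) ^ (2 * m) * (∑ p ∈ I, b p) ^ (2 * m)) * (1 / (2 * H' + 1)) := by
            ring
        _ ≤ 2 ^ n * q ^ (2 * m) * (1 / (2 * H' + 1)) := by
            gcongr
            exact hxs (2 * m)
  -- comparison of the two boxes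
  have hcmp : ∀ H' : ℕ, x ^ (2 * m) ≤ 2 * H' + 1 →
      ‖EBc H (fun c => Complex.exp ((s * S c : ℝ) * Complex.I)) -
        EBc H' (fun c => Complex.exp ((s * S c : ℝ) * Complex.I))‖ ≤
      4 * 2 ^ n * q ^ (2 * m) * (1 / (2 * H + 1) + 1 / (2 * H' + 1)) +
        4 * (s ^ 2 * W * Real.exp 1 / m) ^ m := by
    intro H' hH'
    have h1 := char_moments H m S s
    have h2 := char_moments H' m S s
    set P := ∑ j ∈ range (2 * m), ((s : ℂ) * Complex.I) ^ j / (j.factorial : ℂ) *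
      (EB H (fun c => S c ^ j) : ℝ) with hP
    set P' := ∑ j ∈ range (2 * m), ((s : ℂ) * Complex.I) ^ j / (j.factorial : ℂ) *
      (EB H' (fun c => S c ^ j) : ℝ) with hP'
    set D := 2 ^ n * q ^ (2 * m) * (1 / (2 * (H : ℝ) + 1) + 1 / (2 * (H' : ℝ) + 1)) with hD
    have hD0 : 0 ≤ D := by positivity
    have h3 : ‖P - P'‖ ≤ Real.exp 1 * D := by
      rw [hP, hP', ← Finset.sum_sub_distrib]
      refine (norm_sum_le _ _).trans ?_
      have h4 : ∀ j ∈ range (2 * m), ‖((s : ℂ) * Complex.I) ^ j / (j.factorial : ℂ) *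
          (EB H (fun c => S c ^ j) : ℝ) - ((s : ℂ) * Complex.I) ^ j / (j.factorial : ℂ) *
          (EB H' (fun c => S c ^ j) : ℝ)‖ ≤ 1 ^ j / (j.factorial : ℝ) * D := by
        intro j hj
        rw [Finset.mem_range] at hj
        rw [← mul_sub, ← Complex.ofReal_sub, norm_mul, norm_div, norm_pow, norm_mul,
          Complex.norm_I, mul_one, Complex.norm_real, Complex.norm_real, Complex.norm_natCast,
          Real.norm_eq_abs, Real.norm_eq_abs]
        gcongr
        exact hdiff H' hH' j hj.le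
      refine (Finset.sum_le_sum h4).trans ?_
      rw [← Finset.sum_mul]
      refine mul_le_mul_of_nonneg_right ?_ hD0
      exact Real.sum_le_exp_of_nonneg (by norm_num) (2 * m)
    have hfac : (0 : ℝ) < ((2 * m).factorial : ℝ) := by exact_mod_cast Nat.factorial_pos _
    have hs2m : |s| ^ (2 * m) = (s ^ 2) ^ m := by rw [pow_mul, sq_abs]
    have hs1 : |s| ^ (2 * m) ≤ 1 := pow_le_one₀ (abs_nonneg _) hs
    have hfac1 : (1 : ℝ) ≤ ((2 * m).factorial : ℝ) := by exact_mod_cast Nat.factorial_pos (2 * m)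
    have hrem : ∀ K : ℕ, x ^ (2 * m) ≤ 2 * K + 1 →
        |s| ^ (2 * m) / ((2 * m).factorial : ℝ) * EB K (fun c => S c ^ (2 * m)) ≤
        2 * (s ^ 2 * W * Real.exp 1 / m) ^ m + 2 ^ n * q ^ (2 * m) * (1 / (2 * K + 1)) := by
      intro K hK
      have h5 := heven K hK
      calc |s| ^ (2 * m) / ((2 * m).factorial : ℝ) * EB K (fun c => S c ^ (2 * m))
          ≤ |s| ^ (2 * m) / ((2 * m).factorial : ℝ) * (((2 * m).factorial : ℝ) *
            (2 * (W * Real.exp 1 / m) ^ m) + 2 ^ n * q ^ (2 * m) * (1 / (2 * K + 1))) := by gcongr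
        _ = 2 * ((s ^ 2) ^ m * (W * Real.exp 1 / m) ^ m) + (|s| ^ (2 * m) /
            ((2 * m).factorial : ℝ)) * (2 ^ n * q ^ (2 * m) * (1 / (2 * K + 1))) := by
            rw [hs2m]; field_simp
        _ ≤ 2 * (s ^ 2 * W * Real.exp 1 / m) ^ m + 1 * (2 ^ n * q ^ (2 * m) * (1 / (2 * K + 1))) := by
            apply add_le_add
            · apply le_of_eq
              rw [← mul_pow]
              congr 2
              ring
            · apply mul_le_mul_of_nonneg_right _ (by positivity)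
              rw [div_le_one hfac]
              exact hs1.trans hfac1
        _ = _ := by ring
    have h6 := hrem H hH
    have h7 := hrem H' hH'
    have hexp : Real.exp 1 ≤ 3 := by have := Real.exp_one_lt_d9; linarith
    have h8 : ‖EBc H (fun c => Complex.exp ((s * S c : ℝ) * Complex.I)) -
        EBc H' (fun c => Complex.exp ((s * S c : ℝ) * Complex.I))‖ ≤
        ‖EBc H (fun c => Complex.exp ((s * S c : ℝ) * Complex.I)) - P‖ + ‖P - P'‖ +
        ‖EBc H' (fun c => Complex.exp ((s * S c : ℝ) * Complex.I)) - P'‖ := by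
      have e : EBc H (fun c => Complex.exp ((s * S c : ℝ) * Complex.I)) -
        EBc H' (fun c => Complex.exp ((s * S c : ℝ) * Complex.I)) =
        (EBc H (fun c => Complex.exp ((s * S c : ℝ) * Complex.I)) - P) + (P - P') -
        (EBc H' (fun c => Complex.exp ((s * S c : ℝ) * Complex.I)) - P') := by ring
      rw [e]
      exact (norm_sub_le _ _).trans (add_le_add (norm_add_le _ _) le_rfl)
    have h9 : Real.exp 1 * D ≤ 3 * D := by gcongr
    have h10 : 2 ^ n * q ^ (2 * m) * (1 / (2 * (H : ℝ) + 1)) +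
        2 ^ n * q ^ (2 * m) * (1 / (2 * (H' : ℝ) + 1)) = D := by rw [hD]; ring
    have h11 : 4 * 2 ^ n * q ^ (2 * m) * (1 / (2 * (H : ℝ) + 1) + 1 / (2 * (H' : ℝ) + 1)) = 4 * D := by
      rw [hD]; ring
    rw [h11]
    linarith
  -- the limit
  have hlim := (tendsto_const_nhds (x := EBc H (fun c => Complex.exp ((s * S c : ℝ) * Complex.I)))).sub
    (lim_char Z x s)
  have hlim2 : Tendsto (fun H' : ℕ => 4 * 2 ^ n * q ^ (2 * m) *
      (1 / (2 * (H : ℝ) + 1) + 1 / (2 * (H' : ℝ) + 1)) + 4 * (s ^ 2 * W * Real.exp 1 / m) ^ m) atTop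
      (𝓝 (4 * 2 ^ n * q ^ (2 * m) * (1 / (2 * (H : ℝ) + 1) + 0) +
        4 * (s ^ 2 * W * Real.exp 1 / m) ^ m)) :=
    ((tendsto_const_nhds.add (tendsto_ratio 1)).const_mul _).add_const _
  have hfin := le_of_tendsto_of_tendsto hlim.norm hlim2 (by
    filter_upwards [eventually_ge_atTop (x ^ (2 * m))] with H' hH'
    exact hcmp H' (by omega))
  refine hfin.trans (le_of_eq ?_)
  rw [add_zero]
  ring

/-- The mean square of the local data. -/
noncomputable def vv (Z : ∀ p : ℕ, (ι → ZMod p) → ℝ) (p : ℕ) : ℝ :=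
  if h : p = 0 then 0 else (haveI : NeZero p := ⟨h⟩; EM p (fun c => Z p c ^ 2))

theorem vv_eq (Z : ∀ p : ℕ, (ι → ZMod p) → ℝ) (p : ℕ) [NeZero p] :
    vv Z p = EM p (fun c => Z p c ^ 2) := by
  unfold vv
  rw [dif_neg (NeZero.ne p)]

theorem vv_nonneg (Z : ∀ p : ℕ, (ι → ZMod p) → ℝ) (p : ℕ) : 0 ≤ vv Z p := by
  unfold vv
  split_ifs with h
  · exact le_rfl
  · unfold EM
    positivity

/-- **The model characteristic function is nearly Gaussian**, general bounds. -/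
theorem phiG (Z : ∀ p : ℕ, (ι → ZMod p) → ℝ) (b : ℕ → ℝ) (x : ℕ)
    (hb : ∀ p ∈ (Ico 0 x).filter Nat.Prime, ∀ c, |Z p c| ≤ b p)
    (hmean : ∀ p ∈ (Ico 0 x).filter Nat.Prime, ∀ [NeZero p], EM p (Z p) = 0) (s : ℝ) :
    ‖phi Z x s - (Real.exp (-(s ^ 2 * (∑ p ∈ (Ico 0 x).filter Nat.Prime, vv Z p) / 2)) : ℝ)‖ ≤
      ∑ p ∈ (Ico 0 x).filter Nat.Prime, (|s| ^ 3 * b p ^ 3 + s ^ 4 * b p ^ 4) := by
  classical
  set I := (Ico 0 x).filter Nat.Prime with hI
  have h3 : ((Real.exp (-(s ^ 2 * (∑ p ∈ I, vv Z p) / 2)) : ℝ) : ℂ) =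
      ∏ p ∈ I, ((Real.exp (-(s ^ 2 * vv Z p / 2)) : ℝ) : ℂ) := by
    rw [← Complex.ofReal_prod, ← Real.exp_sum]
    congr 2
    rw [Finset.sum_neg_distrib, Finset.mul_sum, Finset.sum_div]
  rw [h3]
  unfold phi
  refine (prod_sub_prod I _ _ ?_ ?_).trans ?_
  · intro p hp
    have hpp : p.Prime := (Finset.mem_filter.mp hp).2
    have : NeZero p := ⟨hpp.ne_zero⟩
    rw [Ep_eq]
    refine norm_EMc_le p _ _ fun c => le_of_eq ?_
    exact Complex.norm_exp_ofReal_mul_I _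
  · intro p _
    rw [Complex.norm_real, Real.norm_eq_abs, abs_of_pos (Real.exp_pos _)]
    exact Real.exp_le_one_iff.mpr (by have := vv_nonneg Z p; nlinarith [sq_nonneg s])
  · refine Finset.sum_le_sum fun p hp => ?_
    have hpp : p.Prime := (Finset.mem_filter.mp hp).2
    have : NeZero p := ⟨hpp.ne_zero⟩
    rw [Ep_eq, vv_eq]
    exact one_char p (Z p) (b p) (hb p hp) (hmean p hp) s

/-! ### From characteristic functions to distribution functions -/

theorem law_of_char (T : ℕ → (ι → ℤ) → ℝ) (ν : Measure ℝ) [IsProbabilityMeasure ν]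
    (hchar : ∀ t ε : ℝ, 0 < ε → ∃ k : ℕ, ∀ᶠ y : ℕ in atTop, ∀ H : ℕ, y ^ k ≤ H →
      ‖EBc H (fun c => Complex.exp ((t * T y c : ℝ) * Complex.I)) - charFun ν t‖ ≤ ε)
    (u : ℝ) (hu : ν {u} = 0) {ε : ℝ} (hε : 0 < ε) :
    ∃ k y0 : ℕ, ∀ y H : ℕ, y0 ≤ y → y ^ k ≤ H →
      |(law H (T y)).real (Set.Iic u) - ν.real (Set.Iic u)| ≤ ε := by
  by_contra hcon
  push Not at hcon
  choose ys Hs h1 h2 h3 using fun j : ℕ => hcon j j
  set μ : ℕ → ProbabilityMeasure ℝ := fun j => ⟨law (Hs j) (T (ys j)), inferInstance⟩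
    with hμ
  set ν' : ProbabilityMeasure ℝ := ⟨ν, inferInstance⟩ with hν
  have hys : Tendsto ys atTop atTop := tendsto_atTop_mono h1 tendsto_id
  have hconv : Tendsto μ atTop (𝓝 ν') := by
    rw [ProbabilityMeasure.tendsto_iff_tendsto_charFun]
    intro t
    rw [hν]
    change Tendsto (fun j => charFun (law (Hs j) (T (ys j))) t) atTop (𝓝 (charFun ν t))
    rw [Metric.tendsto_atTop]
    intro δ hδ
    obtain ⟨k, hk⟩ := hchar t (δ / 2) (half_pos hδ)
    have hk2 := hys.eventually hk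
    rw [eventually_atTop] at hk2
    obtain ⟨N, hN⟩ := hk2
    refine ⟨max N (k + 1), fun j hj => ?_⟩
    rw [law_char, dist_eq_norm]
    have hj1 : N ≤ j := (le_max_left _ _).trans hj
    have hj2 : k + 1 ≤ j := (le_max_right _ _).trans hj
    have hpow : ys j ^ k ≤ Hs j := by
      refine le_trans ?_ (h2 j)
      exact Nat.pow_le_pow_right (by have := h1 j; omega) (by omega)
    exact lt_of_le_of_lt (hN j hj1 (Hs j) hpow) (by linarith)
  have hfr : (ν' : Measure ℝ) (frontier (Set.Iic u)) = 0 := by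
    rw [frontier_Iic]
    exact hu
  have h4 := ProbabilityMeasure.tendsto_measure_of_null_frontier_of_tendsto' hconv hfr
  have h5 : Tendsto (fun j => (law (Hs j) (T (ys j))).real (Set.Iic u)) atTop
      (𝓝 (ν.real (Set.Iic u))) :=
    (ENNReal.tendsto_toReal (measure_ne_top _ _)).comp h4
  rw [Metric.tendsto_atTop] at h5
  obtain ⟨N, hN⟩ := h5 ε hε
  have h6 := hN N le_rfl
  rw [Real.dist_eq] at h6
  have h7 := h3 N
  linarith

end Pool.Agent.X280.BP
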