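import Pool.Agent.X280.BP.Abs

/-!
# Typical size and normal law, abstract forms
-/

set_option autoImplicit false

namespace Pool.Agent.X280.BP

open Finset Filter Topology Pool.Agent.Y722.HS MeasureTheory ProbabilityTheory

variable {ι : Type} [Fintype ι] [DecidableEq ι] {Z : ∀ p : ℕ, (ι → ZMod p) → ℝ} {B : ℝ}

open Classical in
/-- **The typical size.** -/
theorem typical_abs (hS : Sys Z B) (κ K0 : ℝ) (hK0 : 0 ≤ K0) (Q : ℕ → (ι → ℤ) → ℝ)
    (hnear : ∀ (y : ℕ) (c : ι → ℤ), |Q y c + SS Z 0 (y + 1) c - κ * LL 0 (y + 1)| ≤ K0)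
    {δ : ℝ} (hδ : 0 < δ) : ∃ K : ℝ, ∀ H Y : ℕ, 3 ≤ Y →
    (((Pool.Agent.Y722.HS.box ι H).filter (fun c => ∃ y : ℕ, Y ≤ y ∧ y ^ 11 ≤ H ∧
      δ * Lg y < |Q y c - κ * Lg y|)).card : ℝ) ≤
      K / Lg Y ^ 2 * (2 * H + 1 : ℝ) ^ Fintype.card ι := by
  have hB0 : 0 < B := lt_of_lt_of_le one_pos hS.one_le
  obtain ⟨C1, hC1, hLL⟩ := LL_Lg
  set R : ℝ := |κ| with hR
  set n := Fintype.card ι with hn
  set T0 : ℝ := max (max (2 * (K0 + R * C1 + δ * C1) / δ) (2 * C1)) (Lg (512 * 2 ^ n)) with hT0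
  refine ⟨max (T0 ^ 2) (CU * B ^ 4 / (δ / 4) ^ 4 * 4), fun H Y hY => ?_⟩
  have hLY := Lg_pos hY
  have hbox0 : (0 : ℝ) < (2 * H + 1 : ℝ) ^ n := by positivity
  rcases lt_or_ge (Lg Y) T0 with hlt | hge
  · have h1 : (((Pool.Agent.Y722.HS.box ι H).filter (fun c => ∃ y : ℕ, Y ≤ y ∧ y ^ 11 ≤ H ∧
        δ * Lg y < |Q y c - κ * Lg y|)).card : ℝ) ≤ (2 * H + 1 : ℝ) ^ n := by
      rw [hn, ← card_box]
      exact_mod_cast Finset.card_filter_le _ _
    have h2 : 1 ≤ max (T0 ^ 2) (CU * B ^ 4 / (δ / 4) ^ 4 * 4) / Lg Y ^ 2 := by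
      rw [le_div_iff₀ (by positivity), one_mul]
      exact (pow_le_pow_left₀ hLY.le hlt.le 2).trans (le_max_left _ _)
    nlinarith
  · set x0 := Nat.findGreatest (fun y => y ^ 11 ≤ H) H with hx0
    have hx0s : x0 ^ 11 ≤ H := Nat.findGreatest_spec (P := fun y => y ^ 11 ≤ H) (Nat.zero_le H)
      (by simp)
    have hle : ∀ y : ℕ, y ^ 11 ≤ H → y ≤ x0 := by
      intro y hy
      refine Nat.le_findGreatest ?_ hy
      exact (Nat.le_self_pow (by norm_num) y).trans hy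
    by_cases hYx : Y ≤ x0
    · have hY512 : 512 * 2 ^ n ≤ Y := by
        by_contra hcon
        push Not at hcon
        have h1 : Lg Y < Lg (512 * 2 ^ n) := by
          unfold Lg
          have h2 : 0 < Real.log Y := Real.log_pos (by exact_mod_cast (by omega : 1 < Y))
          apply Real.log_lt_log h2
          apply Real.log_lt_log (by exact_mod_cast (by omega : 0 < Y))
          exact_mod_cast hcon
        have h2 : Lg (512 * 2 ^ n) ≤ T0 := le_max_right _ _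
        linarith
      have hcond : 2 ^ Fintype.card ι * (x0 + 1) ^ 10 ≤ 2 * H + 1 := by
        rw [← hn]
        have h1 : (x0 + 1) ^ 10 ≤ (2 * x0) ^ 10 := Nat.pow_le_pow_left (by omega) 10
        have h2 : 512 * 2 ^ n ≤ x0 := hY512.trans hYx
        calc 2 ^ n * (x0 + 1) ^ 10 ≤ 2 ^ n * (2 * x0) ^ 10 := Nat.mul_le_mul_left _ h1
          _ = 2 * (512 * 2 ^ n) * x0 ^ 10 := by ring
          _ ≤ 2 * x0 * x0 ^ 10 := by gcongr
          _ = 2 * x0 ^ 11 := by ring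
          _ ≤ 2 * H + 1 := by omega
      have hLLY : Lg Y / 2 ≤ LL 0 (Y + 1) := by
        have h1 := (abs_le.mp (hLL Y hY)).1
        have h2 : 2 * C1 ≤ T0 := (le_max_right _ _).trans (le_max_left _ _)
        linarith
      have hLLY0 : 0 < LL 0 (Y + 1) := by linarith
      have hu := hS.uniform (δ := δ / 4) (by positivity) (Y := Y + 1) (x := x0 + 1) (H := H)
        hLLY0 hcond
      have hsub : ((Pool.Agent.Y722.HS.box ι H).filter (fun c => ∃ y : ℕ, Y ≤ y ∧ y ^ 11 ≤ H ∧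
          δ * Lg y < |Q y c - κ * Lg y|)) ⊆
          ((Pool.Agent.Y722.HS.box ι H).filter (fun c => ∃ y : ℕ, Y + 1 ≤ y ∧ y ≤ x0 + 1 ∧
            δ / 4 * LL 0 y < |SS Z 0 y c|)) := by
        intro c hc
        rw [Finset.mem_filter] at hc ⊢
        obtain ⟨hcb, y, hy1, hy2, hy3⟩ := hc
        refine ⟨hcb, y + 1, by omega, by have := hle y hy2; omega, ?_⟩
        by_contra hcon
        push Not at hcon
        have h1 := hnear y c
        have h2 := hLL y (by omega)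
        have h3 : Lg Y ≤ Lg y := Lg_mono (by omega) hy1
        have h4 : 2 * (K0 + R * C1 + δ * C1) / δ ≤ Lg y :=
          ((le_max_left _ _).trans (le_max_left _ _)).trans (hge.trans h3)
        rw [div_le_iff₀ hδ] at h4
        have h5 : Q y c - κ * Lg y =
            (Q y c + SS Z 0 (y + 1) c - κ * LL 0 (y + 1)) -
            SS Z 0 (y + 1) c + κ * (LL 0 (y + 1) - Lg y) := by ring
        have h6 : |Q y c - κ * Lg y| ≤ K0 + δ / 4 * LL 0 (y + 1) + R * C1 := by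
          rw [h5]
          refine (abs_add_le _ _).trans (add_le_add ((abs_sub _ _).trans (add_le_add h1 hcon)) ?_)
          rw [abs_mul]
          exact mul_le_mul_of_nonneg_left h2 (abs_nonneg _)
        have h7 : LL 0 (y + 1) ≤ Lg y + C1 := by
          have := (abs_le.mp h2).2
          linarith
        have h8 : δ / 4 * LL 0 (y + 1) ≤ δ / 4 * (Lg y + C1) :=
          mul_le_mul_of_nonneg_left h7 (by positivity)
        have h9 : 0 < Lg y := lt_of_lt_of_le hLY h3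
        have h10 : 0 ≤ R * C1 := by positivity
        have h11 : 0 ≤ δ * C1 := by positivity
        nlinarith
      have hcard : (((Pool.Agent.Y722.HS.box ι H).filter (fun c => ∃ y : ℕ, Y ≤ y ∧ y ^ 11 ≤ H ∧
          δ * Lg y < |Q y c - κ * Lg y|)).card : ℝ) ≤
          (((Pool.Agent.Y722.HS.box ι H).filter (fun c => ∃ y : ℕ, Y + 1 ≤ y ∧ y ≤ x0 + 1 ∧
            δ / 4 * LL 0 y < |SS Z 0 y c|)).card : ℝ) := by
        exact_mod_cast Finset.card_le_card hsub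
      refine hcard.trans (hu.trans ?_)
      refine mul_le_mul_of_nonneg_right ?_ hbox0.le
      have hCU : 0 < CU := by unfold CU; norm_num
      have h12 : (Lg Y / 2) ^ 2 ≤ LL 0 (Y + 1) ^ 2 := pow_le_pow_left₀ (by positivity) hLLY 2
      calc CU * B ^ 4 / ((δ / 4) ^ 4 * LL 0 (Y + 1) ^ 2)
          ≤ CU * B ^ 4 / ((δ / 4) ^ 4 * (Lg Y / 2) ^ 2) := by gcongr
        _ = CU * B ^ 4 / (δ / 4) ^ 4 * 4 / Lg Y ^ 2 := by field_simp; norm_num
        _ ≤ _ := by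
          gcongr
          exact le_max_right _ _
    · have hemp : ((Pool.Agent.Y722.HS.box ι H).filter (fun c => ∃ y : ℕ, Y ≤ y ∧ y ^ 11 ≤ H ∧
          δ * Lg y < |Q y c - κ * Lg y|)) = ∅ := by
        rw [Finset.filter_eq_empty_iff]
        rintro c _ ⟨y, hy1, hy2, _⟩
        exact hYx (hy1.trans (hle y hy2))
      rw [hemp, Finset.card_empty, Nat.cast_zero]
      have : 0 ≤ max (T0 ^ 2) (CU * B ^ 4 / (δ / 4) ^ 4 * 4) := (sq_nonneg T0).trans (le_max_left _ _)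
      positivity

/-- **Convergence of the characteristic functions.** -/
theorem clt_abs (hS : Sys Z B) (κ K0 K1 : ℝ) (hK0 : 0 ≤ K0) (hK1 : 0 ≤ K1)
    (Q : ℕ → (ι → ℤ) → ℝ)
    (hnear : ∀ (y : ℕ) (c : ι → ℤ), |Q y c + SS Z 0 (y + 1) c - κ * LL 0 (y + 1)| ≤ K0)
    (hvar : ∀ x : ℕ, |∑ p ∈ (Ico 0 x).filter Nat.Prime, vv Z p - LL 0 x| ≤ K1)
    (t : ℝ) {ε : ℝ} (hε : 0 < ε) :
    ∃ k : ℕ, ∀ᶠ y : ℕ in atTop, ∀ H : ℕ, y ^ k ≤ H →
      ‖EBc H (fun c => Complex.exp ((t * TT Q κ y c : ℝ) * Complex.I)) -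
        (Real.exp (-(t ^ 2 / 2)) : ℝ)‖ ≤ ε := by
  have hB1 := hS.one_le
  have hB0 : 0 < B := lt_of_lt_of_le one_pos hS.one_le
  obtain ⟨C1, hC1, hLL⟩ := LL_Lg
  set T : ℝ := ∑' n : ℕ, 1 / ((n : ℝ) * √n) with hT
  have hT0 : 0 ≤ T := tsum_nonneg fun n => by positivity
  set K3 : ℝ := (B ^ 3 + B ^ 4) * T + K1 with hK3
  have hK30 : 0 ≤ K3 := by positivity
  set n := Fintype.card ι with hn
  -- the number of moments
  obtain ⟨m, hm1, hm2, hm3⟩ : ∃ m : ℕ, 1 ≤ m ∧ 2 * B ^ 2 * t ^ 2 * Real.exp 1 * 2 ≤ m ∧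
      4 * (1 / 2 : ℝ) ^ m ≤ ε / 5 := by
    have h1 : ∀ᶠ m : ℕ in atTop, 2 * B ^ 2 * t ^ 2 * Real.exp 1 * 2 ≤ m :=
      tendsto_natCast_atTop_atTop.eventually_ge_atTop _
    have h2 : Tendsto (fun m : ℕ => 4 * (1 / 2 : ℝ) ^ m) atTop (𝓝 (4 * 0)) :=
      (tendsto_pow_atTop_nhds_zero_of_lt_one (by norm_num) (by norm_num)).const_mul _
    rw [mul_zero] at h2
    have h3 := h2.eventually (ge_mem_nhds (show (0 : ℝ) < ε / 5 by positivity))
    obtain ⟨m, hm⟩ := ((eventually_ge_atTop 1).and (h1.and h3)).exists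
    exact ⟨m, hm.1, hm.2.1, hm.2.2⟩
  refine ⟨4 * m + 1, ?_⟩
  set Kq : ℝ := K0 + |κ| * C1 with hKq
  have hKq0 : 0 ≤ Kq := by positivity
  have hsL : Tendsto (fun y : ℕ => √(Lg y)) atTop atTop := Real.tendsto_sqrt_atTop.comp tendsto_Lg
  have hz : ∀ K : ℝ, Tendsto (fun y : ℕ => K / √(Lg y)) atTop (𝓝 0) := fun K =>
    tendsto_const_nhds.div_atTop hsL
  have hz2 : ∀ K : ℝ, Tendsto (fun y : ℕ => K / Lg y) atTop (𝓝 0) := fun K =>
    tendsto_const_nhds.div_atTop tendsto_Lg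
  have hz3 : ∀ K : ℝ, Tendsto (fun y : ℕ => K / (y : ℝ)) atTop (𝓝 0) := fun K =>
    tendsto_const_nhds.div_atTop tendsto_natCast_atTop_atTop
  have hE : (0 : ℝ) < ε / 5 := by positivity
  filter_upwards [eventually_ge_atTop 4, tendsto_Lg.eventually_ge_atTop (C1 + 1),
    (hz |t|).eventually (ge_mem_nhds (show (0 : ℝ) < 1 by norm_num)),
    (hz (|t| * Kq)).eventually (ge_mem_nhds hE), (hz2 (K3 * t ^ 2)).eventually (ge_mem_nhds hE),
    (hz2 (t ^ 2 * C1 / 2)).eventually (ge_mem_nhds hE),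
    (hz3 (4 * 2 ^ n * (4 * B) ^ (2 * m) : ℝ)).eventually (ge_mem_nhds hE)]
    with y hy4 hyL hy1 hy2 hy3 hy5 hy6 H hH
  set L := Lg y with hL
  have hL0 : 0 < L := by linarith
  set σ := √L with hσ
  have hσ0 : 0 < σ := Real.sqrt_pos.2 hL0
  have hσσ : σ ^ 2 = L := Real.sq_sqrt hL0.le
  set s : ℝ := -t / σ with hs
  have hs1 : |s| ≤ 1 := by rw [hs, abs_div, abs_neg, abs_of_pos hσ0]; exact hy1
  have hs2 : s ^ 2 = t ^ 2 / L := by rw [hs, div_pow, neg_sq, hσσ]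
  have hLLy := hLL y (by omega)
  have hLLle : LL 0 (y + 1) ≤ 2 * L := by
    have := (abs_le.mp hLLy).2
    linarith
  -- the size of the box
  have hy0 : (0 : ℝ) < y := by exact_mod_cast (by omega : 0 < y)
  have hcond : (y + 1) ^ (2 * m) ≤ 2 * H + 1 := by
    have h1 : (y + 1) ^ (2 * m) ≤ (2 * y) ^ (2 * m) := Nat.pow_le_pow_left (by omega) _
    have h2 : (2 * y) ^ (2 * m) ≤ y ^ (4 * m + 1) := by
      calc (2 * y) ^ (2 * m) ≤ (y * y) ^ (2 * m) := Nat.pow_le_pow_left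
            (Nat.mul_le_mul_right y (by omega)) _
        _ = y ^ (4 * m) := by rw [← pow_two, ← pow_mul]; ring_nf
        _ ≤ y ^ (4 * m + 1) := Nat.pow_le_pow_right (by omega) (by omega)
    omega
  have hW : B ^ 2 * LL 0 (y + 1) ≤ 2 * B ^ 2 * L := by nlinarith [sq_nonneg B]
  have hA := hS.char (x := y + 1) (H := H) (m := m) (by omega) hm1 hcond (s := s)
    (W := 2 * B ^ 2 * L) hs1 (by positivity) hW
  rw [← hn] at hA
  have hA1 : 4 * 2 ^ n * (B * ((y + 1 : ℕ) : ℝ) ^ 2) ^ (2 * m) / (2 * H + 1) ≤ ε / 5 := by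
    have h1 : (B * ((y + 1 : ℕ) : ℝ) ^ 2) ^ (2 * m) ≤ (4 * B * (y : ℝ) ^ 2) ^ (2 * m) := by
      apply pow_le_pow_left₀ (by positivity)
      have h2 : ((y + 1 : ℕ) : ℝ) ≤ 2 * y := by exact_mod_cast (by omega : y + 1 ≤ 2 * y)
      calc B * ((y + 1 : ℕ) : ℝ) ^ 2 ≤ B * (2 * y) ^ 2 := by gcongr
        _ = 4 * B * (y : ℝ) ^ 2 := by ring
    have h3 : (y : ℝ) ^ (4 * m + 1) ≤ 2 * H + 1 := by
      have : (y : ℝ) ^ (4 * m + 1) ≤ H := by exact_mod_cast hH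
      linarith
    have hpos : (0 : ℝ) < (y : ℝ) ^ (4 * m + 1) := by positivity
    calc 4 * 2 ^ n * (B * ((y + 1 : ℕ) : ℝ) ^ 2) ^ (2 * m) / (2 * H + 1)
        ≤ 4 * 2 ^ n * (4 * B * (y : ℝ) ^ 2) ^ (2 * m) / (y : ℝ) ^ (4 * m + 1) := by gcongr
      _ = (4 * 2 ^ n * (4 * B) ^ (2 * m) / (y : ℝ) : ℝ) := by
          rw [mul_pow, ← pow_mul, show 2 * (2 * m) = 4 * m by ring, pow_succ]
          field_simp
      _ ≤ ε / 5 := hy6
  have hA2 : 4 * (s ^ 2 * (2 * B ^ 2 * L) * Real.exp 1 / m) ^ m ≤ ε / 5 := by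
    refine le_trans ?_ hm3
    have hm0 : (0 : ℝ) < m := by exact_mod_cast hm1
    have h1 : s ^ 2 * (2 * B ^ 2 * L) * Real.exp 1 / m ≤ 1 / 2 := by
      rw [hs2, div_le_iff₀ hm0]
      have : t ^ 2 / L * (2 * B ^ 2 * L) = 2 * B ^ 2 * t ^ 2 := by field_simp
      rw [this]
      linarith
    gcongr
  -- the model
  have hpr : ∀ p ∈ (Ico 0 (y + 1)).filter Nat.Prime, p.Prime := fun p hp =>
    (Finset.mem_filter.mp hp).2
  have hB' : ‖phi Z (y + 1) s - (Real.exp (-(s ^ 2 * LL 0 (y + 1) / 2)) : ℝ)‖ ≤ K3 * s ^ 2 := by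
    have h1 := phiG Z (fun p => B / √p) (y + 1) (fun p hp => hS.bd p (hpr p hp))
      (fun p hp => hS.mean p (hpr p hp)) s
    have hs0 : 0 ≤ |s| := abs_nonneg s
    have hs3 : |s| ^ 3 ≤ s ^ 2 := by
      calc |s| ^ 3 = |s| * |s| ^ 2 := by ring
        _ ≤ 1 * |s| ^ 2 := by gcongr
        _ = s ^ 2 := by rw [one_mul, sq_abs]
    have hs4 : s ^ 4 ≤ s ^ 2 := by
      have : s ^ 2 ≤ 1 := by rw [← sq_abs]; exact pow_le_one₀ hs0 hs1
      nlinarith [sq_nonneg s]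
    have h2 : ∑ p ∈ (Ico 0 (y + 1)).filter Nat.Prime,
        (|s| ^ 3 * (B / √(p : ℝ)) ^ 3 + s ^ 4 * (B / √(p : ℝ)) ^ 4) ≤ (B ^ 3 + B ^ 4) * T * s ^ 2 := by
      have h3 : ∀ p ∈ (Ico 0 (y + 1)).filter Nat.Prime,
          |s| ^ 3 * (B / √(p : ℝ)) ^ 3 + s ^ 4 * (B / √(p : ℝ)) ^ 4 ≤
          (B ^ 3 + B ^ 4) * s ^ 2 * (1 / ((p : ℝ) * √p)) := by
        intro p hp
        have hpp := hpr p hp
        have hp1 : (1 : ℝ) ≤ p := by exact_mod_cast hpp.one_lt.le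
        have hsq1 : 1 ≤ √(p : ℝ) := Real.one_le_sqrt.2 hp1
        have hsq0 : 0 < √(p : ℝ) := by linarith
        have hss : √(p : ℝ) * √(p : ℝ) = p := Real.mul_self_sqrt (by linarith)
        have k1 : (B / √(p : ℝ)) ^ 3 = B ^ 3 * (1 / ((p : ℝ) * √p)) := by
          rw [div_pow, show √(p : ℝ) ^ 3 = (√(p : ℝ) * √(p : ℝ)) * √(p : ℝ) by ring, hss]
          ring
        have k2 : (B / √(p : ℝ)) ^ 4 ≤ B ^ 4 * (1 / ((p : ℝ) * √p)) := by
          have e : (B / √(p : ℝ)) ^ 4 = B ^ 4 * (1 / ((p : ℝ) * √p)) * (1 / √p) := by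
            rw [div_pow, show √(p : ℝ) ^ 4 = (√(p : ℝ) * √(p : ℝ)) * √(p : ℝ) * √(p : ℝ) by ring, hss]
            ring
          rw [e]
          apply mul_le_of_le_one_right (by positivity)
          rw [div_le_one hsq0]
          exact hsq1
        have k3 : 0 ≤ 1 / ((p : ℝ) * √p) := by positivity
        rw [k1]
        calc |s| ^ 3 * (B ^ 3 * (1 / ((p : ℝ) * √p))) + s ^ 4 * (B / √(p : ℝ)) ^ 4
            ≤ s ^ 2 * (B ^ 3 * (1 / ((p : ℝ) * √p))) + s ^ 2 * (B ^ 4 * (1 / ((p : ℝ) * √p))) := by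
              gcongr
          _ = (B ^ 3 + B ^ 4) * s ^ 2 * (1 / ((p : ℝ) * √p)) := by ring
      refine (Finset.sum_le_sum h3).trans ?_
      rw [← Finset.mul_sum]
      calc (B ^ 3 + B ^ 4) * s ^ 2 * ∑ p ∈ (Ico 0 (y + 1)).filter Nat.Prime, 1 / ((p : ℝ) * √p)
          ≤ (B ^ 3 + B ^ 4) * s ^ 2 * T := by
            gcongr
            exact summable_three.sum_le_tsum _ fun n _ => by positivity
        _ = (B ^ 3 + B ^ 4) * T * s ^ 2 := by ring
    set V := ∑ p ∈ (Ico 0 (y + 1)).filter Nat.Prime, vv Z p with hV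
    have hV0 : 0 ≤ V := Finset.sum_nonneg fun p _ => vv_nonneg Z p
    have h6 : ‖((Real.exp (-(s ^ 2 * V / 2)) : ℝ) : ℂ) -
        ((Real.exp (-(s ^ 2 * LL 0 (y + 1) / 2)) : ℝ) : ℂ)‖ ≤ K1 * s ^ 2 := by
      rw [← Complex.ofReal_sub, Complex.norm_real, Real.norm_eq_abs]
      refine (exp_neg_lip (by positivity) (by have := LL_nonneg 0 (y + 1); positivity)).trans ?_
      rw [show s ^ 2 * V / 2 - s ^ 2 * LL 0 (y + 1) / 2 = s ^ 2 / 2 * (V - LL 0 (y + 1)) by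
        ring, abs_mul, abs_of_nonneg (by positivity)]
      have h7 := hvar (y + 1)
      rw [← hV] at h7
      have h8 : 0 ≤ |V - LL 0 (y + 1)| := abs_nonneg _
      nlinarith [sq_nonneg s]
    have e : phi Z (y + 1) s - (Real.exp (-(s ^ 2 * LL 0 (y + 1) / 2)) : ℝ) =
        (phi Z (y + 1) s - ((Real.exp (-(s ^ 2 * V / 2)) : ℝ) : ℂ)) +
        (((Real.exp (-(s ^ 2 * V / 2)) : ℝ) : ℂ) -
        ((Real.exp (-(s ^ 2 * LL 0 (y + 1) / 2)) : ℝ) : ℂ)) := by ring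
    rw [e]
    refine (norm_add_le _ _).trans ((add_le_add (h1.trans h2) h6).trans (le_of_eq ?_))
    rw [hK3]
    ring
  have hB1' : K3 * s ^ 2 ≤ ε / 5 := by
    rw [hs2]
    calc K3 * (t ^ 2 / L) = K3 * t ^ 2 / L := by ring
      _ ≤ ε / 5 := hy3
  have hC' : ‖((Real.exp (-(s ^ 2 * LL 0 (y + 1) / 2)) : ℝ) : ℂ) - (Real.exp (-(t ^ 2 / 2)) : ℝ)‖ ≤
      ε / 5 := by
    rw [← Complex.ofReal_sub, Complex.norm_real, Real.norm_eq_abs]
    refine (exp_neg_lip (by have := LL_nonneg 0 (y + 1); positivity) (by positivity)).trans ?_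
    rw [hs2]
    have e : t ^ 2 / L * LL 0 (y + 1) / 2 - t ^ 2 / 2 = t ^ 2 / (2 * L) * (LL 0 (y + 1) - L) := by
      field_simp
    rw [e, abs_mul, abs_of_nonneg (by positivity)]
    calc t ^ 2 / (2 * L) * |LL 0 (y + 1) - L| ≤ t ^ 2 / (2 * L) * C1 := by gcongr
      _ = t ^ 2 * C1 / 2 / L := by field_simp
      _ ≤ ε / 5 := hy5
  -- the remainder
  have hR : ‖EBc H (fun c => Complex.exp ((t * TT Q κ y c : ℝ) * Complex.I)) -
      EBc H (fun c => Complex.exp ((s * SS Z 0 (y + 1) c : ℝ) * Complex.I))‖ ≤ ε / 5 := by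
    rw [← EBc_sub]
    refine (norm_EBc_le H _ (fun _ => |t| * Kq / σ) fun c => ?_).trans ?_
    · refine (norm_exp_sub _ _).trans ?_
      have h1 := hnear y c
      have e : t * TT Q κ y c - s * SS Z 0 (y + 1) c =
          t / σ * ((Q y c + SS Z 0 (y + 1) c - κ * LL 0 (y + 1)) +
            κ * (LL 0 (y + 1) - L)) := by
        unfold TT
        rw [← hL, ← hσ, hs]
        field_simp
        ring
      rw [e, abs_mul, abs_div, abs_of_pos hσ0]
      have h3 : |(Q y c + SS Z 0 (y + 1) c - κ * LL 0 (y + 1)) + κ * (LL 0 (y + 1) - L)| ≤ Kq := by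
        refine (abs_add_le _ _).trans (add_le_add h1 ?_)
        rw [abs_mul]
        exact mul_le_mul_of_nonneg_left hLLy (abs_nonneg _)
      calc |t| / σ * _ ≤ |t| / σ * Kq := by gcongr
        _ = |t| * Kq / σ := by ring
    · rw [EB_const]
      exact hy2
  have efin : EBc H (fun c => Complex.exp ((t * TT Q κ y c : ℝ) * Complex.I)) -
        (Real.exp (-(t ^ 2 / 2)) : ℝ) =
      (EBc H (fun c => Complex.exp ((t * TT Q κ y c : ℝ) * Complex.I)) -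
        EBc H (fun c => Complex.exp ((s * SS Z 0 (y + 1) c : ℝ) * Complex.I))) +
      (EBc H (fun c => Complex.exp ((s * SS Z 0 (y + 1) c : ℝ) * Complex.I)) -
        phi Z (y + 1) s) +
      (phi Z (y + 1) s - (Real.exp (-(s ^ 2 * LL 0 (y + 1) / 2)) : ℝ)) +
      (((Real.exp (-(s ^ 2 * LL 0 (y + 1) / 2)) : ℝ) : ℂ) - (Real.exp (-(t ^ 2 / 2)) : ℝ)) := by
    ring
  rw [efin]
  refine (norm_add_le _ _).trans ?_
  have h7 := (norm_add_le (EBc H (fun c => Complex.exp ((t * TT Q κ y c : ℝ) * Complex.I)) -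
        EBc H (fun c => Complex.exp ((s * SS Z 0 (y + 1) c : ℝ) * Complex.I)) +
      (EBc H (fun c => Complex.exp ((s * SS Z 0 (y + 1) c : ℝ) * Complex.I)) -
        phi Z (y + 1) s))
      (phi Z (y + 1) s - (Real.exp (-(s ^ 2 * LL 0 (y + 1) / 2)) : ℝ)))
  have h8 := norm_add_le (EBc H (fun c => Complex.exp ((t * TT Q κ y c : ℝ) * Complex.I)) -
        EBc H (fun c => Complex.exp ((s * SS Z 0 (y + 1) c : ℝ) * Complex.I)))
      (EBc H (fun c => Complex.exp ((s * SS Z 0 (y + 1) c : ℝ) * Complex.I)) -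
        phi Z (y + 1) s)
  linarith

/-- **The normal law.** -/
theorem gauss_abs (hS : Sys Z B) (κ K0 K1 : ℝ) (hK0 : 0 ≤ K0) (hK1 : 0 ≤ K1)
    (Q : ℕ → (ι → ℤ) → ℝ)
    (hnear : ∀ (y : ℕ) (c : ι → ℤ), |Q y c + SS Z 0 (y + 1) c - κ * LL 0 (y + 1)| ≤ K0)
    (hvar : ∀ x : ℕ, |∑ p ∈ (Ico 0 x).filter Nat.Prime, vv Z p - LL 0 x| ≤ K1)
    (u : ℝ) {ε : ℝ} (hε : 0 < ε) :
    ∃ k y0 : ℕ, ∀ y H : ℕ, y0 ≤ y → y ^ k ≤ H →
      |(law H (TT Q κ y)).real (Set.Iic u) - (gaussianReal 0 1).real (Set.Iic u)| ≤ ε := by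
  refine law_of_char (TT Q κ) (gaussianReal 0 1) (fun t ε hε => ?_) u ?_ hε
  · rw [charFun_gaussianReal]
    have e : Complex.exp ((t : ℂ) * ((0 : ℝ) : ℂ) * Complex.I - (((1 : NNReal) : ℝ) : ℂ) * t ^ 2 / 2) =
        ((Real.exp (-(t ^ 2 / 2)) : ℝ) : ℂ) := by
      push_cast
      congr 1
      ring
    rw [e]
    exact clt_abs hS κ K0 K1 hK0 hK1 Q hnear hvar t hε
  · have := nullSingletonClass_gaussianReal (μ := 0) (v := 1) one_ne_zero
    exact measure_singleton u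

end Pool.Agent.X280.BP
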