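import Pool.Agent.Y722.HS.Box

/-!
# Averages over boxes of products of functions modulo primes
-/

set_option autoImplicit false

namespace Pool.Agent.X280.BP

open Finset Filter Topology Pool.Agent.Y722.HS

variable {ι : Type} [Fintype ι] [DecidableEq ι]

theorem EB_sub (H : ℕ) (f g : (ι → ℤ) → ℝ) : EB H (fun c => f c - g c) = EB H f - EB H g := by
  unfold EB
  rw [Finset.sum_sub_distrib, sub_div]

theorem EB_sum {κ : Type*} (s : Finset κ) (H : ℕ) (f : κ → (ι → ℤ) → ℝ) :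
    EB H (fun c => ∑ i ∈ s, f i c) = ∑ i ∈ s, EB H (f i) := by
  unfold EB
  rw [Finset.sum_comm, Finset.sum_div]

theorem EB_mono (H : ℕ) (f g : (ι → ℤ) → ℝ) (h : ∀ c, f c ≤ g c) : EB H f ≤ EB H g := by
  unfold EB
  gcongr
  exact h _

theorem EB_mul_left (H : ℕ) (t : ℝ) (f : (ι → ℤ) → ℝ) :
    EB H (fun c => t * f c) = t * EB H f := by
  unfold EB
  rw [← Finset.mul_sum, mul_div_assoc]

theorem EB_nonneg (H : ℕ) (f : (ι → ℤ) → ℝ) (h : ∀ c, 0 ≤ f c) : 0 ≤ EB H f := by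
  unfold EB
  exact div_nonneg (Finset.sum_nonneg fun c _ => h c) (by positivity)

theorem card_IH (H : ℕ) : (IH H).card = 2 * H + 1 := by
  unfold IH
  rw [Int.card_Icc]
  omega

theorem card_box (H : ℕ) : ((Pool.Agent.Y722.HS.box ι H).card : ℝ) = (2 * H + 1 : ℝ) ^ Fintype.card ι := by
  unfold Pool.Agent.Y722.HS.box
  rw [Fintype.card_piFinset, Finset.prod_const, card_IH, Finset.card_univ]
  push_cast
  rfl

theorem EB_one_fun (H : ℕ) : EB H (fun _ : ι → ℤ => (1 : ℝ)) = 1 := by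
  unfold EB
  rw [Finset.sum_const, nsmul_eq_mul, mul_one, card_box, div_self (by positivity)]

theorem EM_le_of_le (M : ℕ) [NeZero M] (f : (ι → ZMod M) → ℝ) (b : ℝ) (h : ∀ c, f c ≤ b) :
    EM M f ≤ b := by
  unfold EM
  have hM : (0 : ℝ) < M := by exact_mod_cast Nat.pos_of_ne_zero (NeZero.ne M)
  rw [div_le_iff₀ (by positivity)]
  calc ∑ c, f c ≤ ∑ _c : ι → ZMod M, b := Finset.sum_le_sum fun c _ => h c
    _ = b * (M : ℝ) ^ Fintype.card ι := by
      rw [Finset.sum_const, nsmul_eq_mul, Finset.card_univ, Fintype.card_fun, ZMod.card]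
      push_cast
      ring

theorem EM_one1 : EM 1 (fun _ : ι → ZMod 1 => (1 : ℝ)) = 1 := by
  unfold EM
  simp

/-- One modulus. -/
theorem EB_one_mod (H M : ℕ) [NeZero M] (hM : M ≤ 2 * H + 1) (f : (ι → ZMod M) → ℝ) :
    |EB H (fun c => f (red M c)) - EM M f| ≤
      2 ^ Fintype.card ι * ((M : ℝ) / (2 * H + 1)) * EM M (fun r => |f r|) := by
  have h := EB_two H M 1 (Nat.coprime_one_right M) (by simpa using hM) f (fun _ => (1 : ℝ))
  simp only [mul_one, Nat.cast_one, abs_one] at h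
  rw [EM_one1] at h
  simpa using h

theorem EB_one_mod' (H M : ℕ) [NeZero M] (hM : M ≤ 2 * H + 1) (f : (ι → ZMod M) → ℝ) (b : ℝ)
    (hb : ∀ c, |f c| ≤ b) :
    |EB H (fun c => f (red M c)) - EM M f| ≤
      2 ^ Fintype.card ι * ((M : ℝ) / (2 * H + 1)) * b := by
  refine (EB_one_mod H M hM f).trans ?_
  refine mul_le_mul_of_nonneg_left (EM_le_of_le M _ b hb) (by positivity)

/-- A product of functions modulo numbers depends on the vector modulo their product. -/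
theorem EB_tuple {k : ℕ} (v : Fin k → ℕ) (hv : ∀ i, v i ≠ 0) (Z : ∀ p : ℕ, (ι → ZMod p) → ℝ)
    (b : ℕ → ℝ) (hb : ∀ i, ∀ c, |Z (v i) c| ≤ b (v i)) (H H' : ℕ)
    (hH : ∏ i, v i ≤ 2 * H + 1) (hH' : ∏ i, v i ≤ 2 * H' + 1) :
    |EB H (fun c => ∏ i, Z (v i) (red (v i) c)) - EB H' (fun c => ∏ i, Z (v i) (red (v i) c))| ≤
      2 ^ Fintype.card ι * (((∏ i, v i : ℕ) : ℝ) / (2 * H + 1) + ((∏ i, v i : ℕ) : ℝ) / (2 * H' + 1)) *
        ∏ i, b (v i) := by
  set M := ∏ i, v i with hMdef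
  have hM0 : M ≠ 0 := Finset.prod_ne_zero_iff.mpr fun i _ => hv i
  have : NeZero M := ⟨hM0⟩
  set F : (ι → ZMod M) → ℝ := fun r => ∏ i, Z (v i) (fun j => ((r j).cast : ZMod (v i))) with hF
  have h1 : ∀ c : ι → ℤ, ∏ i, Z (v i) (red (v i) c) = F (red M c) := by
    intro c
    rw [hF]
    refine Finset.prod_congr rfl fun i _ => ?_
    congr 1
    funext j
    unfold red
    have hd : v i ∣ M := Finset.dvd_prod_of_mem v (Finset.mem_univ i)
    rw [ZMod.cast_intCast hd]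
  have h2 : ∀ r, |F r| ≤ ∏ i, b (v i) := by
    intro r
    rw [hF]
    simp only
    rw [Finset.abs_prod]
    exact Finset.prod_le_prod (fun i _ => abs_nonneg _) fun i _ => hb i _
  simp only [h1]
  have h3 := EB_one_mod' H M hH F _ h2
  have h4 := EB_one_mod' H' M hH' F _ h2
  have h5 : |EB H (fun c => F (red M c)) - EB H' (fun c => F (red M c))| ≤
      |EB H (fun c => F (red M c)) - EM M F| + |EB H' (fun c => F (red M c)) - EM M F| := by
    rw [abs_sub_comm (EB H' _) (EM M F)]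
    exact abs_sub_le _ _ _
  refine h5.trans ((add_le_add h3 h4).trans (le_of_eq ?_))
  ring

/-- **The moments over two boxes.** -/
theorem mom_diff (I : Finset ℕ) (x : ℕ) (hI : ∀ p ∈ I, p ≠ 0 ∧ p ≤ x)
    (Z : ∀ p : ℕ, (ι → ZMod p) → ℝ) (b : ℕ → ℝ) (hb : ∀ p ∈ I, ∀ c, |Z p c| ≤ b p) (k H H' : ℕ)
    (hH : x ^ k ≤ 2 * H + 1) (hH' : x ^ k ≤ 2 * H' + 1) :
    |EB H (fun c => (∑ p ∈ I, Z p (red p c)) ^ k) - EB H' (fun c => (∑ p ∈ I, Z p (red p c)) ^ k)| ≤
      2 ^ Fintype.card ι * ((x : ℝ) ^ k / (2 * H + 1) + (x : ℝ) ^ k / (2 * H' + 1)) *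
        (∑ p ∈ I, b p) ^ k := by
  have key : ∀ (g : ℕ → ℝ), (∑ p ∈ I, g p) ^ k =
      ∑ v ∈ Fintype.piFinset (fun _ : Fin k => I), ∏ i, g (v i) := by
    intro g
    rw [← Finset.prod_univ_sum]
    simp
  have e : ∀ K : ℕ, EB K (fun c => (∑ p ∈ I, Z p (red p c)) ^ k) =
      ∑ v ∈ Fintype.piFinset (fun _ : Fin k => I),
        EB K (fun c => ∏ i, Z (v i) (red (v i) c)) := by
    intro K
    rw [← EB_sum]
    congr 1
    funext c
    exact key fun p => Z p (red p c)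
  rw [e H, e H', ← Finset.sum_sub_distrib, key b, Finset.mul_sum]
  refine (Finset.abs_sum_le_sum_abs _ _).trans (Finset.sum_le_sum fun v hv => ?_)
  rw [Fintype.mem_piFinset] at hv
  have hle : ∏ i, v i ≤ x ^ k := by
    calc ∏ i, v i ≤ ∏ _i : Fin k, x := Finset.prod_le_prod' fun i _ => (hI _ (hv i)).2
      _ = x ^ k := by simp
  refine (EB_tuple v (fun i => (hI _ (hv i)).1) Z b (fun i => hb _ (hv i)) H H' (hle.trans hH)
    (hle.trans hH')).trans ?_
  have hb0 : 0 ≤ ∏ i, b (v i) :=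
    Finset.prod_nonneg fun i _ => (abs_nonneg _).trans (hb _ (hv i) (fun _ => 0))
  have hle' : ((∏ i, v i : ℕ) : ℝ) ≤ (x : ℝ) ^ k := by exact_mod_cast hle
  gcongr

end Pool.Agent.X280.BP
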