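import Pool.Agent.X280.BP.Mom

/-!
# A maximal inequality for fourth moments
-/

set_option autoImplicit false

namespace Pool.Agent.X280.BP

open Finset Filter Topology Pool.Agent.Y722.HS

variable {ι : Type} [Fintype ι] [DecidableEq ι]

theorem four_ineq (u v : ℝ) : (u + v) ^ 4 ≤ 3 / 2 * v ^ 4 + 729 * u ^ 4 := by
  have h1 : (u + v) ^ 2 ≤ 9 / 8 * v ^ 2 + 9 * u ^ 2 := by nlinarith [sq_nonneg (v - 8 * u)]
  have h2 : (u + v) ^ 4 ≤ (9 / 8 * v ^ 2 + 9 * u ^ 2) ^ 2 := by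
    have : (u + v) ^ 4 = ((u + v) ^ 2) ^ 2 := by ring
    rw [this]
    exact pow_le_pow_left₀ (sq_nonneg _) h1 2
  have h3 : (9 / 8 * v ^ 2 + 9 * u ^ 2) ^ 2 ≤ 9 / 8 * (9 / 8 * v ^ 2) ^ 2 + 9 * (9 * u ^ 2) ^ 2 := by
    nlinarith [sq_nonneg (9 / 8 * v ^ 2 - 8 * (9 * u ^ 2))]
  have h4 : 9 / 8 * (9 / 8 * v ^ 2) ^ 2 ≤ 3 / 2 * v ^ 4 := by nlinarith [sq_nonneg (v ^ 2)]
  have h5 : 9 * (9 * u ^ 2) ^ 2 = 729 * u ^ 4 := by ring
  linarith

theorem exists_split (w : ℕ → ℝ) (hw : ∀ i, 0 ≤ w i) (a b : ℕ) (hab : a < b) :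
    ∃ h, a ≤ h ∧ h < b ∧ 2 * ∑ i ∈ Ico a h, w i ≤ ∑ i ∈ Ico a b, w i ∧
      2 * ∑ i ∈ Ico (h + 1) b, w i ≤ ∑ i ∈ Ico a b, w i := by
  classical
  have hW0 : 0 ≤ ∑ i ∈ Ico a b, w i := Finset.sum_nonneg fun i _ => hw i
  have hex : ∃ h, a ≤ h ∧ ∑ i ∈ Ico a b, w i ≤ 2 * ∑ i ∈ Ico a (h + 1), w i := by
    refine ⟨b - 1, by omega, ?_⟩
    rw [Nat.sub_add_cancel (by omega)]
    linarith
  set h := Nat.find hex with hh
  obtain ⟨h1, h2⟩ := Nat.find_spec hex
  have hlt : h ≤ b - 1 := by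
    refine Nat.find_min' hex ⟨by omega, ?_⟩
    rw [Nat.sub_add_cancel (by omega)]
    linarith
  refine ⟨h, h1, by omega, ?_, ?_⟩
  · rcases Nat.eq_or_lt_of_le h1 with he | hl
    · rw [← hh] at he
      rw [← he]
      simpa using hW0
    · have h3 := Nat.find_min hex (m := h - 1) (by omega)
      rw [not_and, not_le, Nat.sub_add_cancel (by omega)] at h3
      exact (h3 (by omega)).le
  · have h4 := Finset.sum_Ico_consecutive w (show a ≤ h + 1 by omega) (show h + 1 ≤ b by omega)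
    linarith

/-- **The maximal inequality.** -/
theorem chain (H : ℕ) (X : ℕ → (ι → ℤ) → ℝ) (w : ℕ → ℝ) (hw : ∀ i, 0 ≤ w i) (A : ℝ) (hA : 0 ≤ A)
    (b0 : ℕ) (h4 : ∀ a b, a ≤ b → b ≤ b0 → EB H (fun c => (∑ i ∈ Ico a b, X i c) ^ 4) ≤
      A * (∑ i ∈ Ico a b, w i) ^ 2) :
    ∀ n a b, a ≤ b → b ≤ b0 → b - a ≤ n → ∃ M : (ι → ℤ) → ℝ,
      EB H M ≤ 2916 * A * (∑ i ∈ Ico a b, w i) ^ 2 ∧
      ∀ c t, a ≤ t → t ≤ b → (∑ i ∈ Ico a t, X i c) ^ 4 ≤ M c := by
  intro n
  induction n with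
  | zero =>
    intro a b hab _ hn
    have he : a = b := by omega
    subst he
    refine ⟨fun _ => 0, ?_, ?_⟩
    · have : EB H (fun _ : ι → ℤ => (0 : ℝ)) = 0 := by simp [EB]
      rw [this]
      positivity
    · intro c t h1 h2
      have : t = a := by omega
      subst this
      simp
  | succ n ih =>
    intro a b hab hb hn
    rcases Nat.eq_or_lt_of_le hab with he | hlt
    · subst he
      obtain ⟨M, h1, h2⟩ := ih a a le_rfl hb (by omega)
      exact ⟨M, h1, h2⟩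
    · obtain ⟨h, h1, h2, h3, h5⟩ := exists_split w hw a b hlt
      obtain ⟨ML, hL1, hL2⟩ := ih a h h1 (by omega) (by omega)
      obtain ⟨MR, hR1, hR2⟩ := ih (h + 1) b (by omega) hb (by omega)
      have hL0 : ∀ c, 0 ≤ ML c := fun c => by
        have := hL2 c a le_rfl h1
        simpa using this
      have hR0 : ∀ c, 0 ≤ MR c := fun c => by
        have := hR2 c (h + 1) le_rfl (by omega)
        simpa using this
      set W := ∑ i ∈ Ico a b, w i with hW
      have hW0 : 0 ≤ W := Finset.sum_nonneg fun i _ => hw i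
      refine ⟨fun c => 3 / 2 * (ML c + MR c) + 729 * (∑ i ∈ Ico a (h + 1), X i c) ^ 4, ?_, ?_⟩
      · have e : EB H (fun c => 3 / 2 * (ML c + MR c) + 729 * (∑ i ∈ Ico a (h + 1), X i c) ^ 4) =
            3 / 2 * (EB H ML + EB H MR) +
              729 * EB H (fun c => (∑ i ∈ Ico a (h + 1), X i c) ^ 4) := by
          unfold EB
          rw [Finset.sum_add_distrib, ← Finset.mul_sum, ← Finset.mul_sum, Finset.sum_add_distrib]
          ring
        rw [e]
        have k1 := h4 a (h + 1) (by omega) (by omega)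
        have k2 : (∑ i ∈ Ico a (h + 1), w i) ^ 2 ≤ W ^ 2 := by
          refine pow_le_pow_left₀ (Finset.sum_nonneg fun i _ => hw i) ?_ 2
          exact Finset.sum_le_sum_of_subset_of_nonneg (Finset.Ico_subset_Ico_right (by omega))
            fun i _ _ => hw i
        have k3 : (∑ i ∈ Ico a h, w i) ^ 2 ≤ W ^ 2 / 4 := by
          have : (∑ i ∈ Ico a h, w i) ^ 2 ≤ (W / 2) ^ 2 :=
            pow_le_pow_left₀ (Finset.sum_nonneg fun i _ => hw i) (by linarith) 2
          linarith [this, show (W / 2) ^ 2 = W ^ 2 / 4 by ring]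
        have k4 : (∑ i ∈ Ico (h + 1) b, w i) ^ 2 ≤ W ^ 2 / 4 := by
          have : (∑ i ∈ Ico (h + 1) b, w i) ^ 2 ≤ (W / 2) ^ 2 :=
            pow_le_pow_left₀ (Finset.sum_nonneg fun i _ => hw i) (by linarith) 2
          linarith [this, show (W / 2) ^ 2 = W ^ 2 / 4 by ring]
        have k5 := mul_le_mul_of_nonneg_left k2 hA
        have k6 := mul_le_mul_of_nonneg_left k3 (show 0 ≤ 2916 * A by positivity)
        have k7 := mul_le_mul_of_nonneg_left k4 (show 0 ≤ 2916 * A by positivity)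
        nlinarith
      · intro c t ht1 ht2
        have hS0 : 0 ≤ (∑ i ∈ Ico a (h + 1), X i c) ^ 4 := by positivity
        rcases Nat.lt_or_ge h t with hl | hl
        · have e : ∑ i ∈ Ico a t, X i c = ∑ i ∈ Ico a (h + 1), X i c + ∑ i ∈ Ico (h + 1) t, X i c :=
            (Finset.sum_Ico_consecutive (fun i => X i c) (by omega) (by omega)).symm
          rw [e]
          refine (four_ineq _ _).trans ?_
          have := hR2 c t (by omega) ht2
          have := hL0 c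
          linarith
        · have := hL2 c t ht1 hl
          have := hR0 c
          have := hL0 c
          linarith

end Pool.Agent.X280.BP
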