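import Pool.Agent.X280.BP.Taylor

/-!
# The characteristic functions
-/

set_option autoImplicit false

namespace Pool.Agent.X280.BP

open Finset Filter Topology Pool.Agent.Y722.HS

variable {ι : Type} [Fintype ι] [DecidableEq ι]

theorem EBc_sub (H : ℕ) (f g : (ι → ℤ) → ℂ) : EBc H (fun c => f c - g c) = EBc H f - EBc H g := by
  unfold EBc
  rw [Finset.sum_sub_distrib, sub_div]

theorem norm_EBc_le (H : ℕ) (f : (ι → ℤ) → ℂ) (g : (ι → ℤ) → ℝ) (h : ∀ c, ‖f c‖ ≤ g c) :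
    ‖EBc H f‖ ≤ EB H g := by
  unfold EBc EB
  have hpos : (0 : ℝ) < (2 * H + 1 : ℝ) ^ Fintype.card ι := by positivity
  rw [norm_div, Complex.norm_real, Real.norm_eq_abs, abs_of_pos hpos]
  gcongr
  exact (norm_sum_le _ _).trans (Finset.sum_le_sum fun c _ => h c)

theorem EB_const (H : ℕ) (t : ℝ) : EB H (fun _ : ι → ℤ => t) = t := by
  have h := EB_mul_left (ι := ι) H t (fun _ => 1)
  rw [EB_one_fun] at h
  simpa using h

theorem EBc_mul (H : ℕ) (t : ℂ) (f : (ι → ℤ) → ℂ) : EBc H (fun c => t * f c) = t * EBc H f := by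
  unfold EBc
  rw [← Finset.mul_sum, mul_div_assoc]

theorem EBc_sum {κ : Type*} (s : Finset κ) (H : ℕ) (f : κ → (ι → ℤ) → ℂ) :
    EBc H (fun c => ∑ i ∈ s, f i c) = ∑ i ∈ s, EBc H (f i) := by
  unfold EBc
  rw [Finset.sum_comm, Finset.sum_div]

/-- Expansion of the characteristic function in moments. -/
theorem char_moments (H m : ℕ) (S : (ι → ℤ) → ℝ) (s : ℝ) :
    ‖EBc H (fun c => Complex.exp ((s * S c : ℝ) * Complex.I)) -
      ∑ j ∈ range (2 * m), ((s : ℂ) * Complex.I) ^ j / (j.factorial : ℂ) * (EB H (fun c => S c ^ j) : ℝ)‖ ≤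
      |s| ^ (2 * m) / ((2 * m).factorial : ℝ) * EB H (fun c => S c ^ (2 * m)) := by
  have e1 : ∑ j ∈ range (2 * m), ((s : ℂ) * Complex.I) ^ j / (j.factorial : ℂ) *
      (EB H (fun c => S c ^ j) : ℝ) =
      EBc H (fun c => ∑ j ∈ range (2 * m), (((s * S c : ℝ) : ℂ) * Complex.I) ^ j / (j.factorial : ℂ)) := by
    rw [EBc_sum]
    refine Finset.sum_congr rfl fun j _ => ?_
    rw [← EBc_ofReal, ← EBc_mul]
    congr 1
    funext c
    push_cast
    ring
  rw [e1, ← EBc_sub]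
  have e2 : |s| ^ (2 * m) / ((2 * m).factorial : ℝ) * EB H (fun c => S c ^ (2 * m)) =
      EB H (fun c => |s * S c| ^ (2 * m) / ((2 * m).factorial : ℝ)) := by
    rw [← EB_mul_left]
    congr 1
    funext c
    rw [abs_mul, mul_pow, pow_mul |S c|, sq_abs, ← pow_mul]
    ring
  rw [e2]
  exact norm_EBc_le H _ _ fun c => rem_le (2 * m) (s * S c)

variable {Z : ∀ p : ℕ, (ι → ZMod p) → ℝ} {B : ℝ}

/-- The model characteristic function. -/
noncomputable def phi (Z : ∀ p : ℕ, (ι → ZMod p) → ℝ) (x : ℕ) (s : ℝ) : ℂ :=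
  ∏ p ∈ (Ico 0 x).filter Nat.Prime, Ep p (fun c => Complex.exp ((s * Z p c : ℝ) * Complex.I))

theorem lim_char (Z : ∀ p : ℕ, (ι → ZMod p) → ℝ) (x : ℕ) (s : ℝ) :
    Tendsto (fun H => EBc H (fun c => Complex.exp ((s * SS Z 0 x c : ℝ) * Complex.I))) atTop
      (𝓝 (phi Z x s)) := by
  have h := lim_prod_c ((Ico 0 x).filter Nat.Prime) (fun p hp => (Finset.mem_filter.mp hp).2)
    fun p c => Complex.exp ((s * Z p c : ℝ) * Complex.I)
  refine h.congr fun H => ?_
  congr 1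
  funext c
  rw [← Complex.exp_sum]
  congr 1
  unfold SS
  rw [Finset.mul_sum]
  push_cast
  rw [Finset.sum_mul]

/-- **Comparison with the model.** -/
theorem Sys.char (h : Sys Z B) {x H m : ℕ} (hx1 : 1 ≤ x) (hm : 1 ≤ m) (hH : x ^ (2 * m) ≤ 2 * H + 1)
    {s W : ℝ} (hs : |s| ≤ 1) (hW0 : 0 < W) (hW : B ^ 2 * LL 0 x ≤ W) :
    ‖EBc H (fun c => Complex.exp ((s * SS Z 0 x c : ℝ) * Complex.I)) - phi Z x s‖ ≤
      4 * 2 ^ Fintype.card ι * (B * x ^ 2) ^ (2 * m) / (2 * H + 1) +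
      4 * (s ^ 2 * W * Real.exp 1 / m) ^ m := by
  classical
  have hB0 : 0 < B := lt_of_lt_of_le one_pos h.one_le
  have hB1 := h.one_le
  have hxR : (1 : ℝ) ≤ x := by exact_mod_cast hx1
  set I := (Ico 0 x).filter Nat.Prime with hI
  set n := Fintype.card ι with hn
  set S : (ι → ℤ) → ℝ := fun c => SS Z 0 x c with hS
  have hIp : ∀ p ∈ I, p.Prime ∧ p ≤ x := fun p hp => by
    rw [hI, Finset.mem_filter, Finset.mem_Ico] at hp
    exact ⟨hp.2, by omega⟩
  have hb : ∀ p ∈ I, ∀ c, |Z p c| ≤ B / √p := fun p hp => h.bd p (hIp p hp).1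
  have hsum : ∑ p ∈ I, B / √(p : ℝ) ≤ B * x := by
    calc ∑ p ∈ I, B / √(p : ℝ) ≤ ∑ p ∈ I, B := by
          refine Finset.sum_le_sum fun p hp => ?_
          have : 1 ≤ √(p : ℝ) := Real.one_le_sqrt.2 (by exact_mod_cast (hIp p hp).1.one_lt.le)
          exact div_le_self hB0.le this
      _ = I.card * B := by rw [Finset.sum_const, nsmul_eq_mul]
      _ ≤ x * B := by
          have hc : I.card ≤ x := by
            calc I.card ≤ (Ico 0 x).card := Finset.card_filter_le _ _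
              _ = x := by simp
          have : (I.card : ℝ) ≤ x := by exact_mod_cast hc
          gcongr
      _ = B * x := by ring
  have hsum0 : 0 ≤ ∑ p ∈ I, B / √(p : ℝ) := Finset.sum_nonneg fun p _ => by positivity
  set q : ℝ := B * x ^ 2 with hq
  have hq1 : 1 ≤ q := by
    rw [hq]
    have : (1 : ℝ) ≤ (x : ℝ) ^ 2 := one_le_pow₀ hxR
    nlinarith
  have hxs : ∀ j : ℕ, (x : ℝ) ^ j * (∑ p ∈ I, B / √(p : ℝ)) ^ j ≤ q ^ j := by
    intro j
    rw [← mul_pow]
    apply pow_le_pow_left₀ (by positivity)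
    calc (x : ℝ) * ∑ p ∈ I, B / √(p : ℝ) ≤ x * (B * x) := by gcongr
      _ = q := by rw [hq]; ring
  have hqj : ∀ j : ℕ, j ≤ 2 * m → q ^ j ≤ q ^ (2 * m) := fun j hj => pow_le_pow_right₀ hq1 hj
  -- the moments over the two boxes
  have hdiff : ∀ H' : ℕ, x ^ (2 * m) ≤ 2 * H' + 1 → ∀ j : ℕ, j ≤ 2 * m →
      |EB H (fun c => S c ^ j) - EB H' (fun c => S c ^ j)| ≤
        2 ^ n * q ^ (2 * m) * (1 / (2 * H + 1) + 1 / (2 * H' + 1)) := by
    intro H' hH' j hj
    have hxj : x ^ j ≤ x ^ (2 * m) := Nat.pow_le_pow_right hx1 hj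
    have h1 := mom_diff I x (fun p hp => ⟨(hIp p hp).1.ne_zero, (hIp p hp).2⟩) Z
      (fun p => B / √p) hb j H H' (hxj.trans hH) (hxj.trans hH')
    refine h1.trans ?_
    rw [← hn]
    calc 2 ^ n * ((x : ℝ) ^ j / (2 * H + 1) + (x : ℝ) ^ j / (2 * H' + 1)) *
          (∑ p ∈ I, B / √(p : ℝ)) ^ j
        = 2 ^ n * ((x : ℝ) ^ j * (∑ p ∈ I, B / √(p : ℝ)) ^ j) *
          (1 / (2 * H + 1) + 1 / (2 * H' + 1)) := by ring
      _ ≤ 2 ^ n * q ^ (2 * m) * (1 / (2 * H + 1) + 1 / (2 * H' + 1)) := by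
          gcongr
          exact (hxs j).trans (hqj j hj)
  -- the even moment
  set l : ℝ := Real.sqrt (m / W) with hl
  have hm0 : (0 : ℝ) < m := by exact_mod_cast hm
  have hl0 : 0 < l := Real.sqrt_pos.2 (by positivity)
  have hl2 : l ^ 2 = m / W := Real.sq_sqrt (by positivity)
  have hl2m : l ^ (2 * m) = (m / W) ^ m := by rw [pow_mul, hl2]
  have heven : ∀ H' : ℕ, x ^ (2 * m) ≤ 2 * H' + 1 → EB H' (fun c => S c ^ (2 * m)) ≤
      ((2 * m).factorial : ℝ) * (2 * (W * Real.exp 1 / m) ^ m) +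
        2 ^ n * q ^ (2 * m) * (1 / (2 * H' + 1)) := by
    intro H' hH'
    have h1 := mom_even I x hIp Z (fun p => B / √p) hb (fun p hp => h.mean p (hIp p hp).1) W (by
      refine le_trans (le_of_eq ?_) hW
      unfold LL
      rw [Finset.mul_sum]
      refine Finset.sum_congr rfl fun p _ => ?_
      rw [div_pow, Real.sq_sqrt (by positivity)]
      ring) l hl0 m H' hH'
    refine h1.trans (add_le_add (le_of_eq ?_) ?_)
    · rw [hl2, hl2m, show (m : ℝ) / W * W = m by field_simp]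
      have : Real.exp (m : ℝ) = Real.exp 1 ^ m := by rw [← Real.exp_nat_mul, mul_one]
      rw [this, div_pow, div_pow, mul_pow]
      field_simp
    · rw [← hn]
      calc 2 ^ n * ((x : ℝ) ^ (2 * m) / (2 * H' + 1)) * (∑ p ∈ I, B / √(p : ℝ)) ^ (2 * m)
          = 2 ^ n * ((x : ℝ) ^ (2 * m) * (∑ p ∈ I, B / √(p : ℝ)) ^ (2 * m)) * (1 / (2 * H' + 1)) := by
            ring
        _ ≤ 2 ^ n * q ^ (2 * m) * (1 / (2 * H' + 1)) := by
            gcongr
            exact hxs (2 * m)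
  -- comparison of the two boxes
  have hcmp : ∀ H' : ℕ, x ^ (2 * m) ≤ 2 * H' + 1 →
      ‖EBc H (fun c => Complex.exp ((s * S c : ℝ) * Complex.I)) -
        EBc H' (fun c => Complex.exp ((s * S c : ℝ) * Complex.I))‖ ≤
      4 * 2 ^ n * q ^ (2 * m) * (1 / (2 * H + 1) + 1 / (2 * H' + 1)) +
        4 * (s ^ 2 * W * Real.exp 1 / m) ^ m := by
    intro H' hH'
    have h1 := char_moments H m S s
    have h2 := char_moments H' m S s
    set P := ∑ j ∈ range (2 * m), ((s : ℂ) * Complex.I) ^ j / (j.factorial : ℂ) *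
      (EB H (fun c => S c ^ j) : ℝ) with hP
    set P' := ∑ j ∈ range (2 * m), ((s : ℂ) * Complex.I) ^ j / (j.factorial : ℂ) *
      (EB H' (fun c => S c ^ j) : ℝ) with hP'
    set D := 2 ^ n * q ^ (2 * m) * (1 / (2 * (H : ℝ) + 1) + 1 / (2 * (H' : ℝ) + 1)) with hD
    have hD0 : 0 ≤ D := by positivity
    have h3 : ‖P - P'‖ ≤ Real.exp 1 * D := by
      rw [hP, hP', ← Finset.sum_sub_distrib]
      refine (norm_sum_le _ _).trans ?_
      have h4 : ∀ j ∈ range (2 * m), ‖((s : ℂ) * Complex.I) ^ j / (j.factorial : ℂ) *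
          (EB H (fun c => S c ^ j) : ℝ) - ((s : ℂ) * Complex.I) ^ j / (j.factorial : ℂ) *
          (EB H' (fun c => S c ^ j) : ℝ)‖ ≤ 1 ^ j / (j.factorial : ℝ) * D := by
        intro j hj
        rw [Finset.mem_range] at hj
        rw [← mul_sub, ← Complex.ofReal_sub, norm_mul, norm_div, norm_pow, norm_mul,
          Complex.norm_I, mul_one, Complex.norm_real, Complex.norm_real, Complex.norm_natCast,
          Real.norm_eq_abs, Real.norm_eq_abs]
        gcongr
        exact hdiff H' hH' j hj.le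
      refine (Finset.sum_le_sum h4).trans ?_
      rw [← Finset.sum_mul]
      refine mul_le_mul_of_nonneg_right ?_ hD0
      exact Real.sum_le_exp_of_nonneg (by norm_num) (2 * m)
    have hfac : (0 : ℝ) < ((2 * m).factorial : ℝ) := by exact_mod_cast Nat.factorial_pos _
    have hs2m : |s| ^ (2 * m) = (s ^ 2) ^ m := by rw [pow_mul, sq_abs]
    have hs1 : |s| ^ (2 * m) ≤ 1 := pow_le_one₀ (abs_nonneg _) hs
    have hfac1 : (1 : ℝ) ≤ ((2 * m).factorial : ℝ) := by exact_mod_cast Nat.factorial_pos (2 * m)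
    have hrem : ∀ K : ℕ, x ^ (2 * m) ≤ 2 * K + 1 →
        |s| ^ (2 * m) / ((2 * m).factorial : ℝ) * EB K (fun c => S c ^ (2 * m)) ≤
        2 * (s ^ 2 * W * Real.exp 1 / m) ^ m + 2 ^ n * q ^ (2 * m) * (1 / (2 * K + 1)) := by
      intro K hK
      have h5 := heven K hK
      calc |s| ^ (2 * m) / ((2 * m).factorial : ℝ) * EB K (fun c => S c ^ (2 * m))
          ≤ |s| ^ (2 * m) / ((2 * m).factorial : ℝ) * (((2 * m).factorial : ℝ) *
            (2 * (W * Real.exp 1 / m) ^ m) + 2 ^ n * q ^ (2 * m) * (1 / (2 * K + 1))) := by gcongr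
        _ = 2 * ((s ^ 2) ^ m * (W * Real.exp 1 / m) ^ m) + (|s| ^ (2 * m) /
            ((2 * m).factorial : ℝ)) * (2 ^ n * q ^ (2 * m) * (1 / (2 * K + 1))) := by
            rw [hs2m]; field_simp
        _ ≤ 2 * (s ^ 2 * W * Real.exp 1 / m) ^ m + 1 * (2 ^ n * q ^ (2 * m) * (1 / (2 * K + 1))) := by
            apply add_le_add
            · apply le_of_eq
              rw [← mul_pow]
              congr 2
              ring
            · apply mul_le_mul_of_nonneg_right _ (by positivity)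
              rw [div_le_one hfac]
              exact hs1.trans hfac1
        _ = _ := by ring
    have h6 := hrem H hH
    have h7 := hrem H' hH'
    have hexp : Real.exp 1 ≤ 3 := by have := Real.exp_one_lt_d9; linarith
    have h8 : ‖EBc H (fun c => Complex.exp ((s * S c : ℝ) * Complex.I)) -
        EBc H' (fun c => Complex.exp ((s * S c : ℝ) * Complex.I))‖ ≤
        ‖EBc H (fun c => Complex.exp ((s * S c : ℝ) * Complex.I)) - P‖ + ‖P - P'‖ +
        ‖EBc H' (fun c => Complex.exp ((s * S c : ℝ) * Complex.I)) - P'‖ := by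
      have e : EBc H (fun c => Complex.exp ((s * S c : ℝ) * Complex.I)) -
        EBc H' (fun c => Complex.exp ((s * S c : ℝ) * Complex.I)) =
        (EBc H (fun c => Complex.exp ((s * S c : ℝ) * Complex.I)) - P) + (P - P') -
        (EBc H' (fun c => Complex.exp ((s * S c : ℝ) * Complex.I)) - P') := by ring
      rw [e]
      exact (norm_sub_le _ _).trans (add_le_add (norm_add_le _ _) le_rfl)
    have h9 : Real.exp 1 * D ≤ 3 * D := by gcongr
    have h10 : 2 ^ n * q ^ (2 * m) * (1 / (2 * (H : ℝ) + 1)) +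
        2 ^ n * q ^ (2 * m) * (1 / (2 * (H' : ℝ) + 1)) = D := by rw [hD]; ring
    have h11 : 4 * 2 ^ n * q ^ (2 * m) * (1 / (2 * (H : ℝ) + 1) + 1 / (2 * (H' : ℝ) + 1)) = 4 * D := by
      rw [hD]; ring
    rw [h11]
    linarith
  -- the limit
  have hlim := (tendsto_const_nhds (x := EBc H (fun c => Complex.exp ((s * S c : ℝ) * Complex.I)))).sub
    (lim_char Z x s)
  have hlim2 : Tendsto (fun H' : ℕ => 4 * 2 ^ n * q ^ (2 * m) *
      (1 / (2 * (H : ℝ) + 1) + 1 / (2 * (H' : ℝ) + 1)) + 4 * (s ^ 2 * W * Real.exp 1 / m) ^ m) atTop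
      (𝓝 (4 * 2 ^ n * q ^ (2 * m) * (1 / (2 * (H : ℝ) + 1) + 0) +
        4 * (s ^ 2 * W * Real.exp 1 / m) ^ m)) :=
    ((tendsto_const_nhds.add (tendsto_ratio 1)).const_mul _).add_const _
  have hfin := le_of_tendsto_of_tendsto hlim.norm hlim2 (by
    filter_upwards [eventually_ge_atTop (x ^ (2 * m))] with H' hH'
    exact hcmp H' (by omega))
  refine hfin.trans (le_of_eq ?_)
  rw [add_zero]
  ring

end Pool.Agent.X280.BP
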