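import Pool.Agent.X280.BP.Inst

/-!
# The family with two marked points: pairs of values
-/

set_option autoImplicit false
set_option linter.unusedSimpArgs false

namespace Pool.Agent.X280.BP

open Finset Pool.Agent.Y722.HS

variable {p : ℕ} [hp : Fact p.Prime]

theorem ch_mul (a b : ZMod p) : ch (a * b) = ch a * ch b := by
  unfold ch
  rw [map_mul]
  push_cast
  rfl

theorem ch_sq_one {a : ZMod p} (ha : a ≠ 0) : ch a * ch a = 1 := by
  rw [← pow_two, ch_sq, if_neg ha, sub_zero]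

theorem ch_inv {a : ZMod p} (ha : a ≠ 0) : ch a⁻¹ = ch a := by
  have h1 : ch a * ch a⁻¹ = 1 := by
    rw [← ch_mul, mul_inv_cancel₀ ha]
    unfold ch
    simp
  have h2 := ch_sq_one ha
  have h3 : ch a ≠ 0 := by
    intro h
    rw [h] at h2
    norm_num at h2
  exact mul_left_cancel₀ h3 (h1.trans h2.symm)

/-- Sums of the character over quadratic polynomials. -/
theorem sum_quad (h5 : 5 ≤ p) (D : ZMod p) :
    ∑ y : ZMod p, ch (y ^ 2 - D) = p * (if D = 0 then 1 else 0) - 1 := by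
  obtain ⟨h2, h3, hk⟩ := char_ne (six_ne (p := p) h5)
  split_ifs with hD
  · rw [hD]
    simp only [sub_zero, ch_of_sq]
    rw [Finset.sum_sub_distrib, Finset.sum_const, Finset.card_univ, ZMod.card, nsmul_eq_mul,
      Finset.sum_ite_eq' univ (0 : ZMod p), if_pos (mem_univ _)]
  · have h := W165.CE.sum_sq_sub hk D hD
    unfold ch
    rw [mul_zero, zero_sub]
    exact_mod_cast h

theorem sum_pair (h5 : 5 ≤ p) {l l' : ZMod p} (hl : l ≠ 0) (hl' : l' ≠ 0) (a a' : ZMod p) :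
    ∑ t : ZMod p, ch (a + t * l) * ch (a' + t * l') =
      ch (l * l') * (p * (if a / l = a' / l' then 1 else 0) - 1) := by
  have h2 := two_ne (p := p) h5
  set b := a / l with hb
  set b' := a' / l' with hb'
  have e1 : ∀ t, ch (a + t * l) * ch (a' + t * l') =
      ch (l * l') * ch ((t + (b + b') / 2) ^ 2 - ((b - b') / 2) ^ 2) := by
    intro t
    rw [← ch_mul, ← ch_mul]
    congr 1
    rw [hb, hb']
    field_simp
    ring
  simp only [e1]
  rw [← Finset.mul_sum]
  have e2 : ∑ t : ZMod p, ch ((t + (b + b') / 2) ^ 2 - ((b - b') / 2) ^ 2) =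
      ∑ y : ZMod p, ch (y ^ 2 - ((b - b') / 2) ^ 2) :=
    Fintype.sum_equiv (Equiv.addRight ((b + b') / 2)) _ _ fun t => rfl
  rw [e2, sum_quad h5]
  congr 3
  have : (((b - b') / 2) ^ 2 = 0) ↔ b = b' := by
    rw [pow_eq_zero_iff (by norm_num), div_eq_zero_iff, sub_eq_zero]
    constructor
    · rintro (h | h)
      · exact h
      · exact absurd h h2
    · exact Or.inl
  simp only [this]

theorem count_sq (h5 : 5 ≤ p) (m u : ZMod p) :
    ∑ t : ZMod p, (if (u + t) ^ 2 = m then (1 : ℝ) else 0) = 1 + ch m := by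
  classical
  obtain ⟨h2, h3, hk⟩ := char_ne (six_ne (p := p) h5)
  have e1 : ∑ t : ZMod p, (if (u + t) ^ 2 = m then (1 : ℝ) else 0) =
      ∑ y : ZMod p, (if y ^ 2 = m then (1 : ℝ) else 0) :=
    Fintype.sum_equiv (Equiv.addLeft u) _ _ fun t => rfl
  rw [e1, Finset.sum_ite, Finset.sum_const_zero, add_zero, Finset.sum_const, nsmul_eq_mul, mul_one]
  have h := quadraticChar_card_sqrts hk m
  have h4 : ((univ.filter (fun y : ZMod p => y ^ 2 = m)).card : ℤ) = quadraticChar (ZMod p) m + 1 := by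
    rw [← h]
    congr 1
    rw [Set.toFinset_card]
    rw [← Fintype.card_subtype]
    congr 1
  unfold ch
  have h5' : ((univ.filter (fun y : ZMod p => y ^ 2 = m)).card : ℝ) =
      ((quadraticChar (ZMod p) m + 1 : ℤ) : ℝ) := by
    exact_mod_cast h4
  rw [h5']
  push_cast
  ring

theorem pair2 (h5 : 5 ≤ p) {x x' : ZMod p} (hx0 : x ≠ 0) (hx1 : x ≠ 1) (hx0' : x' ≠ 0)
    (hx1' : x' ≠ 1) (hxx : x ≠ x') :
    EM p (fun c : Fin 3 → ZMod p => ch (gg (V2 c) x) * ch (gg (V2 c) x')) = -1 / (p : ℝ) ^ 2 := by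
  classical
  have hp0 := p_pos' (p := p)
  have h4 := four_ne (p := p) h5
  set l := 4 * x * (x - 1) with hl
  set l' := 4 * x' * (x' - 1) with hl'
  have hl0 : l ≠ 0 := mul_ne_zero (mul_ne_zero h4 hx0) (sub_ne_zero.mpr hx1)
  have hl0' : l' ≠ 0 := mul_ne_zero (mul_ne_zero h4 hx0') (sub_ne_zero.mpr hx1')
  have hgg : ∀ (c : Fin 3 → ZMod p) (z : ZMod p), gg (V2 c) z =
      (c 0 * z + c 1) ^ 2 + 4 * z * (z - 1) * (z + c 2) := by
    intro c z
    simp only [gg, V2]
    ring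
  set k := l / l' with hk
  have hk0 : k ≠ 0 := div_ne_zero hl0 hl0'
  set m := l * (x' - x) with hm
  have hm0 : m ≠ 0 := mul_ne_zero hl0 (sub_ne_zero.mpr (Ne.symm hxx))
  have hs : x - x' ≠ 0 := sub_ne_zero.mpr hxx
  set P : (Fin 3 → ZMod p) → Prop := fun c => (c 0 * x + c 1) ^ 2 = k * (c 0 * x' + c 1) ^ 2 + m
    with hP
  -- the third coordinate
  have s1 := EM_dir (p := p) (![0, 0, 1] : Fin 3 → ZMod p)
    (fun c => ch (gg (V2 c) x) * ch (gg (V2 c) x'))
  have e1 : ∀ c : Fin 3 → ZMod p, ∑ t : ZMod p, ch (gg (V2 (c + t • ![0, 0, 1])) x) *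
      ch (gg (V2 (c + t • ![0, 0, 1])) x') =
      ch (l * l') * (p * (if P c then 1 else 0) - 1) := by
    intro c
    have e2 : ∀ t : ZMod p, ch (gg (V2 (c + t • ![0, 0, 1])) x) *
        ch (gg (V2 (c + t • ![0, 0, 1])) x') =
        ch (gg (V2 c) x + t * l) * ch (gg (V2 c) x' + t * l') := by
      intro t
      congr 2
      · rw [hgg, hgg, hl]
        simp only [Pi.add_apply, Pi.smul_apply, smul_eq_mul, Matrix.cons_val]
        ring
      · rw [hgg, hgg, hl']
        simp only [Pi.add_apply, Pi.smul_apply, smul_eq_mul, Matrix.cons_val]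
        ring
    rw [Finset.sum_congr rfl fun t _ => e2 t, sum_pair h5 hl0 hl0']
    congr 3
    have e3 : (gg (V2 c) x / l = gg (V2 c) x' / l') ↔ P c := by
      rw [hP]
      simp only
      rw [div_eq_div_iff hl0 hl0', hgg, hgg, hk, hm]
      rw [show 4 * x * (x - 1) * (x + c 2) = l * (x + c 2) by rw [hl],
        show 4 * x' * (x' - 1) * (x' + c 2) = l' * (x' + c 2) by rw [hl']]
      constructor
      · intro h
        field_simp
        linear_combination h
      · intro h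
        field_simp at h
        linear_combination h
    simp only [e3]
  simp only [e1] at s1
  -- the proportion of `P`
  have s2 := EM_dir (p := p) (![(x - x')⁻¹, -x' * (x - x')⁻¹, 0] : Fin 3 → ZMod p)
    (fun c => if P c then (1 : ℝ) else 0)
  have e4 : ∀ c : Fin 3 → ZMod p, ∑ t : ZMod p,
      (if P (c + t • ![(x - x')⁻¹, -x' * (x - x')⁻¹, 0]) then (1 : ℝ) else 0) =
      1 + ch (k * (c 0 * x' + c 1) ^ 2 + m) := by
    intro c
    rw [← count_sq h5 _ (c 0 * x + c 1)]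
    refine Finset.sum_congr rfl fun t _ => ?_
    have e5 : P (c + t • ![(x - x')⁻¹, -x' * (x - x')⁻¹, 0]) ↔
        (c 0 * x + c 1 + t) ^ 2 = k * (c 0 * x' + c 1) ^ 2 + m := by
      rw [hP]
      simp only [Pi.add_apply, Pi.smul_apply, smul_eq_mul, Matrix.cons_val]
      have e6 : (c 0 + t * (x - x')⁻¹) * x + (c 1 + t * (-x' * (x - x')⁻¹)) =
          c 0 * x + c 1 + t := by
        field_simp
        ring
      have e7 : (c 0 + t * (x - x')⁻¹) * x' + (c 1 + t * (-x' * (x - x')⁻¹)) =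
          c 0 * x' + c 1 := by
        field_simp
        ring
      rw [e6, e7]
    simp only [e5]
  simp only [e4] at s2
  have s3 := EM_dir (p := p) (![-(x - x')⁻¹, x * (x - x')⁻¹, 0] : Fin 3 → ZMod p)
    (fun c => ch (k * (c 0 * x' + c 1) ^ 2 + m))
  have e8 : ∀ c : Fin 3 → ZMod p, ∑ t : ZMod p,
      ch (k * ((c + t • ![-(x - x')⁻¹, x * (x - x')⁻¹, 0]) 0 * x' +
        (c + t • ![-(x - x')⁻¹, x * (x - x')⁻¹, 0]) 1) ^ 2 + m) = -ch k := by
    intro c
    have e9 : ∀ t : ZMod p, ch (k * ((c + t • ![-(x - x')⁻¹, x * (x - x')⁻¹, 0]) 0 * x' +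
        (c + t • ![-(x - x')⁻¹, x * (x - x')⁻¹, 0]) 1) ^ 2 + m) =
        ch k * ch ((c 0 * x' + c 1 + t) ^ 2 - (-m / k)) := by
      intro t
      rw [← ch_mul]
      congr 1
      simp only [Pi.add_apply, Pi.smul_apply, smul_eq_mul, Matrix.cons_val]
      have e10 : (c 0 + t * -(x - x')⁻¹) * x' + (c 1 + t * (x * (x - x')⁻¹)) =
          c 0 * x' + c 1 + t := by
        field_simp
        ring
      rw [e10]
      field_simp
      ring
    rw [Finset.sum_congr rfl fun t _ => e9 t, ← Finset.mul_sum]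
    have e11 : ∑ t : ZMod p, ch ((c 0 * x' + c 1 + t) ^ 2 - (-m / k)) =
        ∑ y : ZMod p, ch (y ^ 2 - (-m / k)) :=
      Fintype.sum_equiv (Equiv.addLeft (c 0 * x' + c 1)) _ _ fun t => rfl
    rw [e11, sum_quad h5, if_neg (div_ne_zero (neg_ne_zero.mpr hm0) hk0)]
    ring
  simp only [e8] at s3
  rw [EM_const'] at s3
  rw [EM_add' p (fun _ => (1 : ℝ)) (fun c => ch (k * (c 0 * x' + c 1) ^ 2 + m)), EM_const'] at s2
  have hkk : ch k = ch (l * l') := by
    rw [hk, div_eq_mul_inv, ch_mul, ch_inv hl0', ← ch_mul]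
  have hll : ch (l * l') * ch (l * l') = 1 := ch_sq_one (mul_ne_zero hl0 hl0')
  have s4 : EM p (fun c : Fin 3 → ZMod p => ch (l * l') * (p * (if P c then (1 : ℝ) else 0) - 1)) =
      ch (l * l') * (p * EM p (fun c => if P c then (1 : ℝ) else 0) - 1) := by
    rw [EM_mul', EM_sub', EM_mul', EM_const']
  rw [s4, s2] at s1
  rw [hkk] at s3
  set E := EM p (fun c : Fin 3 → ZMod p => ch (gg (V2 c) x) * ch (gg (V2 c) x')) with hE
  set Q := EM p (fun c : Fin 3 → ZMod p => ch (k * (c 0 * x' + c 1) ^ 2 + m)) with hQ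
  have s5 : Q = -ch (l * l') / p := by
    rw [eq_div_iff hp0.ne']
    linarith
  rw [s5] at s1
  have s6 : (p : ℝ) * E = -1 / p := by
    rw [s1]
    have : ch (l * l') * (1 + -ch (l * l') / (p : ℝ) - 1) = -(ch (l * l') * ch (l * l')) / p := by
      ring
    rw [this, hll]
  rw [eq_div_iff (by positivity)]
  have s7 : E * (p : ℝ) ^ 2 = (p * E) * p := by ring
  rw [s7, s6]
  field_simp

theorem off2 (h5 : 5 ≤ p) :
    |∑ x ∈ ({0, 1} : Finset (ZMod p))ᶜ, ∑ x' ∈ ({0, 1} : Finset (ZMod p))ᶜ.erase x,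
      EM p (fun c : Fin 3 → ZMod p => ch (gg (V2 c) x) * ch (gg (V2 c) x'))| ≤ 1 := by
  have hp0 := p_pos' (p := p)
  refine (Finset.abs_sum_le_sum_abs _ _).trans ?_
  have h1 : ∀ x ∈ ({0, 1} : Finset (ZMod p))ᶜ, |∑ x' ∈ ({0, 1} : Finset (ZMod p))ᶜ.erase x,
      EM p (fun c : Fin 3 → ZMod p => ch (gg (V2 c) x) * ch (gg (V2 c) x'))| ≤ 1 / p := by
    intro x hx
    rw [Finset.mem_compl, Finset.mem_insert, Finset.mem_singleton, not_or] at hx
    refine (Finset.abs_sum_le_sum_abs _ _).trans ?_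
    have h2 : ∀ x' ∈ ({0, 1} : Finset (ZMod p))ᶜ.erase x,
        |EM p (fun c : Fin 3 → ZMod p => ch (gg (V2 c) x) * ch (gg (V2 c) x'))| ≤
          1 / (p : ℝ) ^ 2 := by
      intro x' hx'
      rw [Finset.mem_erase, Finset.mem_compl, Finset.mem_insert, Finset.mem_singleton, not_or] at hx'
      rw [pair2 h5 hx.1 hx.2 hx'.2.1 hx'.2.2 (Ne.symm hx'.1), abs_div, abs_neg, abs_one,
        abs_of_pos (by positivity : (0 : ℝ) < (p : ℝ) ^ 2)]
    refine (Finset.sum_le_sum h2).trans ?_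
    rw [Finset.sum_const, nsmul_eq_mul]
    have h3 : ((({0, 1} : Finset (ZMod p))ᶜ.erase x).card : ℝ) ≤ p := by
      have : (({0, 1} : Finset (ZMod p))ᶜ.erase x).card ≤ p := by
        calc _ ≤ Fintype.card (ZMod p) := Finset.card_le_univ _
          _ = p := ZMod.card p
      exact_mod_cast this
    calc _ ≤ (p : ℝ) * (1 / (p : ℝ) ^ 2) := by gcongr
      _ = 1 / p := by field_simp
  refine (Finset.sum_le_sum h1).trans ?_
  rw [Finset.sum_const, nsmul_eq_mul]
  have h3 : ((({0, 1} : Finset (ZMod p))ᶜ).card : ℝ) ≤ p := by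
    have : (({0, 1} : Finset (ZMod p))ᶜ).card ≤ p := by
      calc _ ≤ Fintype.card (ZMod p) := Finset.card_le_univ _
        _ = p := ZMod.card p
    exact_mod_cast this
  calc _ ≤ (p : ℝ) * (1 / (p : ℝ)) := by gcongr
    _ = 1 := by field_simp

end Pool.Agent.X280.BP
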