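import Pool.Agent.X280.BP.Main
import Pool.Agent.H341R2.NF.ECCount

/-!
# Weierstrass curves over finite fields
-/

set_option autoImplicit false

namespace Pool.Agent.X280.BP

open Finset

/-- The number of affine points of a Weierstrass equation. -/
noncomputable def pts {R : Type*} [CommRing R] (V : WeierstrassCurve R) : ℕ :=
  Nat.card {q : R × R // q.2 ^ 2 + V.a₁ * q.1 * q.2 + V.a₃ * q.2 =
    q.1 ^ 3 + V.a₂ * q.1 ^ 2 + V.a₄ * q.1 + V.a₆}

section
variable {k : Type*} [Field k] [Fintype k] [DecidableEq k]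

theorem char_ne (h6 : (6 : k) ≠ 0) : (2 : k) ≠ 0 ∧ (3 : k) ≠ 0 ∧ ringChar k ≠ 2 := by
  have h2 : (2 : k) ≠ 0 := by
    intro h; apply h6
    have : (6 : k) = 3 * 2 := by norm_num
    rw [this, h, mul_zero]
  have h3 : (3 : k) ≠ 0 := by
    intro h; apply h6
    have : (6 : k) = 2 * 3 := by norm_num
    rw [this, h, mul_zero]
  refine ⟨h2, h3, ?_⟩
  intro h
  apply h2
  have := ringChar.Nat.cast_ringChar (R := k)
  rw [h] at this
  exact_mod_cast this

/-- The discriminant of the quadratic polynomial in `y`. -/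
def gg (V : WeierstrassCurve k) (x : k) : k :=
  (V.a₁ * x + V.a₃) ^ 2 + 4 * (x ^ 3 + V.a₂ * x ^ 2 + V.a₄ * x + V.a₆)

theorem pts_eq (h6 : (6 : k) ≠ 0) (V : WeierstrassCurve k) :
    (pts V : ℤ) = Fintype.card k + ∑ x : k, quadraticChar k (gg V x) := by
  obtain ⟨h2, h3, hk⟩ := char_ne h6
  unfold pts
  have e : {q : k × k // q.2 ^ 2 + V.a₁ * q.1 * q.2 + V.a₃ * q.2 =
      q.1 ^ 3 + V.a₂ * q.1 ^ 2 + V.a₄ * q.1 + V.a₆} ≃ (x : k) × {y : k // y ^ 2 = gg V x} :=
    { toFun := fun q => ⟨q.1.1, ⟨2 * q.1.2 + V.a₁ * q.1.1 + V.a₃, by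
        have := q.2
        unfold gg
        linear_combination 4 * this⟩⟩
      invFun := fun q => ⟨(q.1, (q.2.1 - V.a₁ * q.1 - V.a₃) / 2), by
        have := q.2.2
        unfold gg at this
        field_simp
        linear_combination this⟩
      left_inv := fun q => by
        apply Subtype.ext
        apply Prod.ext
        · rfl
        · simp only
          field_simp
          ring
      right_inv := fun q => by
        obtain ⟨x, y, hy⟩ := q
        simp only [Sigma.mk.injEq, heq_eq_eq, true_and]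
        apply Subtype.ext
        simp only
        field_simp
        ring }
  rw [Nat.card_congr e, Nat.card_eq_fintype_card, Fintype.card_sigma]
  push_cast
  have h1 : ∀ x : k, (Fintype.card {y : k // y ^ 2 = gg V x} : ℤ) =
      1 + quadraticChar k (gg V x) := by
    intro x
    rw [add_comm, ← quadraticChar_card_sqrts hk, Set.toFinset_card]
    congr 1
  rw [sum_congr rfl fun x _ => h1 x, sum_add_distrib]
  simp

theorem pts_csum (h6 : (6 : k) ≠ 0) (V : WeierstrassCurve k) :
    (pts V : ℤ) = Fintype.card k + Pool.Agent.H341R2.EC.csum V.c₄ V.c₆ := by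
  have h1 : pts V = Pool.Agent.H341R2.EC.aff V := rfl
  rw [h1, Pool.Agent.H341R2.EC.aff_eq_short h6, Pool.Agent.H341R2.EC.short_eq h6]
  rfl

theorem csum_deg (h6 : (6 : k) ≠ 0) {c c' : k} (h : c ^ 3 - c' ^ 2 = 0) :
    |(Pool.Agent.H341R2.EC.csum c c' : ℝ)| ≤ 1 := by
  obtain ⟨h2, h3, hk⟩ := char_ne h6
  obtain ⟨t, ht1, ht2⟩ : ∃ t : k, c = t ^ 2 ∧ c' = t ^ 3 := by
    by_cases hc : c = 0
    · refine ⟨0, by simp [hc], ?_⟩
      rw [hc] at h
      have : c' ^ 2 = 0 := by linear_combination -h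
      simpa using this
    · have h5 : c' ^ 2 = c ^ 3 := by linear_combination -h
      refine ⟨c' / c, ?_, ?_⟩
      · field_simp
        linear_combination -h5
      · field_simp
        linear_combination -c' * h5
  have h1 : Pool.Agent.H341R2.EC.csum c c' = -quadraticChar k (-9 * t) := by
    unfold Pool.Agent.H341R2.EC.csum
    have e1 : ∀ x : k, quadraticChar k ((Pool.Agent.H341R2.EC.cub c c').eval x) =
        quadraticChar k (x - 6 * t) - (if x = -3 * t then quadraticChar k (x - 6 * t) else 0) := by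
      intro x
      rw [Pool.Agent.H341R2.EC.cub_eval, ht1, ht2]
      have e2 : x ^ 3 - 27 * t ^ 2 * x - 54 * t ^ 3 = (x + 3 * t) ^ 2 * (x - 6 * t) := by ring
      rw [e2, map_mul]
      by_cases hx : x = -3 * t
      · rw [if_pos hx]
        have : x + 3 * t = 0 := by rw [hx]; ring
        rw [this]
        simp
      · rw [if_neg hx, sub_zero]
        have : x + 3 * t ≠ 0 := fun h => hx (by linear_combination h)
        rw [quadraticChar_sq_one' this, one_mul]
    rw [sum_congr rfl fun x _ => e1 x, sum_sub_distrib]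
    have e3 : ∑ x : k, quadraticChar k (x - 6 * t) = 0 := by
      rw [Fintype.sum_equiv (Equiv.subRight (6 * t)) (fun x => quadraticChar k (x - 6 * t))
        (fun x => quadraticChar k x) fun x => rfl]
      exact quadraticChar_sum_zero hk
    rw [e3, Finset.sum_ite_eq' univ (-3 * t), if_pos (mem_univ _)]
    rw [show -3 * t - 6 * t = -9 * t by ring]
    ring
  rw [h1]
  rcases quadraticChar_dichotomy_or (-9 * t) with h | h | h <;> rw [h] <;> norm_num
  where
    quadraticChar_dichotomy_or (x : k) : quadraticChar k x = 0 ∨ quadraticChar k x = 1 ∨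
        quadraticChar k x = -1 := by
      by_cases hx : x = 0
      · left; rw [hx]; simp
      · right; exact quadraticChar_dichotomy hx

theorem delta_ne (V : WeierstrassCurve k) : V.c₄ ^ 3 - V.c₆ ^ 2 = 1728 * V.Δ := by
  have := V.c_relation
  linear_combination -this

theorem pts_good (h6 : (6 : k) ≠ 0) (V : WeierstrassCurve k) (hV : V.Δ ≠ 0) :
    |(Fintype.card k : ℝ) - pts V| ≤ 2 * √(Fintype.card k) := by
  obtain ⟨h2, h3, hk⟩ := char_ne h6
  have h1 : V.c₄ ^ 3 - V.c₆ ^ 2 ≠ 0 := by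
    rw [delta_ne]
    have : (1728 : k) = 2 ^ 6 * 3 ^ 3 := by norm_num
    rw [this]
    exact mul_ne_zero (mul_ne_zero (pow_ne_zero _ h2) (pow_ne_zero _ h3)) hV
  have h4 := Pool.Agent.H341R2.EC.csum_bound h6 h1
  have h5 := pts_csum h6 V
  have h7 : (pts V : ℝ) = Fintype.card k + (Pool.Agent.H341R2.EC.csum V.c₄ V.c₆ : ℝ) := by
    exact_mod_cast h5
  rw [h7, sub_add_cancel_left, abs_neg]
  exact h4

theorem pts_bad (h6 : (6 : k) ≠ 0) (V : WeierstrassCurve k) (hV : V.Δ = 0) :
    |(Fintype.card k : ℝ) - pts V| ≤ 1 := by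
  have h1 : V.c₄ ^ 3 - V.c₆ ^ 2 = 0 := by
    rw [delta_ne, hV, mul_zero]
  have h4 := csum_deg h6 h1
  have h5 := pts_csum h6 V
  have h7 : (pts V : ℝ) = Fintype.card k + (Pool.Agent.H341R2.EC.csum V.c₄ V.c₆ : ℝ) := by
    exact_mod_cast h5
  rw [h7, sub_add_cancel_left, abs_neg]
  exact h4

end

theorem six_ne {p : ℕ} [Fact p.Prime] (h5 : 5 ≤ p) : (6 : ZMod p) ≠ 0 := by
  intro h
  have h1 : ((6 : ℕ) : ZMod p) = 0 := by exact_mod_cast h
  rw [ZMod.natCast_eq_zero_iff] at h1
  have hp : p.Prime := Fact.out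
  have h2 : p ∣ 2 * 3 := by simpa using h1
  rcases (Nat.Prime.dvd_mul hp).mp h2 with h | h
  · have := Nat.le_of_dvd (by norm_num) h; omega
  · have := Nat.le_of_dvd (by norm_num) h; omega

end Pool.Agent.X280.BP
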