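import Pool.Agent.X280.BP.Curve

/-!
# Averages over families of Weierstrass curves
-/

set_option autoImplicit false

namespace Pool.Agent.X280.BP

open Finset Pool.Agent.Y722.HS

variable {ι : Type} [Fintype ι] [DecidableEq ι] {p : ℕ} [hp : Fact p.Prime]

/-- The quadratic character with real values. -/
noncomputable def ch (u : ZMod p) : ℝ := ((quadraticChar (ZMod p) u : ℤ) : ℝ)

theorem ch_abs (u : ZMod p) : |ch u| ≤ 1 := by
  unfold ch
  by_cases hu : u = 0
  · rw [hu]; simp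
  · rcases quadraticChar_dichotomy hu with h | h <;> rw [h] <;> norm_num

theorem ch_sq (u : ZMod p) : ch u ^ 2 = 1 - if u = 0 then 1 else 0 := by
  unfold ch
  by_cases hu : u = 0
  · rw [hu]; simp
  · rcases quadraticChar_dichotomy hu with h | h <;> rw [h] <;> simp [hu]

theorem ch_of_sq (u : ZMod p) : ch (u ^ 2) = 1 - if u = 0 then 1 else 0 := by
  rw [← ch_sq]
  unfold ch
  rw [map_pow]
  push_cast
  rfl

theorem EM_dir (d : ι → ZMod p) (f : (ι → ZMod p) → ℝ) :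
    (p : ℝ) * EM p f = EM p (fun c => ∑ t : ZMod p, f (c + t • d)) := by
  unfold EM
  rw [Finset.sum_comm]
  have h1 : ∀ t : ZMod p, ∑ c, f (c + t • d) = ∑ c, f c := fun t =>
    Fintype.sum_equiv (Equiv.addRight (t • d)) _ _ fun c => rfl
  rw [Finset.sum_congr rfl fun t _ => h1 t, Finset.sum_const, Finset.card_univ, ZMod.card,
    nsmul_eq_mul]
  ring

theorem p_pos' : (0 : ℝ) < p := by exact_mod_cast hp.out.pos

theorem EM_zero_dir (h5 : 5 ≤ p) (F : (ι → ZMod p) → ZMod p) (h : (ι → ZMod p) → ℝ)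
    (d : ι → ZMod p) (s : ZMod p) (hs : s ≠ 0) (hF : ∀ c t, F (c + t • d) = F c + t * s)
    (hh : ∀ c (t : ZMod p), h (c + t • d) = h c) : EM p (fun c => ch (F c) * h c) = 0 := by
  obtain ⟨h2, h3, hk⟩ := char_ne (six_ne (p := p) h5)
  have h1 := EM_dir d (fun c => ch (F c) * h c)
  have h4 : ∀ c, ∑ t : ZMod p, ch (F (c + t • d)) * h (c + t • d) = 0 := by
    intro c
    simp only [hF, hh]
    rw [← Finset.sum_mul]
    have e1 : ∑ t : ZMod p, ch (F c + t * s) = ∑ u : ZMod p, ch u :=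
      Fintype.sum_equiv ((Equiv.mulRight₀ s hs).trans (Equiv.addLeft (F c))) _ _ fun t => rfl
    rw [e1]
    have e2 : ∑ u : ZMod p, ch u = ((∑ u : ZMod p, quadraticChar (ZMod p) u : ℤ) : ℝ) := by
      unfold ch
      push_cast
      rfl
    rw [e2, quadraticChar_sum_zero hk]
    simp
  simp only [h4] at h1
  rw [show EM p (fun _ : ι → ZMod p => (0 : ℝ)) = 0 from EM_const' p 0] at h1
  have := p_pos' (p := p)
  rcases mul_eq_zero.mp h1 with h | h
  · linarith
  · exact h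

theorem EM_few (P : (ι → ZMod p) → Prop) [DecidablePred P] (d : ι → ZMod p) (k : ℕ)
    (hk : ∀ c, (univ.filter (fun t : ZMod p => P (c + t • d))).card ≤ k) :
    EM p (fun c => if P c then (1 : ℝ) else 0) ≤ k / p := by
  have h1 := EM_dir d (fun c => if P c then (1 : ℝ) else 0)
  have h2 : ∀ c, ∑ t : ZMod p, (if P (c + t • d) then (1 : ℝ) else 0) ≤ k := by
    intro c
    rw [Finset.sum_ite, Finset.sum_const_zero, add_zero, Finset.sum_const, nsmul_eq_mul, mul_one]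
    exact_mod_cast hk c
  have h3 : EM p (fun c => ∑ t : ZMod p, (if P (c + t • d) then (1 : ℝ) else 0)) ≤ k := by
    refine (EM_mono' p _ (fun _ => (k : ℝ)) h2).trans (le_of_eq (EM_const' p _))
  rw [← h1] at h3
  rw [le_div_iff₀ p_pos', mul_comm]
  exact h3

/-- A function with unit slope in a direction vanishes with probability at most `1 / p`. -/
theorem EM_zero_few (F : (ι → ZMod p) → ZMod p) (d : ι → ZMod p) (s : ZMod p) (hs : s ≠ 0)
    (hF : ∀ c t, F (c + t • d) = F c + t * s) :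
    EM p (fun c => if F c = 0 then (1 : ℝ) else 0) ≤ 1 / p := by
  have := EM_few (fun c => F c = 0) d 1 (by
    intro c
    rw [Finset.card_le_one]
    intro t ht t' ht'
    rw [Finset.mem_filter] at ht ht'
    have h1 := ht.2
    have h2 := ht'.2
    rw [hF] at h1 h2
    have h3 : (t - t') * s = 0 := by linear_combination h1 - h2
    rcases mul_eq_zero.mp h3 with h | h
    · exact sub_eq_zero.mp h
    · exact absurd h hs)
  simpa using this

theorem EM_ind_nonneg (P : (ι → ZMod p) → Prop) [DecidablePred P] :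
    0 ≤ EM p (fun c => if P c then (1 : ℝ) else 0) := by
  unfold EM
  positivity

theorem EM_chi_sq (F : (ι → ZMod p) → ZMod p) (d : ι → ZMod p) (s : ZMod p) (hs : s ≠ 0)
    (hF : ∀ c t, F (c + t • d) = F c + t * s) :
    |EM p (fun c => ch (F c) * ch (F c)) - 1| ≤ 1 / p := by
  have h1 : EM p (fun c => ch (F c) * ch (F c)) = 1 - EM p (fun c => if F c = 0 then (1 : ℝ) else 0) := by
    rw [← EM_const' (ι := ι) p 1, ← EM_sub', EM_const']
    congr 1
    funext c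
    rw [← pow_two, ch_sq]
  rw [h1]
  have h2 := EM_zero_few F d s hs hF
  have h3 := EM_ind_nonneg (p := p) (fun c => F c = 0)
  rw [abs_le]
  constructor <;> linarith

theorem EM_of_sq (F : (ι → ZMod p) → ZMod p) (d : ι → ZMod p) (s : ZMod p) (hs : s ≠ 0)
    (hF : ∀ c t, F (c + t • d) = F c + t * s) :
    |EM p (fun c => ch (F c ^ 2)) - 1| ≤ 1 / p := by
  have h1 : EM p (fun c => ch (F c ^ 2)) = 1 - EM p (fun c => if F c = 0 then (1 : ℝ) else 0) := by
    rw [← EM_const' (ι := ι) p 1, ← EM_sub', EM_const']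
    congr 1
    funext c
    rw [ch_of_sq]
  rw [h1]
  have h2 := EM_zero_few F d s hs hF
  have h3 := EM_ind_nonneg (p := p) (fun c => F c = 0)
  rw [abs_le]
  constructor <;> linarith

/-- The values at the points outside `Z` are uniform, those at the points of `Z` are squares. -/
structure Mark (V : (ι → ZMod p) → WeierstrassCurve (ZMod p)) (Z : Finset (ZMod p)) : Prop where
  p1 : ∀ x ∉ Z, ∃ (d : ι → ZMod p) (s : ZMod p), s ≠ 0 ∧
    (∀ c t, gg (V (c + t • d)) x = gg (V c) x + t * s) ∧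
    ∀ z ∈ Z, ∀ c (t : ZMod p), gg (V (c + t • d)) z = gg (V c) z
  p3 : ∀ z ∈ Z, ∃ (L : (ι → ZMod p) → ZMod p) (d : ι → ZMod p) (s : ZMod p), s ≠ 0 ∧
    (∀ c, gg (V c) z = L c ^ 2) ∧ ∀ c t, L (c + t • d) = L c + t * s

variable {V : (ι → ZMod p) → WeierstrassCurve (ZMod p)} {Z : Finset (ZMod p)}

theorem trace_eq (h5 : 5 ≤ p) (W : WeierstrassCurve (ZMod p)) :
    (p : ℝ) - pts W = -∑ x : ZMod p, ch (gg W x) := by
  have h := pts_eq (six_ne (p := p) h5) W
  have h2 : (pts W : ℝ) = p + ∑ x : ZMod p, ch (gg W x) := by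
    unfold ch
    rw [ZMod.card] at h
    exact_mod_cast h
  rw [h2]
  ring

theorem EM_sum' {κ : Type*} (s : Finset κ) (f : κ → (ι → ZMod p) → ℝ) :
    EM p (fun c => ∑ i ∈ s, f i c) = ∑ i ∈ s, EM p (f i) := by
  unfold EM
  rw [Finset.sum_comm, Finset.sum_div]

theorem Mark.mean (h5 : 5 ≤ p) (M : Mark V Z) :
    |EM p (fun c => (p : ℝ) - pts (V c)) + Z.card| ≤ Z.card / p := by
  classical
  have e1 : EM p (fun c => (p : ℝ) - pts (V c)) = -∑ x : ZMod p, EM p (fun c => ch (gg (V c) x)) := by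
    rw [← EM_sum']
    have : (fun c => (p : ℝ) - pts (V c)) = fun c => (-1) * ∑ x : ZMod p, ch (gg (V c) x) := by
      funext c
      rw [trace_eq h5]
      ring
    rw [this, EM_mul']
    ring
  have h0 : ∀ x ∈ Zᶜ, EM p (fun c => ch (gg (V c) x)) = 0 := by
    intro x hx
    rw [Finset.mem_compl] at hx
    obtain ⟨d, s, hs, h1, _⟩ := M.p1 x hx
    have := EM_zero_dir h5 (fun c => gg (V c) x) (fun _ => 1) d s hs h1 (fun _ _ => rfl)
    simpa using this
  have e2 : ∑ x : ZMod p, EM p (fun c => ch (gg (V c) x)) =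
      ∑ x ∈ Z, EM p (fun c => ch (gg (V c) x)) := by
    rw [← Finset.sum_add_sum_compl Z, Finset.sum_eq_zero h0, add_zero]
  have e3 : EM p (fun c => (p : ℝ) - pts (V c)) + Z.card =
      -∑ x ∈ Z, (EM p (fun c => ch (gg (V c) x)) - 1) := by
    rw [e1, e2, Finset.sum_sub_distrib, Finset.sum_const, nsmul_eq_mul, mul_one]
    ring
  rw [e3, abs_neg]
  refine (Finset.abs_sum_le_sum_abs _ _).trans ?_
  have h2 : ∀ x ∈ Z, |EM p (fun c => ch (gg (V c) x)) - 1| ≤ 1 / p := by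
    intro x hx
    obtain ⟨L, d, s, hs, h1, h3⟩ := M.p3 x hx
    simp only [h1]
    exact EM_of_sq L d s hs h3
  refine (Finset.sum_le_sum h2).trans (le_of_eq ?_)
  rw [Finset.sum_const, nsmul_eq_mul]
  ring

theorem Mark.sq (h5 : 5 ≤ p) (M : Mark V Z) (C2 : ℝ)
    (h2 : |∑ x ∈ Zᶜ, ∑ x' ∈ Zᶜ.erase x, EM p (fun c => ch (gg (V c) x) * ch (gg (V c) x'))| ≤ C2) :
    |EM p (fun c => ((p : ℝ) - pts (V c)) ^ 2) - p| ≤ (Z.card : ℝ) ^ 2 + Z.card + 1 + C2 := by
  classical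
  have hp0 := p_pos' (p := p)
  set E : ZMod p → ZMod p → ℝ := fun x x' => EM p (fun c => ch (gg (V c) x) * ch (gg (V c) x'))
    with hE
  have e1 : EM p (fun c => ((p : ℝ) - pts (V c)) ^ 2) = ∑ x : ZMod p, ∑ x' : ZMod p, E x x' := by
    rw [hE]
    simp only
    rw [← Finset.sum_congr rfl fun x _ => EM_sum' univ fun x' c => ch (gg (V c) x) * ch (gg (V c) x'),
      ← EM_sum']
    congr 1
    funext c
    rw [trace_eq h5, neg_sq, pow_two, Finset.sum_mul_sum]
  have hz1 : ∀ x ∉ Z, ∀ z ∈ Z, E x z = 0 := by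
    intro x hx z hz
    obtain ⟨d, s, hs, h1, h3⟩ := M.p1 x hx
    exact EM_zero_dir h5 (fun c => gg (V c) x) (fun c => ch (gg (V c) z)) d s hs h1
      (fun c t => by rw [h3 z hz])
  have hz2 : ∀ x ∉ Z, ∀ z ∈ Z, E z x = 0 := by
    intro x hx z hz
    have := hz1 x hx z hz
    rw [hE] at this ⊢
    simp only at this ⊢
    rw [← this]
    congr 1
    funext c
    ring
  have hEle : ∀ x x', |E x x'| ≤ 1 := by
    intro x x'
    rw [hE]
    refine (EM_abs_le p _ (fun _ => 1) fun c => ?_).trans (le_of_eq (EM_const' p 1))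
    rw [abs_mul]
    exact mul_le_one₀ (ch_abs _) (abs_nonneg _) (ch_abs _)
  have e2 : ∑ x : ZMod p, ∑ x' : ZMod p, E x x' =
      ∑ x ∈ Z, ∑ x' ∈ Z, E x x' + (∑ x ∈ Zᶜ, E x x + ∑ x ∈ Zᶜ, ∑ x' ∈ Zᶜ.erase x, E x x') := by
    rw [← Finset.sum_add_sum_compl Z]
    congr 1
    · refine Finset.sum_congr rfl fun x hx => ?_
      rw [← Finset.sum_add_sum_compl Z (fun x' => E x x')]
      rw [Finset.sum_eq_zero (s := Zᶜ) fun x' hx' => hz2 x' (Finset.mem_compl.mp hx') x hx, add_zero]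
    · rw [← Finset.sum_add_distrib]
      refine Finset.sum_congr rfl fun x hx => ?_
      rw [← Finset.sum_add_sum_compl Z (fun x' => E x x')]
      rw [Finset.sum_eq_zero (s := Z) fun x' hx' => hz1 x (Finset.mem_compl.mp hx) x' hx', zero_add]
      rw [← Finset.add_sum_erase _ _ hx]
  have h3 : |∑ x ∈ Z, ∑ x' ∈ Z, E x x'| ≤ (Z.card : ℝ) ^ 2 := by
    refine (Finset.abs_sum_le_sum_abs _ _).trans ?_
    calc ∑ x ∈ Z, |∑ x' ∈ Z, E x x'| ≤ ∑ x ∈ Z, (Z.card : ℝ) := by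
          refine Finset.sum_le_sum fun x _ => ?_
          refine (Finset.abs_sum_le_sum_abs _ _).trans ?_
          calc ∑ x' ∈ Z, |E x x'| ≤ ∑ _x' ∈ Z, (1 : ℝ) := Finset.sum_le_sum fun x' _ => hEle x x'
            _ = Z.card := by rw [Finset.sum_const, nsmul_eq_mul, mul_one]
      _ = (Z.card : ℝ) ^ 2 := by rw [Finset.sum_const, nsmul_eq_mul, pow_two]
  have hcard : ((Zᶜ).card : ℝ) = p - Z.card := by
    rw [Finset.card_compl, ZMod.card, Nat.cast_sub]
    calc Z.card ≤ Fintype.card (ZMod p) := Finset.card_le_univ Z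
      _ = p := ZMod.card p
  have hcard0 : (0 : ℝ) ≤ Z.card := by positivity
  have hcard1 : (0 : ℝ) ≤ p - Z.card := by rw [← hcard]; positivity
  have h4 : |∑ x ∈ Zᶜ, E x x - p| ≤ Z.card + 1 := by
    have h5' : |∑ x ∈ Zᶜ, (E x x - 1)| ≤ 1 := by
      refine (Finset.abs_sum_le_sum_abs _ _).trans ?_
      have h6 : ∀ x ∈ Zᶜ, |E x x - 1| ≤ 1 / p := by
        intro x hx
        obtain ⟨d, s, hs, h1, _⟩ := M.p1 x (Finset.mem_compl.mp hx)
        exact EM_chi_sq (fun c => gg (V c) x) d s hs h1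
      refine (Finset.sum_le_sum h6).trans ?_
      rw [Finset.sum_const, nsmul_eq_mul, hcard, mul_one_div, div_le_one hp0]
      linarith
    have e4 : ∑ x ∈ Zᶜ, E x x - p = ∑ x ∈ Zᶜ, (E x x - 1) - Z.card := by
      rw [Finset.sum_sub_distrib, Finset.sum_const, nsmul_eq_mul, hcard]
      ring
    rw [e4]
    refine (abs_sub _ _).trans ?_
    rw [abs_of_nonneg hcard0]
    linarith
  rw [e1, e2]
  have e5 : ∑ x ∈ Z, ∑ x' ∈ Z, E x x' + (∑ x ∈ Zᶜ, E x x + ∑ x ∈ Zᶜ, ∑ x' ∈ Zᶜ.erase x, E x x') - p =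
      ∑ x ∈ Z, ∑ x' ∈ Z, E x x' + (∑ x ∈ Zᶜ, E x x - p) +
        ∑ x ∈ Zᶜ, ∑ x' ∈ Zᶜ.erase x, E x x' := by ring
  rw [e5]
  refine (abs_add_le _ _).trans ?_
  have := (abs_add_le (∑ x ∈ Z, ∑ x' ∈ Z, E x x') (∑ x ∈ Zᶜ, E x x - p))
  linarith

/-- The off-diagonal sum vanishes if the values at two points are independent. -/
theorem off_zero (h5 : 5 ≤ p)
    (h : ∀ x ∉ Z, ∀ x' ∉ Z, x ≠ x' → ∃ (d : ι → ZMod p) (s : ZMod p), s ≠ 0 ∧
      (∀ c t, gg (V (c + t • d)) x = gg (V c) x + t * s) ∧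
      ∀ c (t : ZMod p), gg (V (c + t • d)) x' = gg (V c) x') :
    ∑ x ∈ Zᶜ, ∑ x' ∈ Zᶜ.erase x, EM p (fun c => ch (gg (V c) x) * ch (gg (V c) x')) = 0 := by
  refine Finset.sum_eq_zero fun x hx => Finset.sum_eq_zero fun x' hx' => ?_
  rw [Finset.mem_erase] at hx'
  obtain ⟨d, s, hs, h1, h2⟩ := h x (Finset.mem_compl.mp hx) x' (Finset.mem_compl.mp hx'.2)
    (Ne.symm hx'.1)
  exact EM_zero_dir h5 (fun c => gg (V c) x) (fun c => ch (gg (V c) x')) d s hs h1
    (fun c t => by rw [h2])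

end Pool.Agent.X280.BP
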