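import Pool.Agent.X280.BP.Model

/-!
# The normal law of the products
-/

set_option autoImplicit false

namespace Pool.Agent.X280.BP

open Finset Filter Topology Pool.Agent.Y722.HS

variable {ι : Type} [Fintype ι] [DecidableEq ι]
variable {a : ∀ p : ℕ, (ι → ZMod p) → ℝ} {G : ∀ p : ℕ, (ι → ZMod p) → Prop} {r C : ℝ}

theorem tendsto_Lg : Tendsto Lg atTop atTop :=
  Real.tendsto_log_atTop.comp (Real.tendsto_log_atTop.comp tendsto_natCast_atTop_atTop)

/-- The normalised logarithm. -/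
noncomputable def TT (Q : ℕ → (ι → ℤ) → ℝ) (k : ℝ) (y : ℕ) (c : ι → ℤ) : ℝ :=
  (Q y c - k * Lg y) / √(Lg y)

theorem norm_exp_sub (u v : ℝ) :
    ‖Complex.exp (u * Complex.I) - Complex.exp (v * Complex.I)‖ ≤ |u - v| := by
  have h := rem_le 1 (u - v)
  have e : Complex.exp (u * Complex.I) - Complex.exp (v * Complex.I) =
      Complex.exp (v * Complex.I) * rem 1 (u - v) := by
    unfold rem
    rw [Finset.sum_range_one]
    simp only [pow_zero, Nat.factorial, Nat.cast_one, div_one]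
    rw [mul_sub, mul_one, ← Complex.exp_add]
    congr 2
    push_cast
    ring
  rw [e, norm_mul, Complex.norm_exp_ofReal_mul_I, one_mul]
  simpa using h

/-- **Convergence of the characteristic functions.** -/
theorem Dat.clt (D : Dat a G r C) (Q : ℕ → (ι → ℤ) → ℝ) (K2 : ℝ)
    (hQ : ∀ y c, |Q y c - logP a G y c| ≤ K2) (t : ℝ) {ε : ℝ} (hε : 0 < ε) :
    ∃ k : ℕ, ∀ᶠ y : ℕ in atTop, ∀ H : ℕ, y ^ k ≤ H →
      ‖EBc H (fun c => Complex.exp ((t * TT Q (r + 1 / 2) y c : ℝ) * Complex.I)) -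
        (Real.exp (-(t ^ 2 / 2)) : ℝ)‖ ≤ ε := by
  obtain ⟨K0', hK0', hnear'⟩ := D.near
  have hK2 : 0 ≤ K2 := (abs_nonneg _).trans (hQ 0 0)
  obtain ⟨C1, hC1, hLL⟩ := LL_Lg
  obtain ⟨K3, hK3, hphi⟩ := D.phi_near
  set n := Fintype.card ι with hn
  -- the number of moments
  obtain ⟨m, hm1, hm2, hm3⟩ : ∃ m : ℕ, 1 ≤ m ∧ 200 * t ^ 2 * Real.exp 1 * 2 ≤ m ∧
      4 * (1 / 2 : ℝ) ^ m ≤ ε / 5 := by
    have h1 : ∀ᶠ m : ℕ in atTop, 200 * t ^ 2 * Real.exp 1 * 2 ≤ m :=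
      tendsto_natCast_atTop_atTop.eventually_ge_atTop _
    have h2 : Tendsto (fun m : ℕ => 4 * (1 / 2 : ℝ) ^ m) atTop (𝓝 (4 * 0)) :=
      (tendsto_pow_atTop_nhds_zero_of_lt_one (by norm_num) (by norm_num)).const_mul _
    rw [mul_zero] at h2
    have h3 := h2.eventually (ge_mem_nhds (show (0 : ℝ) < ε / 5 by positivity))
    obtain ⟨m, hm⟩ := ((eventually_ge_atTop 1).and (h1.and h3)).exists
    exact ⟨m, hm.1, hm.2.1, hm.2.2⟩
  refine ⟨4 * m + 1, ?_⟩
  set Kq : ℝ := K0' + K2 + |r + 1 / 2| * C1 with hKq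
  have hKq0 : 0 ≤ Kq := by positivity
  have hsL : Tendsto (fun y : ℕ => √(Lg y)) atTop atTop := Real.tendsto_sqrt_atTop.comp tendsto_Lg
  have hz : ∀ K : ℝ, Tendsto (fun y : ℕ => K / √(Lg y)) atTop (𝓝 0) := fun K =>
    tendsto_const_nhds.div_atTop hsL
  have hz2 : ∀ K : ℝ, Tendsto (fun y : ℕ => K / Lg y) atTop (𝓝 0) := fun K =>
    tendsto_const_nhds.div_atTop tendsto_Lg
  have hz3 : ∀ K : ℝ, Tendsto (fun y : ℕ => K / (y : ℝ)) atTop (𝓝 0) := fun K =>
    tendsto_const_nhds.div_atTop tendsto_natCast_atTop_atTop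
  have hE : (0 : ℝ) < ε / 5 := by positivity
  filter_upwards [eventually_ge_atTop 4, tendsto_Lg.eventually_ge_atTop (C1 + 1),
    (hz |t|).eventually (ge_mem_nhds (show (0 : ℝ) < 1 by norm_num)),
    (hz (|t| * Kq)).eventually (ge_mem_nhds hE), (hz2 (K3 * t ^ 2)).eventually (ge_mem_nhds hE),
    (hz2 (t ^ 2 * C1 / 2)).eventually (ge_mem_nhds hE),
    (hz3 (4 * 2 ^ n * 40 ^ (2 * m) : ℝ)).eventually (ge_mem_nhds hE)]
    with y hy4 hyL hy1 hy2 hy3 hy5 hy6 H hH
  set L := Lg y with hL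
  have hL0 : 0 < L := by linarith
  set σ := √L with hσ
  have hσ0 : 0 < σ := Real.sqrt_pos.2 hL0
  have hσσ : σ ^ 2 = L := Real.sq_sqrt hL0.le
  set s : ℝ := -t / σ with hs
  have hs1 : |s| ≤ 1 := by rw [hs, abs_div, abs_neg, abs_of_pos hσ0]; exact hy1
  have hs2 : s ^ 2 = t ^ 2 / L := by rw [hs, div_pow, neg_sq, hσσ]
  have hLLy := hLL y (by omega)
  have hLLle : LL 0 (y + 1) ≤ 2 * L := by
    have := (abs_le.mp hLLy).2
    linarith
  -- the size of the box
  have hy0 : (0 : ℝ) < y := by exact_mod_cast (by omega : 0 < y)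
  have hcond : (y + 1) ^ (2 * m) ≤ 2 * H + 1 := by
    have h1 : (y + 1) ^ (2 * m) ≤ (2 * y) ^ (2 * m) := Nat.pow_le_pow_left (by omega) _
    have h2 : (2 * y) ^ (2 * m) ≤ y ^ (4 * m + 1) := by
      calc (2 * y) ^ (2 * m) ≤ (y * y) ^ (2 * m) := Nat.pow_le_pow_left
            (Nat.mul_le_mul_right y (by omega)) _
        _ = y ^ (4 * m) := by rw [← pow_two, ← pow_mul]; ring_nf
        _ ≤ y ^ (4 * m + 1) := Nat.pow_le_pow_right (by omega) (by omega)
    omega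
  have hW : (10 : ℝ) ^ 2 * LL 0 (y + 1) ≤ 200 * L := by linarith
  have hA := D.sys.char (x := y + 1) (H := H) (m := m) (by omega) hm1 hcond (s := s) (W := 200 * L)
    hs1 (by positivity) hW
  rw [← hn] at hA
  have hA1 : 4 * 2 ^ n * (10 * ((y + 1 : ℕ) : ℝ) ^ 2) ^ (2 * m) / (2 * H + 1) ≤ ε / 5 := by
    have h1 : (10 * ((y + 1 : ℕ) : ℝ) ^ 2) ^ (2 * m) ≤ (40 * (y : ℝ) ^ 2) ^ (2 * m) := by
      apply pow_le_pow_left₀ (by positivity)
      have h2 : ((y + 1 : ℕ) : ℝ) ≤ 2 * y := by exact_mod_cast (by omega : y + 1 ≤ 2 * y)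
      calc 10 * ((y + 1 : ℕ) : ℝ) ^ 2 ≤ 10 * (2 * y) ^ 2 := by gcongr
        _ = 40 * (y : ℝ) ^ 2 := by ring
    have h3 : (y : ℝ) ^ (4 * m + 1) ≤ 2 * H + 1 := by
      have : (y : ℝ) ^ (4 * m + 1) ≤ H := by exact_mod_cast hH
      linarith
    have hpos : (0 : ℝ) < (y : ℝ) ^ (4 * m + 1) := by positivity
    calc 4 * 2 ^ n * (10 * ((y + 1 : ℕ) : ℝ) ^ 2) ^ (2 * m) / (2 * H + 1)
        ≤ 4 * 2 ^ n * (40 * (y : ℝ) ^ 2) ^ (2 * m) / (y : ℝ) ^ (4 * m + 1) := by gcongr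
      _ = (4 * 2 ^ n * 40 ^ (2 * m) / (y : ℝ) : ℝ) := by
          rw [mul_pow, ← pow_mul, show 2 * (2 * m) = 4 * m by ring, pow_succ]
          field_simp
      _ ≤ ε / 5 := hy6
  have hA2 : 4 * (s ^ 2 * (200 * L) * Real.exp 1 / m) ^ m ≤ ε / 5 := by
    refine le_trans ?_ hm3
    have hm0 : (0 : ℝ) < m := by exact_mod_cast hm1
    have h1 : s ^ 2 * (200 * L) * Real.exp 1 / m ≤ 1 / 2 := by
      rw [hs2, div_le_iff₀ hm0]
      have : t ^ 2 / L * (200 * L) = 200 * t ^ 2 := by field_simp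
      rw [this]
      linarith
    gcongr
  have hB := hphi (y + 1) s hs1
  have hB1 : K3 * s ^ 2 ≤ ε / 5 := by
    rw [hs2]
    calc K3 * (t ^ 2 / L) = K3 * t ^ 2 / L := by ring
      _ ≤ ε / 5 := hy3
  have hC' : ‖((Real.exp (-(s ^ 2 * LL 0 (y + 1) / 2)) : ℝ) : ℂ) - (Real.exp (-(t ^ 2 / 2)) : ℝ)‖ ≤
      ε / 5 := by
    rw [← Complex.ofReal_sub, Complex.norm_real, Real.norm_eq_abs]
    refine (exp_neg_lip (by have := LL_nonneg 0 (y + 1); positivity) (by positivity)).trans ?_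
    rw [hs2]
    have e : t ^ 2 / L * LL 0 (y + 1) / 2 - t ^ 2 / 2 = t ^ 2 / (2 * L) * (LL 0 (y + 1) - L) := by
      field_simp
    rw [e, abs_mul, abs_of_nonneg (by positivity)]
    calc t ^ 2 / (2 * L) * |LL 0 (y + 1) - L| ≤ t ^ 2 / (2 * L) * C1 := by gcongr
      _ = t ^ 2 * C1 / 2 / L := by field_simp
      _ ≤ ε / 5 := hy5
  -- the remainder
  have hR : ‖EBc H (fun c => Complex.exp ((t * TT Q (r + 1 / 2) y c : ℝ) * Complex.I)) -
      EBc H (fun c => Complex.exp ((s * SS (ZZ a G) 0 (y + 1) c : ℝ) * Complex.I))‖ ≤ ε / 5 := by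
    rw [← EBc_sub]
    refine (norm_EBc_le H _ (fun _ => |t| * Kq / σ) fun c => ?_).trans ?_
    · refine (norm_exp_sub _ _).trans ?_
      have h1 := hnear' y c
      have h2 := hQ y c
      have e : t * TT Q (r + 1 / 2) y c - s * SS (ZZ a G) 0 (y + 1) c =
          t / σ * ((logP a G y c + SS (ZZ a G) 0 (y + 1) c - (r + 1 / 2) * LL 0 (y + 1)) +
            (Q y c - logP a G y c) + (r + 1 / 2) * (LL 0 (y + 1) - L)) := by
        unfold TT
        rw [← hL, ← hσ, hs]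
        field_simp
        ring
      rw [e, abs_mul, abs_div, abs_of_pos hσ0]
      have h3 : |(logP a G y c + SS (ZZ a G) 0 (y + 1) c - (r + 1 / 2) * LL 0 (y + 1)) +
            (Q y c - logP a G y c) + (r + 1 / 2) * (LL 0 (y + 1) - L)| ≤ Kq := by
        refine (abs_add_le _ _).trans (add_le_add ((abs_add_le _ _).trans (add_le_add h1 h2)) ?_)
        rw [abs_mul]
        exact mul_le_mul_of_nonneg_left hLLy (abs_nonneg _)
      calc |t| / σ * _ ≤ |t| / σ * Kq := by gcongr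
        _ = |t| * Kq / σ := by ring
    · rw [EB_const]
      exact hy2
  have efin : EBc H (fun c => Complex.exp ((t * TT Q (r + 1 / 2) y c : ℝ) * Complex.I)) -
        (Real.exp (-(t ^ 2 / 2)) : ℝ) =
      (EBc H (fun c => Complex.exp ((t * TT Q (r + 1 / 2) y c : ℝ) * Complex.I)) -
        EBc H (fun c => Complex.exp ((s * SS (ZZ a G) 0 (y + 1) c : ℝ) * Complex.I))) +
      (EBc H (fun c => Complex.exp ((s * SS (ZZ a G) 0 (y + 1) c : ℝ) * Complex.I)) -
        phi (ZZ a G) (y + 1) s) +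
      (phi (ZZ a G) (y + 1) s - (Real.exp (-(s ^ 2 * LL 0 (y + 1) / 2)) : ℝ)) +
      (((Real.exp (-(s ^ 2 * LL 0 (y + 1) / 2)) : ℝ) : ℂ) - (Real.exp (-(t ^ 2 / 2)) : ℝ)) := by
    ring
  rw [efin]
  refine (norm_add_le _ _).trans ?_
  have h7 := (norm_add_le (EBc H (fun c => Complex.exp ((t * TT Q (r + 1 / 2) y c : ℝ) * Complex.I)) -
        EBc H (fun c => Complex.exp ((s * SS (ZZ a G) 0 (y + 1) c : ℝ) * Complex.I)) +
      (EBc H (fun c => Complex.exp ((s * SS (ZZ a G) 0 (y + 1) c : ℝ) * Complex.I)) -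
        phi (ZZ a G) (y + 1) s))
      (phi (ZZ a G) (y + 1) s - (Real.exp (-(s ^ 2 * LL 0 (y + 1) / 2)) : ℝ)))
  have h8 := norm_add_le (EBc H (fun c => Complex.exp ((t * TT Q (r + 1 / 2) y c : ℝ) * Complex.I)) -
        EBc H (fun c => Complex.exp ((s * SS (ZZ a G) 0 (y + 1) c : ℝ) * Complex.I)))
      (EBc H (fun c => Complex.exp ((s * SS (ZZ a G) 0 (y + 1) c : ℝ) * Complex.I)) -
        phi (ZZ a G) (y + 1) s)
  linarith

/-! ### Distribution functions -/

open MeasureTheory ProbabilityTheory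

/-- The law of a function of the integral vectors in the box. -/
noncomputable def law (H : ℕ) (T : (ι → ℤ) → ℝ) : Measure ℝ :=
  ∑ c ∈ Pool.Agent.Y722.HS.box ι H, ENNReal.ofReal (1 / (2 * H + 1 : ℝ) ^ Fintype.card ι) •
    Measure.dirac (T c)

theorem law_apply (H : ℕ) (T : (ι → ℤ) → ℝ) (S : Set ℝ) (hS : MeasurableSet S)
    [DecidablePred fun c => T c ∈ S] :
    law H T S = ENNReal.ofReal (((Pool.Agent.Y722.HS.box ι H).filter (fun c => T c ∈ S)).card /
      (2 * H + 1 : ℝ) ^ Fintype.card ι) := by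
  classical
  unfold law
  rw [Measure.finsetSum_apply]
  have h1 : ∀ c ∈ Pool.Agent.Y722.HS.box ι H,
      (ENNReal.ofReal (1 / (2 * H + 1 : ℝ) ^ Fintype.card ι) • Measure.dirac (T c)) S =
      ENNReal.ofReal (if T c ∈ S then 1 / (2 * H + 1 : ℝ) ^ Fintype.card ι else 0) := by
    intro c _
    rw [Measure.smul_apply, Measure.dirac_apply' _ hS, smul_eq_mul]
    by_cases h : T c ∈ S
    · simp [h]
    · simp [h]
  rw [Finset.sum_congr rfl h1, ← ENNReal.ofReal_sum_of_nonneg (fun c _ => by positivity)]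
  congr 1
  rw [Finset.sum_ite, Finset.sum_const_zero, add_zero, Finset.sum_const, nsmul_eq_mul]
  ring

instance law_prob (H : ℕ) (T : (ι → ℤ) → ℝ) : IsProbabilityMeasure (law H T) := by
  classical
  constructor
  rw [law_apply H T Set.univ MeasurableSet.univ]
  have : ((Pool.Agent.Y722.HS.box ι H).filter (fun c => T c ∈ Set.univ)) =
      Pool.Agent.Y722.HS.box ι H := by
    simp
  rw [this, card_box, div_self (by positivity), ENNReal.ofReal_one]

theorem law_char (H : ℕ) (T : (ι → ℤ) → ℝ) (t : ℝ) :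
    charFun (law H T) t = EBc H (fun c => Complex.exp ((t * T c : ℝ) * Complex.I)) := by
  rw [charFun_apply_real]
  unfold law
  rw [integral_finset_sum_measure]
  · unfold EBc
    rw [Finset.sum_div]
    refine Finset.sum_congr rfl fun c _ => ?_
    rw [integral_smul_measure, integral_dirac, ENNReal.toReal_ofReal (by positivity)]
    rw [Complex.real_smul]
    push_cast
    ring
  · intro c _
    apply Integrable.smul_measure _ ENNReal.ofReal_ne_top
    exact integrable_dirac (by simp [enorm_lt_top])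

/-- **The normal law.** -/
theorem Dat.gauss (D : Dat a G r C) (Q : ℕ → (ι → ℤ) → ℝ) (K2 : ℝ)
    (hQ : ∀ y c, |Q y c - logP a G y c| ≤ K2) (u : ℝ) {ε : ℝ} (hε : 0 < ε) :
    ∃ k y0 : ℕ, ∀ y H : ℕ, y0 ≤ y → y ^ k ≤ H →
      |(law H (TT Q (r + 1 / 2) y)).real (Set.Iic u) - (gaussianReal 0 1).real (Set.Iic u)| ≤ ε := by
  by_contra hcon
  push Not at hcon
  choose ys Hs h1 h2 h3 using fun j : ℕ => hcon j j
  set μ : ℕ → ProbabilityMeasure ℝ := fun j => ⟨law (Hs j) (TT Q (r + 1 / 2) (ys j)), inferInstance⟩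
    with hμ
  set ν : ProbabilityMeasure ℝ := ⟨gaussianReal 0 1, inferInstance⟩ with hν
  have hys : Tendsto ys atTop atTop := tendsto_atTop_mono h1 tendsto_id
  have hconv : Tendsto μ atTop (𝓝 ν) := by
    rw [ProbabilityMeasure.tendsto_iff_tendsto_charFun]
    intro t
    rw [hν]
    change Tendsto (fun j => charFun (law (Hs j) (TT Q (r + 1 / 2) (ys j))) t) atTop
      (𝓝 (charFun (gaussianReal 0 1) t))
    rw [charFun_gaussianReal]
    have e : Complex.exp ((t : ℂ) * ((0 : ℝ) : ℂ) * Complex.I - (((1 : NNReal) : ℝ) : ℂ) * t ^ 2 / 2) =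
        ((Real.exp (-(t ^ 2 / 2)) : ℝ) : ℂ) := by
      push_cast
      congr 1
      ring
    rw [e, Metric.tendsto_atTop]
    intro δ hδ
    obtain ⟨k, hk⟩ := D.clt Q K2 hQ t (half_pos hδ)
    have hk2 := hys.eventually hk
    rw [eventually_atTop] at hk2
    obtain ⟨N, hN⟩ := hk2
    refine ⟨max N (k + 1), fun j hj => ?_⟩
    rw [law_char, dist_eq_norm]
    have hj1 : N ≤ j := (le_max_left _ _).trans hj
    have hj2 : k + 1 ≤ j := (le_max_right _ _).trans hj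
    have hpow : ys j ^ k ≤ Hs j := by
      refine le_trans ?_ (h2 j)
      exact Nat.pow_le_pow_right (by have := h1 j; omega) (by omega)
    exact lt_of_le_of_lt (hN j hj1 (Hs j) hpow) (by linarith)
  have hfr : (ν : Measure ℝ) (frontier (Set.Iic u)) = 0 := by
    rw [frontier_Iic]
    change gaussianReal 0 1 {u} = 0
    have := noAtoms_gaussianReal (μ := 0) (v := 1) one_ne_zero
    exact measure_singleton u
  have h4 := ProbabilityMeasure.tendsto_measure_of_null_frontier_of_tendsto' hconv hfr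
  have h5 : Tendsto (fun j => (law (Hs j) (TT Q (r + 1 / 2) (ys j))).real (Set.Iic u)) atTop
      (𝓝 ((gaussianReal 0 1).real (Set.Iic u))) :=
    (ENNReal.tendsto_toReal (measure_ne_top _ _)).comp h4
  rw [Metric.tendsto_atTop] at h5
  obtain ⟨N, hN⟩ := h5 ε hε
  have h6 := hN N le_rfl
  rw [Real.dist_eq] at h6
  have h7 := h3 N
  linarith

end Pool.Agent.X280.BP
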