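import Pool.Agent.X280.BP.Fam
import Pool.Agent.W165.CE.FF

/-!
# Families of Weierstrass curves with marked points
-/

set_option autoImplicit false
set_option linter.unusedSimpArgs false

namespace Pool.Agent.X280.BP

open Finset Pool.Agent.Y722.HS

/-- `y² = x³ + a x + b`. -/
def V0 {R : Type*} [CommRing R] (c : Fin 2 → R) : WeierstrassCurve R := ⟨0, 0, 0, c 0, c 1⟩

/-- The curves with the point `(0, 0)`: `y² + a x y + b y = x³ + c x² + d x`. -/
def V1 {R : Type*} [CommRing R] (c : Fin 4 → R) : WeierstrassCurve R := ⟨c 0, c 1, c 2, c 3, 0⟩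

/-- The curves `y² + (a x + b) y = x (x - 1) (x + c)` with the points `(0, 0)` and `(1, 0)`. -/
def V2 {R : Type*} [CommRing R] (c : Fin 3 → R) : WeierstrassCurve R :=
  ⟨c 0, c 2 - 1, c 1, -c 2, 0⟩

section
variable {p : ℕ} [hp : Fact p.Prime]

theorem roots_four (s e4 e3 e2 e1 e0 : ZMod p) (he : e4 ≠ 0 ∨ e3 ≠ 0 ∨ e2 ≠ 0) (Q : ZMod p → Prop)
    [DecidablePred Q]
    (hQ : ∀ t, Q t → e4 * (t + s) ^ 4 + e3 * (t + s) ^ 3 + e2 * (t + s) ^ 2 + e1 * (t + s) + e0 = 0) :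
    (univ.filter Q).card ≤ 4 := by
  classical
  set P : Polynomial (ZMod p) := Polynomial.C e4 * Polynomial.X ^ 4 +
    Polynomial.C e3 * Polynomial.X ^ 3 + Polynomial.C e2 * Polynomial.X ^ 2 +
    Polynomial.C e1 * Polynomial.X + Polynomial.C e0 with hP
  have hc4 : P.coeff 4 = e4 := by
    rw [hP]
    simp [Polynomial.coeff_X, Polynomial.coeff_C]
  have hc3 : P.coeff 3 = e3 := by
    rw [hP]
    simp [Polynomial.coeff_X, Polynomial.coeff_C]
  have hc2 : P.coeff 2 = e2 := by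
    rw [hP]
    simp [Polynomial.coeff_X, Polynomial.coeff_C]
  have hP0 : P ≠ 0 := by
    intro h
    rw [h, Polynomial.coeff_zero] at hc4 hc3 hc2
    rcases he with h1 | h1 | h1
    · exact h1 hc4.symm
    · exact h1 hc3.symm
    · exact h1 hc2.symm
  have hdeg : P.natDegree ≤ 4 := by
    rw [hP]
    compute_degree
  have h1 : ((univ.filter Q).image (fun t => t + s)).card = (univ.filter Q).card :=
    Finset.card_image_of_injective _ (add_left_injective s)
  rw [← h1]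
  have h2 : (univ.filter Q).image (fun t => t + s) ⊆ P.roots.toFinset := by
    intro u hu
    rw [Finset.mem_image] at hu
    obtain ⟨t, ht, rfl⟩ := hu
    rw [Finset.mem_filter] at ht
    rw [Multiset.mem_toFinset, Polynomial.mem_roots hP0, Polynomial.IsRoot.def, hP]
    simp only [Polynomial.eval_add, Polynomial.eval_mul, Polynomial.eval_C, Polynomial.eval_pow,
      Polynomial.eval_X]
    exact hQ t ht.2
  calc _ ≤ P.roots.toFinset.card := Finset.card_le_card h2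
    _ ≤ Multiset.card P.roots := Multiset.toFinset_card_le _
    _ ≤ P.natDegree := Polynomial.card_roots' P
    _ ≤ 4 := hdeg

theorem two_ne (h5 : 5 ≤ p) : (2 : ZMod p) ≠ 0 := (char_ne (six_ne h5)).1

theorem four_ne (h5 : 5 ≤ p) : (4 : ZMod p) ≠ 0 := by
  rw [show (4 : ZMod p) = 2 * 2 by norm_num]
  exact mul_ne_zero (two_ne h5) (two_ne h5)

open Classical in
theorem few0 (h5 : 5 ≤ p) :
    EM p (fun c : Fin 2 → ZMod p => if (V0 c).Δ ≠ 0 then (0 : ℝ) else 1) ≤ 4 / p := by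
  have h := EM_few (fun c : Fin 2 → ZMod p => (V0 c).Δ = 0) ![0, 1] 4 (by
    intro c
    refine roots_four (c 1) 0 0 (-432) 0 (-64 * c 0 ^ 3) (Or.inr (Or.inr ?_)) _ ?_
    · rw [show (-432 : ZMod p) = -(2 ^ 4 * 3 ^ 3) by norm_num]
      obtain ⟨h2, h3, _⟩ := char_ne (six_ne (p := p) h5)
      exact neg_ne_zero.mpr (mul_ne_zero (pow_ne_zero _ h2) (pow_ne_zero _ h3))
    · intro t ht
      refine Eq.trans ?_ ht
      simp only [V0, WeierstrassCurve.Δ, WeierstrassCurve.b₂, WeierstrassCurve.b₄,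
        WeierstrassCurve.b₆, WeierstrassCurve.b₈, Pi.add_apply, Pi.smul_apply, smul_eq_mul,
        Matrix.cons_val_zero, Matrix.cons_val_one, mul_zero, mul_one]
      ring)
  refine le_trans (le_of_eq ?_) (h.trans (le_of_eq (by norm_num)))
  congr 1
  funext c
  by_cases hc : (V0 c).Δ = 0
  · simp [hc]
  · simp [hc]

theorem mark0 (h5 : 5 ≤ p) : Mark (fun c : Fin 2 → ZMod p => V0 c) ∅ where
  p1 := by
    intro x _
    refine ⟨![0, 1], 4, four_ne h5, fun c t => ?_, fun z hz => absurd hz (Finset.notMem_empty z)⟩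
    simp only [gg, V0, Pi.add_apply, Pi.smul_apply, smul_eq_mul, Matrix.cons_val_zero,
      Matrix.cons_val_one, mul_zero, mul_one]
    ring
  p3 := fun z hz => absurd hz (Finset.notMem_empty z)

theorem off0 (h5 : 5 ≤ p) : ∀ x ∉ (∅ : Finset (ZMod p)), ∀ x' ∉ (∅ : Finset (ZMod p)), x ≠ x' →
    ∃ (d : Fin 2 → ZMod p) (s : ZMod p), s ≠ 0 ∧
      (∀ c t, gg (V0 (c + t • d)) x = gg (V0 c) x + t * s) ∧
      ∀ c (t : ZMod p), gg (V0 (c + t • d)) x' = gg (V0 c) x' := by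
  intro x _ x' _ hxx
  refine ⟨![1, -x'], 4 * (x - x'), mul_ne_zero (four_ne h5) (sub_ne_zero.mpr hxx), fun c t => ?_,
    fun c t => ?_⟩
  · simp only [gg, V0, Pi.add_apply, Pi.smul_apply, smul_eq_mul, Matrix.cons_val_zero,
      Matrix.cons_val_one, mul_zero, mul_one]
    ring
  · simp only [gg, V0, Pi.add_apply, Pi.smul_apply, smul_eq_mul, Matrix.cons_val_zero,
      Matrix.cons_val_one, mul_zero, mul_one]
    ring

open Classical in
theorem few1 (h5 : 5 ≤ p) :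
    EM p (fun c : Fin 4 → ZMod p => if (V1 c).Δ ≠ 0 then (0 : ℝ) else 1) ≤ 4 / p := by
  have h := EM_few (fun c : Fin 4 → ZMod p => (V1 c).Δ = 0) ![0, 0, 0, 1] 4 (by
    intro c
    refine roots_four (c 3) 0 (-64) ((c 0 ^ 2 + 4 * c 1) ^ 2 - 96 * c 0 * c 2)
      ((c 0 ^ 2 + 4 * c 1) ^ 2 * c 0 * c 2 - 48 * c 0 ^ 2 * c 2 ^ 2 +
        18 * (c 0 ^ 2 + 4 * c 1) * c 2 ^ 2)
      (-(c 0 ^ 2 + 4 * c 1) ^ 2 * c 1 * c 2 ^ 2 - 8 * c 0 ^ 3 * c 2 ^ 3 - 27 * c 2 ^ 4 +
        9 * (c 0 ^ 2 + 4 * c 1) * c 0 * c 2 ^ 3) (Or.inr (Or.inl ?_)) _ ?_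
    · rw [show (-64 : ZMod p) = -(2 ^ 6) by norm_num]
      exact neg_ne_zero.mpr (pow_ne_zero _ (two_ne h5))
    · intro t ht
      refine Eq.trans ?_ ht
      simp only [V1, WeierstrassCurve.Δ, WeierstrassCurve.b₂, WeierstrassCurve.b₄,
        WeierstrassCurve.b₆, WeierstrassCurve.b₈, Pi.add_apply, Pi.smul_apply, smul_eq_mul,
        Matrix.cons_val]
      ring)
  refine le_trans (le_of_eq ?_) (h.trans (le_of_eq (by norm_num)))
  congr 1
  funext c
  by_cases hc : (V1 c).Δ = 0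
  · simp [hc]
  · simp [hc]

theorem mark1 (h5 : 5 ≤ p) : Mark (fun c : Fin 4 → ZMod p => V1 c) {0} where
  p1 := by
    intro x hx
    rw [Finset.mem_singleton] at hx
    refine ⟨![0, 0, 0, 1], 4 * x, mul_ne_zero (four_ne h5) hx, fun c t => ?_, fun z hz c t => ?_⟩
    · simp only [gg, V1, Pi.add_apply, Pi.smul_apply, smul_eq_mul, Matrix.cons_val]
      ring
    · rw [Finset.mem_singleton] at hz
      rw [hz]
      simp only [gg, V1, Pi.add_apply, Pi.smul_apply, smul_eq_mul, Matrix.cons_val]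
      ring
  p3 := by
    intro z hz
    rw [Finset.mem_singleton] at hz
    refine ⟨fun c => c 2, ![0, 0, 1, 0], 1, one_ne_zero, fun c => ?_, fun c t => ?_⟩
    · rw [hz]
      simp only [gg, V1]
      ring
    · simp only [Pi.add_apply, Pi.smul_apply, smul_eq_mul, Matrix.cons_val]

theorem off1 (h5 : 5 ≤ p) : ∀ x ∉ ({0} : Finset (ZMod p)), ∀ x' ∉ ({0} : Finset (ZMod p)), x ≠ x' →
    ∃ (d : Fin 4 → ZMod p) (s : ZMod p), s ≠ 0 ∧
      (∀ c t, gg (V1 (c + t • d)) x = gg (V1 c) x + t * s) ∧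
      ∀ c (t : ZMod p), gg (V1 (c + t • d)) x' = gg (V1 c) x' := by
  intro x hx x' _ hxx
  rw [Finset.mem_singleton] at hx
  refine ⟨![0, 1, 0, -x'], 4 * x * (x - x'), mul_ne_zero (mul_ne_zero (four_ne h5) hx)
    (sub_ne_zero.mpr hxx), fun c t => ?_, fun c t => ?_⟩
  · simp only [gg, V1, Pi.add_apply, Pi.smul_apply, smul_eq_mul, Matrix.cons_val]
    ring
  · simp only [gg, V1, Pi.add_apply, Pi.smul_apply, smul_eq_mul, Matrix.cons_val]
    ring

open Classical in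
theorem few2 (h5 : 5 ≤ p) :
    EM p (fun c : Fin 3 → ZMod p => if (V2 c).Δ ≠ 0 then (0 : ℝ) else 1) ≤ 4 / p := by
  have h := EM_few (fun c : Fin 3 → ZMod p => (V2 c).Δ = 0) ![0, 0, 1] 4 (by
    intro c
    refine roots_four (c 2) 16 (8 * (c 0 ^ 2 - 4) - 16 * (c 0 * c 1 + c 1 ^ 2) + 64)
      ((c 0 ^ 2 - 4) ^ 2 - 8 * (c 0 ^ 2 - 4) * (c 0 * c 1 + c 1 ^ 2) + 16 * c 1 ^ 2 -
        96 * c 0 * c 1 - 72 * c 1 ^ 2)
      (-(c 0 ^ 2 - 4) ^ 2 * (c 0 * c 1 + c 1 ^ 2) + 8 * (c 0 ^ 2 - 4) * c 1 ^ 2 +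
        48 * c 0 ^ 2 * c 1 ^ 2 + 9 * c 1 ^ 2 * (4 * c 0 * c 1 - 2 * (c 0 ^ 2 - 4)))
      ((c 0 ^ 2 - 4) ^ 2 * c 1 ^ 2 - 8 * c 0 ^ 3 * c 1 ^ 3 - 27 * c 1 ^ 4 +
        9 * (c 0 ^ 2 - 4) * c 0 * c 1 ^ 3) (Or.inl ?_) _ ?_
    · rw [show (16 : ZMod p) = 2 ^ 4 by norm_num]
      exact pow_ne_zero _ (two_ne h5)
    · intro t ht
      refine Eq.trans ?_ ht
      simp only [V2, WeierstrassCurve.Δ, WeierstrassCurve.b₂, WeierstrassCurve.b₄,
        WeierstrassCurve.b₆, WeierstrassCurve.b₈, Pi.add_apply, Pi.smul_apply, smul_eq_mul,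
        Matrix.cons_val]
      ring)
  refine le_trans (le_of_eq ?_) (h.trans (le_of_eq (by norm_num)))
  congr 1
  funext c
  by_cases hc : (V2 c).Δ = 0
  · simp [hc]
  · simp [hc]

theorem mark2 (h5 : 5 ≤ p) : Mark (fun c : Fin 3 → ZMod p => V2 c) {0, 1} where
  p1 := by
    intro x hx
    rw [Finset.mem_insert, Finset.mem_singleton, not_or] at hx
    refine ⟨![0, 0, 1], 4 * x * (x - 1), mul_ne_zero (mul_ne_zero (four_ne h5) hx.1)
      (sub_ne_zero.mpr hx.2), fun c t => ?_, fun z hz c t => ?_⟩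
    · simp only [gg, V2, Pi.add_apply, Pi.smul_apply, smul_eq_mul, Matrix.cons_val]
      ring
    · rw [Finset.mem_insert, Finset.mem_singleton] at hz
      rcases hz with hz | hz
      · rw [hz]
        simp only [gg, V2, Pi.add_apply, Pi.smul_apply, smul_eq_mul, Matrix.cons_val]
        ring
      · rw [hz]
        simp only [gg, V2, Pi.add_apply, Pi.smul_apply, smul_eq_mul, Matrix.cons_val]
        ring
  p3 := by
    intro z hz
    rw [Finset.mem_insert, Finset.mem_singleton] at hz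
    rcases hz with hz | hz
    · refine ⟨fun c => c 1, ![0, 1, 0], 1, one_ne_zero, fun c => ?_, fun c t => ?_⟩
      · rw [hz]
        simp only [gg, V2]
        ring
      · simp only [Pi.add_apply, Pi.smul_apply, smul_eq_mul, Matrix.cons_val]
    · refine ⟨fun c => c 0 + c 1, ![0, 1, 0], 1, one_ne_zero, fun c => ?_, fun c t => ?_⟩
      · rw [hz]
        simp only [gg, V2]
        ring
      · simp only [Pi.add_apply, Pi.smul_apply, smul_eq_mul, Matrix.cons_val]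
        ring

end

end Pool.Agent.X280.BP
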