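import Pool.Agent.X280.BP.Avg

/-!
# The limits of the averages of products over distinct primes
-/

set_option autoImplicit false
set_option linter.unusedSimpArgs false

namespace Pool.Agent.X280.BP

open Finset Filter Topology Pool.Agent.Y722.HS

variable {ι : Type} [Fintype ι] [DecidableEq ι]

/-- The average of a complex function over the box. -/
noncomputable def EBc (H : ℕ) (f : (ι → ℤ) → ℂ) : ℂ :=
  (∑ c ∈ Pool.Agent.Y722.HS.box ι H, f c) / ((2 * H + 1 : ℝ) ^ Fintype.card ι : ℝ)

/-- The average of a complex function over the vectors modulo `p`. -/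
noncomputable def EMc (p : ℕ) [NeZero p] (f : (ι → ZMod p) → ℂ) : ℂ :=
  (∑ c, f c) / ((p : ℝ) ^ Fintype.card ι : ℝ)

theorem EBc_re (H : ℕ) (f : (ι → ℤ) → ℂ) : (EBc H f).re = EB H (fun c => (f c).re) := by
  unfold EBc EB
  rw [Complex.div_ofReal_re, Complex.re_sum]

theorem EBc_im (H : ℕ) (f : (ι → ℤ) → ℂ) : (EBc H f).im = EB H (fun c => (f c).im) := by
  unfold EBc EB
  rw [Complex.div_ofReal_im, Complex.im_sum]

theorem EMc_re (p : ℕ) [NeZero p] (f : (ι → ZMod p) → ℂ) :
    (EMc p f).re = EM p (fun c => (f c).re) := by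
  unfold EMc EM
  rw [Complex.div_ofReal_re, Complex.re_sum]

theorem EMc_im (p : ℕ) [NeZero p] (f : (ι → ZMod p) → ℂ) :
    (EMc p f).im = EM p (fun c => (f c).im) := by
  unfold EMc EM
  rw [Complex.div_ofReal_im, Complex.im_sum]

theorem EBc_ofReal (H : ℕ) (f : (ι → ℤ) → ℝ) : EBc H (fun c => (f c : ℂ)) = (EB H f : ℝ) := by
  unfold EBc EB
  push_cast
  rfl

theorem EMc_ofReal (p : ℕ) [NeZero p] (f : (ι → ZMod p) → ℝ) :
    EMc p (fun c => (f c : ℂ)) = (EM p f : ℝ) := by
  unfold EMc EM
  push_cast
  rfl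

theorem tendsto_ratio (a : ℝ) : Tendsto (fun H : ℕ => a / (2 * (H : ℝ) + 1)) atTop (𝓝 0) := by
  apply Tendsto.div_atTop tendsto_const_nhds
  exact tendsto_atTop_add_const_right _ _
    (Tendsto.const_mul_atTop (by norm_num) tendsto_natCast_atTop_atTop)

theorem lim_two (p q : ℕ) [NeZero p] [NeZero q] (hpq : Nat.Coprime p q)
    (f : (ι → ZMod p) → ℝ) (g : (ι → ZMod q) → ℝ) :
    Tendsto (fun H => EB H (fun c => f (red p c) * g (red q c))) atTop (𝓝 (EM p f * EM q g)) := by
  rw [tendsto_iff_norm_sub_tendsto_zero]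
  have h0 : Tendsto (fun H : ℕ => 2 ^ Fintype.card ι * ((p : ℝ) * q / (2 * H + 1)) *
      (EM p (fun r => |f r|) * EM q (fun r => |g r|))) atTop (𝓝 0) := by
    have := ((tendsto_ratio ((p : ℝ) * q)).const_mul ((2 : ℝ) ^ Fintype.card ι)).mul_const
      (EM p (fun r => |f r|) * EM q (fun r => |g r|))
    simpa using this
  refine squeeze_zero' (Eventually.of_forall fun H => norm_nonneg _) ?_ h0
  filter_upwards [eventually_ge_atTop (p * q)] with H hH
  rw [Real.norm_eq_abs]
  exact EB_two H p q hpq (by omega) f g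

theorem lim_two_c (p q : ℕ) [NeZero p] [NeZero q] (hpq : Nat.Coprime p q)
    (f : (ι → ZMod p) → ℂ) (g : (ι → ZMod q) → ℂ) :
    Tendsto (fun H => EBc H (fun c => f (red p c) * g (red q c))) atTop
      (𝓝 (EMc p f * EMc q g)) := by
  have e : ∀ H : ℕ, EBc H (fun c => f (red p c) * g (red q c)) =
      ((EB H (fun c => (f (red p c)).re * (g (red q c)).re) -
        EB H (fun c => (f (red p c)).im * (g (red q c)).im) : ℝ) : ℂ) +
      ((EB H (fun c => (f (red p c)).re * (g (red q c)).im) +
        EB H (fun c => (f (red p c)).im * (g (red q c)).re) : ℝ) : ℂ) * Complex.I := by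
    intro H
    apply Complex.ext
    · rw [EBc_re]
      simp only [Complex.mul_re, Complex.add_re, Complex.ofReal_re, Complex.ofReal_im,
        Complex.I_re, Complex.I_im, mul_zero, zero_mul, sub_zero, mul_one, Complex.mul_im,
        Complex.add_im]
      rw [EB_sub]
      ring
    · rw [EBc_im]
      simp only [Complex.mul_re, Complex.add_re, Complex.ofReal_re, Complex.ofReal_im,
        Complex.I_re, Complex.I_im, mul_zero, zero_mul, sub_zero, mul_one, Complex.mul_im,
        Complex.add_im]
      unfold EB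
      rw [Finset.sum_add_distrib]
      ring
  have e2 : EMc p f * EMc q g = ((EM p (fun c => (f c).re) * EM q (fun c => (g c).re) -
        EM p (fun c => (f c).im) * EM q (fun c => (g c).im) : ℝ) : ℂ) +
      ((EM p (fun c => (f c).re) * EM q (fun c => (g c).im) +
        EM p (fun c => (f c).im) * EM q (fun c => (g c).re) : ℝ) : ℂ) * Complex.I := by
    apply Complex.ext
    · simp only [Complex.mul_re, Complex.add_re, Complex.ofReal_re, Complex.ofReal_im,
        Complex.I_re, Complex.I_im, mul_zero, zero_mul, sub_zero, mul_one, Complex.mul_im,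
        Complex.add_im, EMc_re, EMc_im]
      ring
    · simp only [Complex.mul_re, Complex.add_re, Complex.ofReal_re, Complex.ofReal_im,
        Complex.I_re, Complex.I_im, mul_zero, zero_mul, sub_zero, mul_one, Complex.mul_im,
        Complex.add_im, EMc_re, EMc_im]
      ring
  simp only [e]
  rw [e2]
  have h1 := lim_two p q hpq (fun r => (f r).re) (fun r => (g r).re)
  have h2 := lim_two p q hpq (fun r => (f r).im) (fun r => (g r).im)
  have h3 := lim_two p q hpq (fun r => (f r).re) (fun r => (g r).im)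
  have h4 := lim_two p q hpq (fun r => (f r).im) (fun r => (g r).re)
  have h5 := (Complex.continuous_ofReal.tendsto _).comp (h1.sub h2)
  have h6 := (Complex.continuous_ofReal.tendsto _).comp (h3.add h4)
  exact h5.add (h6.mul_const Complex.I)

theorem EMc_one1 : EMc 1 (fun _ : ι → ZMod 1 => (1 : ℂ)) = 1 := by
  have := EMc_ofReal (ι := ι) 1 (fun _ => (1 : ℝ))
  rw [EM_one1] at this
  simpa using this

theorem lim_one_c (p : ℕ) [NeZero p] (f : (ι → ZMod p) → ℂ) :
    Tendsto (fun H => EBc H (fun c => f (red p c))) atTop (𝓝 (EMc p f)) := by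
  have := lim_two_c p 1 (Nat.coprime_one_right p) f (fun _ => (1 : ℂ))
  rw [EMc_one1] at this
  simpa using this

/-- The average modulo a prime, `0` if the modulus is `0`. -/
noncomputable def Ep (p : ℕ) (f : (ι → ZMod p) → ℂ) : ℂ :=
  if h : p = 0 then 0 else
    haveI : NeZero p := ⟨h⟩
    EMc p f

theorem Ep_eq (p : ℕ) [NeZero p] (f : (ι → ZMod p) → ℂ) : Ep p f = EMc p f := by
  unfold Ep
  rw [dif_neg (NeZero.ne p)]

/-- **The limit of the average of a product over distinct primes.** -/
theorem lim_prod_c (I : Finset ℕ) (hI : ∀ p ∈ I, p.Prime) (f : ∀ p : ℕ, (ι → ZMod p) → ℂ) :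
    Tendsto (fun H => EBc H (fun c => ∏ p ∈ I, f p (red p c))) atTop (𝓝 (∏ p ∈ I, Ep p (f p))) := by
  induction I using Finset.induction_on with
  | empty =>
    have := lim_one_c (ι := ι) 1 (fun _ => (1 : ℂ))
    rw [EMc_one1] at this
    simpa using this
  | insert q I hq ih =>
    have ih' := ih fun p hp => hI p (Finset.mem_insert_of_mem hp)
    have hqp : q.Prime := hI q (Finset.mem_insert_self q I)
    have hM0 : ∏ p ∈ I, p ≠ 0 := Finset.prod_ne_zero_iff.mpr fun p hp =>
      (hI p (Finset.mem_insert_of_mem hp)).ne_zero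
    set M := ∏ p ∈ I, p with hM
    have : NeZero M := ⟨hM0⟩
    have : NeZero q := ⟨hqp.ne_zero⟩
    set F : (ι → ZMod M) → ℂ := fun r => ∏ p ∈ I, f p (fun j => ((r j).cast : ZMod p)) with hF
    have h1 : ∀ c : ι → ℤ, ∏ p ∈ I, f p (red p c) = F (red M c) := by
      intro c
      rw [hF]
      refine Finset.prod_congr rfl fun p hp => ?_
      congr 1
      funext j
      unfold red
      have hd : p ∣ M := Finset.dvd_prod_of_mem (fun x => x) hp
      rw [ZMod.cast_intCast hd]
    have hcop : Nat.Coprime q M := by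
      rw [hM]
      refine Nat.Coprime.prod_right fun p hp => ?_
      refine (Nat.coprime_primes hqp (hI p (Finset.mem_insert_of_mem hp))).mpr ?_
      rintro rfl
      exact hq hp
    simp only [h1] at ih'
    have h2 : EMc M F = ∏ p ∈ I, Ep p (f p) := tendsto_nhds_unique (lim_one_c M F) ih'
    have h3 := lim_two_c q M hcop (f q) F
    rw [Finset.prod_insert hq, Ep_eq, ← h2]
    refine h3.congr fun H => ?_
    congr 1
    funext c
    rw [Finset.prod_insert hq, h1]

end Pool.Agent.X280.BP
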