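import Pool.Agent.X280.BP.Uniform
import Pool.Agent.Erdos456.Mertens

/-!
# Local data of a family of elliptic curves
-/

set_option autoImplicit false

namespace Pool.Agent.X280.BP

open Finset Filter Topology Pool.Agent.Y722.HS

variable {ι : Type} [Fintype ι] [DecidableEq ι]

theorem EM_add' (p : ℕ) [NeZero p] (f g : (ι → ZMod p) → ℝ) :
    EM p (fun c => f c + g c) = EM p f + EM p g := by
  unfold EM
  rw [Finset.sum_add_distrib, add_div]

theorem EM_sub' (p : ℕ) [NeZero p] (f g : (ι → ZMod p) → ℝ) :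
    EM p (fun c => f c - g c) = EM p f - EM p g := by
  unfold EM
  rw [Finset.sum_sub_distrib, sub_div]

theorem EM_mul' (p : ℕ) [NeZero p] (t : ℝ) (f : (ι → ZMod p) → ℝ) :
    EM p (fun c => t * f c) = t * EM p f := by
  unfold EM
  rw [← Finset.mul_sum, mul_div_assoc]

theorem EM_const' (p : ℕ) [NeZero p] (t : ℝ) : EM p (fun _ : ι → ZMod p => t) = t := by
  have hM : (0 : ℝ) < p := by exact_mod_cast Nat.pos_of_ne_zero (NeZero.ne p)
  unfold EM
  rw [Finset.sum_const, nsmul_eq_mul, Finset.card_univ, Fintype.card_fun, ZMod.card]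
  push_cast
  field_simp

theorem EM_mono' (p : ℕ) [NeZero p] (f g : (ι → ZMod p) → ℝ) (h : ∀ c, f c ≤ g c) :
    EM p f ≤ EM p g := by
  unfold EM
  gcongr
  exact h _

theorem EM_abs_le (p : ℕ) [NeZero p] (f g : (ι → ZMod p) → ℝ) (h : ∀ c, |f c| ≤ g c) :
    |EM p f| ≤ EM p g := by
  rw [abs_le]
  constructor
  · have h1 := EM_mono' p (fun c => (-1) * g c) f fun c => by
      have := (abs_le.mp (h c)).1; linarith
    rw [EM_mul'] at h1
    linarith
  · exact EM_mono' p f g fun c => (abs_le.mp (h c)).2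

open Classical in
/-- Local data: `a` is the trace of the Frobenius, `G` the condition of good reduction. -/
structure Dat (a : ∀ p : ℕ, (ι → ZMod p) → ℝ) (G : ∀ p : ℕ, (ι → ZMod p) → Prop) (r C : ℝ) :
    Prop where
  C1 : 1 ≤ C
  hasse : ∀ p : ℕ, p.Prime → 5 ≤ p → ∀ c, |a p c| ≤ 2 * √p
  bad : ∀ p : ℕ, p.Prime → 5 ≤ p → ∀ c, ¬ G p c → |a p c| ≤ 1
  mean : ∀ p : ℕ, p.Prime → 5 ≤ p → ∀ [NeZero p], |EM p (a p) + r| ≤ C / √p
  sq : ∀ p : ℕ, p.Prime → 5 ≤ p → ∀ [NeZero p], |EM p (fun c => a p c ^ 2) - p| ≤ C * √p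
  few : ∀ p : ℕ, p.Prime → 5 ≤ p → ∀ [NeZero p],
    EM p (fun c => if G p c then (0 : ℝ) else 1) ≤ C / √p

open Classical in
/-- The main part of the logarithm. -/
noncomputable def uu (a : ∀ p : ℕ, (ι → ZMod p) → ℝ) (G : ∀ p : ℕ, (ι → ZMod p) → Prop) (p : ℕ)
    (c : ι → ZMod p) : ℝ :=
  if G p c then a p c / p + (a p c ^ 2 - 2 * p) / (2 * p ^ 2) else 0

/-- Its mean value. -/
noncomputable def mu (a : ∀ p : ℕ, (ι → ZMod p) → ℝ) (G : ∀ p : ℕ, (ι → ZMod p) → Prop) (p : ℕ) :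
    ℝ :=
  if h : p ≠ 0 then
    haveI : NeZero p := ⟨h⟩
    EM p (uu a G p) else 0

/-- The centred local data. -/
noncomputable def ZZ (a : ∀ p : ℕ, (ι → ZMod p) → ℝ) (G : ∀ p : ℕ, (ι → ZMod p) → Prop) (p : ℕ)
    (c : ι → ZMod p) : ℝ :=
  if 5 ≤ p then uu a G p c - mu a G p else 0

variable {a : ∀ p : ℕ, (ι → ZMod p) → ℝ} {G : ∀ p : ℕ, (ι → ZMod p) → Prop} {r C : ℝ}

theorem mu_eq (p : ℕ) [NeZero p] : mu a G p = EM p (uu a G p) := by
  unfold mu
  rw [dif_pos (NeZero.ne p)]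

theorem sqrt_facts {p : ℕ} (hp : p.Prime) (h5 : 5 ≤ p) :
    0 < √(p : ℝ) ∧ √(p : ℝ) * √(p : ℝ) = p ∧ 1 ≤ √(p : ℝ) ∧ √(p : ℝ) ≤ p ∧ (0 : ℝ) < p ∧
      2 ≤ √(p : ℝ) := by
  have hp0 : (0 : ℝ) < p := by exact_mod_cast hp.pos
  have h1 : √(p : ℝ) * √(p : ℝ) = p := Real.mul_self_sqrt hp0.le
  have h2 : 2 ≤ √(p : ℝ) := by
    apply Real.le_sqrt_of_sq_le
    have : (5 : ℝ) ≤ p := by exact_mod_cast h5
    linarith
  refine ⟨by positivity, h1, by linarith, by nlinarith, hp0, h2⟩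

theorem Dat.uu_le (D : Dat a G r C) {p : ℕ} (hp : p.Prime) (h5 : 5 ≤ p) (c : ι → ZMod p) :
    |uu a G p c| ≤ 5 / √p := by
  obtain ⟨h0, h1, h2, h3, h4, h6⟩ := sqrt_facts hp h5
  unfold uu
  split_ifs with hG
  · have ha := D.hasse p hp h5 c
    set s := √(p : ℝ) with hs
    have ha2 : a p c ^ 2 ≤ 4 * p := by
      have := sq_le_sq' (by have := (abs_le.mp ha).1; linarith) (abs_le.mp ha).2
      calc a p c ^ 2 ≤ (2 * s) ^ 2 := this
        _ = 4 * (s * s) := by ring
        _ = 4 * p := by rw [h1]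
    have k1 : |a p c / p| ≤ 2 / s := by
      rw [abs_div, abs_of_pos h4, div_le_div_iff₀ h4 h0]
      calc |a p c| * s ≤ 2 * s * s := by gcongr
        _ = 2 * p := by rw [mul_assoc, h1]
    have k2 : |(a p c ^ 2 - 2 * (p : ℝ)) / (2 * (p : ℝ) ^ 2)| ≤ 3 / s := by
      rw [abs_div, abs_of_pos (by positivity : (0 : ℝ) < 2 * p ^ 2), div_le_div_iff₀ (by positivity) h0]
      have : |a p c ^ 2 - 2 * (p : ℝ)| ≤ 4 * (p : ℝ) := by
        rw [abs_le]
        constructor
        · nlinarith [sq_nonneg (a p c)]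
        · nlinarith
      calc |a p c ^ 2 - 2 * (p : ℝ)| * s ≤ 4 * (p : ℝ) * p := by gcongr
        _ ≤ 3 * (2 * (p : ℝ) ^ 2) := by nlinarith
    calc |a p c / p + (a p c ^ 2 - 2 * p) / (2 * p ^ 2)| ≤ _ := abs_add_le _ _
      _ ≤ 2 / s + 3 / s := add_le_add k1 k2
      _ = 5 / s := by ring
  · rw [abs_zero]; positivity

theorem Dat.mu_le (D : Dat a G r C) {p : ℕ} (hp : p.Prime) (h5 : 5 ≤ p) :
    |mu a G p| ≤ 5 / √p := by
  have : NeZero p := ⟨hp.ne_zero⟩
  rw [mu_eq]
  refine (EM_abs_le p (uu a G p) (fun _ => 5 / √p) fun c => D.uu_le hp h5 c).trans ?_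
  rw [EM_const']

theorem Dat.sys (D : Dat a G r C) : Sys (ZZ a G) 10 where
  one_le := by norm_num
  bd := by
    intro p hp c
    unfold ZZ
    split_ifs with h5
    · calc |uu a G p c - mu a G p| ≤ |uu a G p c| + |mu a G p| := abs_sub _ _
        _ ≤ 5 / √p + 5 / √p := add_le_add (D.uu_le hp h5 c) (D.mu_le hp h5)
        _ = 10 / √p := by ring
    · rw [abs_zero]; positivity
  mean := by
    intro p hp _
    unfold ZZ
    split_ifs with h5
    · rw [EM_sub', EM_const', mu_eq, sub_self]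
    · exact EM_const' p 0

/-- The value of the mean. -/
theorem Dat.mu_val (D : Dat a G r C) {p : ℕ} (hp : p.Prime) (h5 : 5 ≤ p) :
    |mu a G p + (r + 1 / 2) / p| ≤ 6 * C / (p * √p) := by
  classical
  have : NeZero p := ⟨hp.ne_zero⟩
  obtain ⟨h0, h1, h2, h3, h4, h6⟩ := sqrt_facts hp h5
  rw [mu_eq]
  set s := √(p : ℝ) with hs
  have hC := D.C1
  -- without the indicator
  have e1 : uu a G p = fun c => ((1 / p) * a p c + (1 / (2 * p ^ 2)) * a p c ^ 2 + (-1 / p)) -
      (if G p c then 0 else a p c / p + (a p c ^ 2 - 2 * p) / (2 * p ^ 2)) := by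
    funext c
    unfold uu
    split_ifs
    · field_simp
      ring
    · field_simp
      ring
  rw [e1, EM_sub', EM_add', EM_add', EM_mul', EM_mul', EM_const']
  have k1 := D.mean p hp h5
  have k2 := D.sq p hp h5
  have k3 := D.few p hp h5
  rw [← hs] at k1 k2 k3
  have k4 : |EM p (fun c => if G p c then 0 else a p c / p + (a p c ^ 2 - 2 * p) / (2 * p ^ 2))| ≤
      3 / p * (C / s) := by
    refine (EM_abs_le p _ (fun c => 3 / p * (if G p c then (0 : ℝ) else 1)) fun c => ?_).trans ?_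
    · split_ifs with hG
      · simp
      · have hb := D.bad p hp h5 c hG
        have hb2 : a p c ^ 2 ≤ 1 := by
          have := sq_le_sq' (by have := (abs_le.mp hb).1; linarith) (abs_le.mp hb).2
          linarith
        have k5 : |a p c / p| ≤ 1 / p := by
          rw [abs_div, abs_of_pos h4]
          gcongr
        have k6 : |(a p c ^ 2 - 2 * (p : ℝ)) / (2 * (p : ℝ) ^ 2)| ≤ 2 / (p : ℝ) := by
          rw [abs_div, abs_of_pos (by positivity : (0 : ℝ) < 2 * p ^ 2),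
            div_le_div_iff₀ (by positivity) h4]
          have hp5 : (5 : ℝ) ≤ p := by exact_mod_cast h5
          have : |a p c ^ 2 - 2 * (p : ℝ)| ≤ 2 * (p : ℝ) := by
            rw [abs_le]
            constructor <;> nlinarith [sq_nonneg (a p c)]
          nlinarith
        calc |a p c / p + (a p c ^ 2 - 2 * p) / (2 * p ^ 2)| ≤ _ := abs_add_le _ _
          _ ≤ 1 / p + 2 / p := add_le_add k5 k6
          _ = 3 / p * 1 := by ring
    · rw [EM_mul']
      gcongr
  set m1 := EM p (a p) with hm1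
  set m2 := EM p (fun c => a p c ^ 2) with hm2
  set m3 := EM p (fun c => if G p c then 0 else a p c / p + (a p c ^ 2 - 2 * p) / (2 * p ^ 2))
    with hm3
  have e2 : 1 / (p : ℝ) * m1 + 1 / (2 * p ^ 2) * m2 + -1 / p - m3 + (r + 1 / 2) / p =
      (m1 + r) / p + (m2 - p) / (2 * p ^ 2) - m3 := by
    field_simp
    ring
  rw [e2]
  have k7 : |(m1 + r) / p| ≤ C / (p * s) := by
    rw [abs_div, abs_of_pos h4, div_le_div_iff₀ h4 (by positivity)]
    have := mul_le_mul_of_nonneg_right k1 (show 0 ≤ p * s by positivity)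
    refine this.trans (le_of_eq ?_)
    field_simp
  have k8 : |(m2 - p) / (2 * p ^ 2)| ≤ C / (p * s) := by
    rw [abs_div, abs_of_pos (by positivity : (0 : ℝ) < 2 * p ^ 2),
      div_le_div_iff₀ (by positivity) (by positivity)]
    calc |m2 - p| * (p * s) ≤ C * s * (p * s) := by gcongr
      _ = C * (p * (s * s)) := by ring
      _ = C * (p * p) := by rw [h1]
      _ ≤ C * (2 * p ^ 2) := by nlinarith [mul_nonneg (by linarith : (0 : ℝ) ≤ C) (sq_nonneg (p : ℝ))]
  have k9 : |m3| ≤ 3 * C / (p * s) := by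
    refine k4.trans (le_of_eq ?_)
    field_simp
  have k10 : |(m1 + r) / p + (m2 - p) / (2 * p ^ 2) - m3| ≤
      |(m1 + r) / p| + |(m2 - p) / (2 * p ^ 2)| + |m3| :=
    (abs_sub _ _).trans (add_le_add (abs_add_le _ _) le_rfl)
  have k11 : 0 ≤ C / (p * s) := by positivity
  have e3 : 6 * C / (p * s) = 6 * (C / (p * s)) := by ring
  have e4 : 3 * C / (p * s) = 3 * (C / (p * s)) := by ring
  rw [e3]
  rw [e4] at k9
  linarith

/-- The logarithm of `N_p / p`. -/
theorem log_term {p : ℕ} (hp : p.Prime) (h5 : 5 ≤ p) {t : ℝ} (ht : |t| ≤ 2 * √p) :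
    |Real.log ((p + 1 - t) / p) + (t / p + (t ^ 2 - 2 * p) / (2 * p ^ 2))| ≤
      10000 / (p * √p) := by
  obtain ⟨h0, h1, h2, h3, h4, h6⟩ := sqrt_facts hp h5
  set s := √(p : ℝ) with hs
  have hp5 : (5 : ℝ) ≤ p := by exact_mod_cast h5
  have ht2 : t ^ 2 ≤ 4 * p := by
    have := sq_le_sq' (by have := (abs_le.mp ht).1; linarith) (abs_le.mp ht).2
    calc t ^ 2 ≤ (2 * s) ^ 2 := this
      _ = 4 * (s * s) := by ring
      _ = 4 * p := by rw [h1]
  have hps : (0 : ℝ) < p * s := by positivity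
  by_cases h100 : 100 ≤ p
  · have hp100 : (100 : ℝ) ≤ p := by exact_mod_cast h100
    have hs10 : 10 ≤ s := by
      rw [hs]
      apply Real.le_sqrt_of_sq_le
      linarith
    set u : ℝ := (1 - t) / p with hu
    have e1 : (p + 1 - t) / p = 1 - -u := by rw [hu]; field_simp; ring
    have hu1 : |u| ≤ 3 / s := by
      rw [hu, abs_div, abs_of_pos h4, div_le_div_iff₀ h4 h0]
      have : |1 - t| ≤ 3 * s := by
        have := abs_sub 1 t
        rw [abs_one] at this
        linarith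
      calc |1 - t| * s ≤ 3 * s * s := by gcongr
        _ = 3 * p := by rw [mul_assoc, h1]
    have hu2 : |u| ≤ 3 / 10 := hu1.trans (by gcongr)
    have hu3 := Real.abs_log_sub_add_sum_range_le (x := -u) (by rw [abs_neg]; linarith) 2
    have e2 : ∑ i ∈ range 2, (-u) ^ (i + 1) / ((i : ℝ) + 1) = -u + u ^ 2 / 2 := by
      rw [Finset.sum_range_succ, Finset.sum_range_one]
      norm_num
    rw [e2, abs_neg] at hu3
    have hu4 : |u| ^ (2 + 1) / (1 - |u|) ≤ 54 / (p * s) := by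
      have h7 : (1 : ℝ) / 2 ≤ 1 - |u| := by linarith
      calc |u| ^ (2 + 1) / (1 - |u|) ≤ (3 / s) ^ 3 / (1 / 2) := by gcongr
        _ = 54 / (s * s * s) := by field_simp; norm_num
        _ = 54 / (p * s) := by rw [h1]
    have e3 : Real.log ((p + 1 - t) / p) + (t / p + (t ^ 2 - 2 * p) / (2 * p ^ 2)) =
        (-u + u ^ 2 / 2 + Real.log (1 - -u)) + (2 * t - 1) / (2 * p ^ 2) := by
      rw [e1, hu]
      field_simp
      ring
    rw [e3]
    have h8 : |(2 * t - 1) / (2 * (p : ℝ) ^ 2)| ≤ 3 / (p * s) := by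
      rw [abs_div, abs_of_pos (by positivity : (0 : ℝ) < 2 * p ^ 2),
        div_le_div_iff₀ (by positivity) hps]
      have h9 : |2 * t - 1| ≤ 5 * s := by
        have := abs_sub (2 * t) 1
        rw [abs_one, abs_mul, abs_two] at this
        linarith
      calc |2 * t - 1| * (p * s) ≤ 5 * s * (p * s) := by gcongr
        _ = 5 * p * (s * s) := by ring
        _ = 5 * p * p := by rw [h1]
        _ ≤ 3 * (2 * p ^ 2) := by nlinarith
    calc _ ≤ |-u + u ^ 2 / 2 + Real.log (1 - -u)| + |(2 * t - 1) / (2 * (p : ℝ) ^ 2)| :=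
          abs_add_le _ _
      _ ≤ 54 / (p * s) + 3 / (p * s) := add_le_add (hu3.trans hu4) h8
      _ = 57 / (p * s) := by ring
      _ ≤ 10000 / (p * s) := by gcongr; norm_num
  · push Not at h100
    have hp100 : (p : ℝ) ≤ 100 := by exact_mod_cast h100.le
    have hs10 : s ≤ 10 := by
      rw [hs]
      apply Real.sqrt_le_iff.mpr
      constructor <;> linarith
    have hpsle : p * s ≤ 1000 := by nlinarith
    have hN1 : (1 : ℝ) / 5 ≤ (p + 1 - t) / p := by
      rw [le_div_iff₀ h4]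
      have := (abs_le.mp ht).2
      have h7 : 2 * s ≤ 4 / 5 * p + 1 := by
        have : √(5 : ℝ) ≤ s := Real.sqrt_le_sqrt hp5
        have h8 : (2.2 : ℝ) ≤ √(5 : ℝ) := by
          apply Real.le_sqrt_of_sq_le; norm_num
        nlinarith
      linarith
    have hN2 : (p + 1 - t) / p ≤ 3 := by
      rw [div_le_iff₀ h4]
      have := (abs_le.mp ht).1
      nlinarith
    have hpos : 0 < (p + 1 - t) / p := by linarith
    have hl1 : Real.log ((p + 1 - t) / p) ≤ 2 := by
      have := Real.log_le_sub_one_of_pos hpos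
      linarith
    have hl2 : -4 ≤ Real.log ((p + 1 - t) / p) := by
      have h7 := Real.one_sub_inv_le_log_of_pos hpos
      have h8 : ((p + 1 - t) / p)⁻¹ ≤ 5 := by
        rw [inv_le_comm₀ hpos (by norm_num)]
        linarith
      linarith
    have k1 : |t / p| ≤ 1 := by
      rw [abs_div, abs_of_pos h4, div_le_one h4]
      nlinarith
    have k2 : |(t ^ 2 - 2 * p) / (2 * p ^ 2)| ≤ 1 := by
      rw [abs_div, abs_of_pos (by positivity : (0 : ℝ) < 2 * p ^ 2), div_le_one (by positivity)]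
      rw [abs_le]
      constructor <;> nlinarith [sq_nonneg t]
    have k3 : |Real.log ((p + 1 - t) / p)| ≤ 4 := by
      rw [abs_le]; constructor <;> linarith
    calc _ ≤ |Real.log ((p + 1 - t) / p)| + |t / p + (t ^ 2 - 2 * p) / (2 * p ^ 2)| := abs_add_le _ _
      _ ≤ 4 + (1 + 1) := add_le_add k3 ((abs_add_le _ _).trans (add_le_add k1 k2))
      _ ≤ 10000 / 1000 := by norm_num
      _ ≤ 10000 / (p * s) := by gcongr

end Pool.Agent.X280.BP
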