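import Pool.Agent.X280.BP.Local

/-!
# The typical size of the products
-/

set_option autoImplicit false

namespace Pool.Agent.X280.BP

open Finset Filter Topology Pool.Agent.Y722.HS

variable {ι : Type} [Fintype ι] [DecidableEq ι]
variable {a : ∀ p : ℕ, (ι → ZMod p) → ℝ} {G : ∀ p : ℕ, (ι → ZMod p) → Prop} {r C : ℝ}

open Classical in
/-- The logarithm of the product over the good primes `5 ≤ p ≤ y`. -/
noncomputable def logP (a : ∀ p : ℕ, (ι → ZMod p) → ℝ) (G : ∀ p : ℕ, (ι → ZMod p) → Prop) (y : ℕ)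
    (c : ι → ℤ) : ℝ :=
  ∑ p ∈ (Ico 5 (y + 1)).filter (fun p => p.Prime ∧ G p (red p c)),
    Real.log ((p + 1 - a p (red p c)) / p)

theorem summable_three : Summable (fun n : ℕ => 1 / ((n : ℝ) * √n)) := by
  have h : (fun n : ℕ => 1 / ((n : ℝ) * √n)) = fun n : ℕ => 1 / (n : ℝ) ^ ((3 : ℝ) / 2) := by
    funext n
    congr 1
    rcases Nat.eq_zero_or_pos n with rfl | hn
    · simp
    · have h0 : (0 : ℝ) < n := by exact_mod_cast hn
      rw [Real.sqrt_eq_rpow, show (3 : ℝ) / 2 = 1 + 1 / 2 by norm_num, Real.rpow_add h0,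
        Real.rpow_one]
  rw [h]
  exact Real.summable_one_div_nat_rpow.2 (by norm_num)

theorem Dat.near (D : Dat a G r C) : ∃ K : ℝ, 0 ≤ K ∧ ∀ (y : ℕ) (c : ι → ℤ),
    |logP a G y c + SS (ZZ a G) 0 (y + 1) c - (r + 1 / 2) * LL 0 (y + 1)| ≤ K := by
  classical
  set K1 : ℝ := 10000 + 6 * C + 2 * |r + 1 / 2| with hK1
  have hC := D.C1
  have hK10 : 0 ≤ K1 := by rw [hK1]; positivity
  refine ⟨K1 * ∑' n : ℕ, 1 / ((n : ℝ) * √n), mul_nonneg hK10 (tsum_nonneg fun n => by positivity),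
    fun y c => ?_⟩
  set F : ℕ → ℝ := fun p => (if 5 ≤ p ∧ G p (red p c) then
    Real.log ((p + 1 - a p (red p c)) / p) else 0) + ZZ a G p (red p c) - (r + 1 / 2) * (1 / p)
    with hF
  have e : logP a G y c + SS (ZZ a G) 0 (y + 1) c - (r + 1 / 2) * LL 0 (y + 1) =
      ∑ p ∈ (Ico 0 (y + 1)).filter Nat.Prime, F p := by
    rw [hF]
    unfold logP SS LL
    rw [Finset.sum_sub_distrib, Finset.sum_add_distrib, Finset.mul_sum]
    congr 2
    rw [← Finset.sum_filter, Finset.filter_filter]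
    refine Finset.sum_congr ?_ fun p _ => rfl
    ext p
    simp only [Finset.mem_filter, Finset.mem_Ico]
    constructor
    · rintro ⟨⟨h1, h2⟩, h3, h4⟩
      exact ⟨⟨Nat.zero_le _, h2⟩, h3, h1, h4⟩
    · rintro ⟨⟨_, h2⟩, h3, h1, h4⟩
      exact ⟨⟨h1, h2⟩, h3, h4⟩
  rw [e]
  have hb : ∀ p ∈ (Ico 0 (y + 1)).filter Nat.Prime, |F p| ≤ K1 * (1 / ((p : ℝ) * √p)) := by
    intro p hp
    rw [Finset.mem_filter] at hp
    have hpp := hp.2
    have hp0 : (0 : ℝ) < p := by exact_mod_cast hpp.pos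
    have hs0 : 0 < √(p : ℝ) := Real.sqrt_pos.2 hp0
    by_cases h5 : 5 ≤ p
    · have hmu := D.mu_val hpp h5
      have key : |F p + mu a G p + (r + 1 / 2) / p| ≤ 10000 / (p * √p) := by
        rw [hF]
        simp only
        unfold ZZ uu
        rw [if_pos h5]
        by_cases hG : G p (red p c)
        · rw [if_pos ⟨h5, hG⟩, if_pos hG]
          have h7 := log_term hpp h5 (D.hasse p hpp h5 (red p c))
          refine le_trans (le_of_eq ?_) h7
          congr 1
          ring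
        · rw [if_neg (fun h => hG h.2), if_neg hG]
          have h8 : (0 : ℝ) + (0 - mu a G p) - (r + 1 / 2) * (1 / p) + mu a G p +
              (r + 1 / 2) / p = 0 := by ring
          rw [h8, abs_zero]
          positivity
      have h9 : F p = (F p + mu a G p + (r + 1 / 2) / p) - (mu a G p + (r + 1 / 2) / p) := by ring
      rw [h9]
      refine (abs_sub _ _).trans ((add_le_add key hmu).trans ?_)
      rw [hK1]
      have h10 : 0 ≤ 2 * |r + 1 / 2| * (1 / ((p : ℝ) * √p)) := by positivity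
      have h11 : 10000 / ((p : ℝ) * √p) + 6 * C / (p * √p) + 2 * |r + 1 / 2| * (1 / ((p : ℝ) * √p)) =
        (10000 + 6 * C + 2 * |r + 1 / 2|) * (1 / ((p : ℝ) * √p)) := by ring
      linarith
    · have hFv : F p = -((r + 1 / 2) * (1 / p)) := by
        rw [hF]
        simp only
        unfold ZZ
        rw [if_neg (fun h => h5 h.1), if_neg h5]
        ring
      rw [hFv, abs_neg, abs_mul, abs_of_pos (by positivity : (0 : ℝ) < 1 / p)]
      have hs2 : √(p : ℝ) ≤ 2 := by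
        rw [Real.sqrt_le_iff]
        have : (p : ℝ) ≤ 4 := by exact_mod_cast (by omega : p ≤ 4)
        constructor <;> linarith
      have h12 : (1 : ℝ) / p ≤ 2 * (1 / ((p : ℝ) * √p)) := by
        rw [mul_one_div, div_le_div_iff₀ hp0 (by positivity)]
        nlinarith
      calc |r + 1 / 2| * (1 / p) ≤ |r + 1 / 2| * (2 * (1 / ((p : ℝ) * √p))) := by gcongr
        _ = 2 * |r + 1 / 2| * (1 / ((p : ℝ) * √p)) := by ring
        _ ≤ K1 * (1 / ((p : ℝ) * √p)) := by
          gcongr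
          rw [hK1]
          linarith
  refine (Finset.abs_sum_le_sum_abs _ _).trans ((Finset.sum_le_sum hb).trans ?_)
  rw [← Finset.mul_sum]
  refine mul_le_mul_of_nonneg_left ?_ hK10
  exact summable_three.sum_le_tsum _ fun n _ => by positivity

/-- The iterated logarithm. -/
noncomputable def Lg (y : ℕ) : ℝ := Real.log (Real.log y)

theorem Lg_mono {x y : ℕ} (hx : 2 ≤ x) (h : x ≤ y) : Lg x ≤ Lg y := by
  unfold Lg
  have h1 : 0 < Real.log x := Real.log_pos (by exact_mod_cast (by omega : 1 < x))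
  apply Real.log_le_log h1
  apply Real.log_le_log (by exact_mod_cast (by omega : 0 < x))
  exact_mod_cast h

theorem Lg_pos {y : ℕ} (hy : 3 ≤ y) : 0 < Lg y := by
  unfold Lg
  apply Real.log_pos
  have h1 : Real.log 3 ≤ Real.log y := Real.log_le_log (by norm_num) (by exact_mod_cast hy)
  have h2 : 1 < Real.log 3 := by
    rw [Real.lt_log_iff_exp_lt (by norm_num)]
    exact Real.exp_one_lt_d9.trans (by norm_num)
  linarith

theorem LL_Lg : ∃ C : ℝ, 0 ≤ C ∧ ∀ y : ℕ, 3 ≤ y → |LL 0 (y + 1) - Lg y| ≤ C := by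
  obtain ⟨C, hC⟩ := Pool.Agent.Erdos456.Mert.mertens_inv
  have hC0 : 0 ≤ C := (abs_nonneg _).trans (hC 3 le_rfl)
  refine ⟨C, hC0, fun y hy => ?_⟩
  have h := hC y hy
  have e : LL 0 (y + 1) = ∑ p ∈ (Finset.Icc 1 y).filter Nat.Prime, (1 : ℝ) / p := by
    unfold LL
    refine Finset.sum_congr ?_ fun p _ => rfl
    ext p
    simp only [Finset.mem_filter, Finset.mem_Ico, Finset.mem_Icc]
    constructor
    · rintro ⟨⟨_, h2⟩, h3⟩
      exact ⟨⟨h3.pos, by omega⟩, h3⟩
    · rintro ⟨⟨_, h2⟩, h3⟩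
      exact ⟨⟨Nat.zero_le _, by omega⟩, h3⟩
  rw [e]
  exact h

open Classical in
/-- **The typical size of the products.** -/
theorem Dat.typical (D : Dat a G r C) (Q : ℕ → (ι → ℤ) → ℝ) (K2 : ℝ)
    (hQ : ∀ y c, |Q y c - logP a G y c| ≤ K2) {δ : ℝ} (hδ : 0 < δ) : ∃ K : ℝ, ∀ H Y : ℕ, 3 ≤ Y →
    (((Pool.Agent.Y722.HS.box ι H).filter (fun c => ∃ y : ℕ, Y ≤ y ∧ y ^ 11 ≤ H ∧
      δ * Lg y < |Q y c - (r + 1 / 2) * Lg y|)).card : ℝ) ≤
      K / Lg Y ^ 2 * (2 * H + 1 : ℝ) ^ Fintype.card ι := by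
  obtain ⟨K0', hK0', hnear'⟩ := D.near
  have hK2 : 0 ≤ K2 := (abs_nonneg _).trans (hQ 0 0)
  set K0 := K0' + K2 with hK0d
  have hK0 : 0 ≤ K0 := by positivity
  have hnear : ∀ (y : ℕ) (c : ι → ℤ),
      |Q y c + SS (ZZ a G) 0 (y + 1) c - (r + 1 / 2) * LL 0 (y + 1)| ≤ K0 := by
    intro y c
    have h1 := hnear' y c
    have h2 := hQ y c
    have h3 : Q y c + SS (ZZ a G) 0 (y + 1) c - (r + 1 / 2) * LL 0 (y + 1) =
        (logP a G y c + SS (ZZ a G) 0 (y + 1) c - (r + 1 / 2) * LL 0 (y + 1)) +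
        (Q y c - logP a G y c) := by ring
    rw [h3]
    exact (abs_add_le _ _).trans (add_le_add h1 h2)
  obtain ⟨C1, hC1, hLL⟩ := LL_Lg
  set R : ℝ := |r + 1 / 2| with hR
  set n := Fintype.card ι with hn
  set T0 : ℝ := max (max (2 * (K0 + R * C1 + δ * C1) / δ) (2 * C1)) (Lg (512 * 2 ^ n)) with hT0
  refine ⟨max (T0 ^ 2) (CU * 10 ^ 4 / (δ / 4) ^ 4 * 4), fun H Y hY => ?_⟩
  have hLY := Lg_pos hY
  have hbox0 : (0 : ℝ) < (2 * H + 1 : ℝ) ^ n := by positivity
  rcases lt_or_ge (Lg Y) T0 with hlt | hge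
  · have h1 : (((Pool.Agent.Y722.HS.box ι H).filter (fun c => ∃ y : ℕ, Y ≤ y ∧ y ^ 11 ≤ H ∧
        δ * Lg y < |Q y c - (r + 1 / 2) * Lg y|)).card : ℝ) ≤ (2 * H + 1 : ℝ) ^ n := by
      rw [hn, ← card_box]
      exact_mod_cast Finset.card_filter_le _ _
    have h2 : 1 ≤ max (T0 ^ 2) (CU * 10 ^ 4 / (δ / 4) ^ 4 * 4) / Lg Y ^ 2 := by
      rw [le_div_iff₀ (by positivity), one_mul]
      exact (pow_le_pow_left₀ hLY.le hlt.le 2).trans (le_max_left _ _)
    nlinarith
  · set x0 := Nat.findGreatest (fun y => y ^ 11 ≤ H) H with hx0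
    have hx0s : x0 ^ 11 ≤ H := Nat.findGreatest_spec (P := fun y => y ^ 11 ≤ H) (Nat.zero_le H)
      (by simp)
    have hle : ∀ y : ℕ, y ^ 11 ≤ H → y ≤ x0 := by
      intro y hy
      refine Nat.le_findGreatest ?_ hy
      exact (Nat.le_self_pow (by norm_num) y).trans hy
    by_cases hYx : Y ≤ x0
    · have hY512 : 512 * 2 ^ n ≤ Y := by
        by_contra hcon
        push Not at hcon
        have h1 : Lg Y < Lg (512 * 2 ^ n) := by
          unfold Lg
          have h2 : 0 < Real.log Y := Real.log_pos (by exact_mod_cast (by omega : 1 < Y))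
          apply Real.log_lt_log h2
          apply Real.log_lt_log (by exact_mod_cast (by omega : 0 < Y))
          exact_mod_cast hcon
        have h2 : Lg (512 * 2 ^ n) ≤ T0 := le_max_right _ _
        linarith
      have hcond : 2 ^ Fintype.card ι * (x0 + 1) ^ 10 ≤ 2 * H + 1 := by
        rw [← hn]
        have h1 : (x0 + 1) ^ 10 ≤ (2 * x0) ^ 10 := Nat.pow_le_pow_left (by omega) 10
        have h2 : 512 * 2 ^ n ≤ x0 := hY512.trans hYx
        calc 2 ^ n * (x0 + 1) ^ 10 ≤ 2 ^ n * (2 * x0) ^ 10 := Nat.mul_le_mul_left _ h1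
          _ = 2 * (512 * 2 ^ n) * x0 ^ 10 := by ring
          _ ≤ 2 * x0 * x0 ^ 10 := by gcongr
          _ = 2 * x0 ^ 11 := by ring
          _ ≤ 2 * H + 1 := by omega
      have hLLY : Lg Y / 2 ≤ LL 0 (Y + 1) := by
        have h1 := (abs_le.mp (hLL Y hY)).1
        have h2 : 2 * C1 ≤ T0 := (le_max_right _ _).trans (le_max_left _ _)
        linarith
      have hLLY0 : 0 < LL 0 (Y + 1) := by linarith
      have hu := D.sys.uniform (δ := δ / 4) (by positivity) (Y := Y + 1) (x := x0 + 1) (H := H)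
        hLLY0 hcond
      have hsub : ((Pool.Agent.Y722.HS.box ι H).filter (fun c => ∃ y : ℕ, Y ≤ y ∧ y ^ 11 ≤ H ∧
          δ * Lg y < |Q y c - (r + 1 / 2) * Lg y|)) ⊆
          ((Pool.Agent.Y722.HS.box ι H).filter (fun c => ∃ y : ℕ, Y + 1 ≤ y ∧ y ≤ x0 + 1 ∧
            δ / 4 * LL 0 y < |SS (ZZ a G) 0 y c|)) := by
        intro c hc
        rw [Finset.mem_filter] at hc ⊢
        obtain ⟨hcb, y, hy1, hy2, hy3⟩ := hc
        refine ⟨hcb, y + 1, by omega, by have := hle y hy2; omega, ?_⟩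
        by_contra hcon
        push Not at hcon
        have h1 := hnear y c
        have h2 := hLL y (by omega)
        have h3 : Lg Y ≤ Lg y := Lg_mono (by omega) hy1
        have h4 : 2 * (K0 + R * C1 + δ * C1) / δ ≤ Lg y :=
          ((le_max_left _ _).trans (le_max_left _ _)).trans (hge.trans h3)
        rw [div_le_iff₀ hδ] at h4
        have h5 : Q y c - (r + 1 / 2) * Lg y =
            (Q y c + SS (ZZ a G) 0 (y + 1) c - (r + 1 / 2) * LL 0 (y + 1)) -
            SS (ZZ a G) 0 (y + 1) c + (r + 1 / 2) * (LL 0 (y + 1) - Lg y) := by ring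
        have h6 : |Q y c - (r + 1 / 2) * Lg y| ≤ K0 + δ / 4 * LL 0 (y + 1) + R * C1 := by
          rw [h5]
          refine (abs_add_le _ _).trans (add_le_add ((abs_sub _ _).trans (add_le_add h1 hcon)) ?_)
          rw [abs_mul]
          exact mul_le_mul_of_nonneg_left h2 (abs_nonneg _)
        have h7 : LL 0 (y + 1) ≤ Lg y + C1 := by
          have := (abs_le.mp h2).2
          linarith
        have h8 : δ / 4 * LL 0 (y + 1) ≤ δ / 4 * (Lg y + C1) :=
          mul_le_mul_of_nonneg_left h7 (by positivity)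
        have h9 : 0 < Lg y := lt_of_lt_of_le hLY h3
        have h10 : 0 ≤ R * C1 := by positivity
        have h11 : 0 ≤ δ * C1 := by positivity
        nlinarith
      have hcard : (((Pool.Agent.Y722.HS.box ι H).filter (fun c => ∃ y : ℕ, Y ≤ y ∧ y ^ 11 ≤ H ∧
          δ * Lg y < |Q y c - (r + 1 / 2) * Lg y|)).card : ℝ) ≤
          (((Pool.Agent.Y722.HS.box ι H).filter (fun c => ∃ y : ℕ, Y + 1 ≤ y ∧ y ≤ x0 + 1 ∧
            δ / 4 * LL 0 y < |SS (ZZ a G) 0 y c|)).card : ℝ) := by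
        exact_mod_cast Finset.card_le_card hsub
      refine hcard.trans (hu.trans ?_)
      refine mul_le_mul_of_nonneg_right ?_ hbox0.le
      have hCU : 0 < CU := by unfold CU; norm_num
      have h12 : (Lg Y / 2) ^ 2 ≤ LL 0 (Y + 1) ^ 2 := pow_le_pow_left₀ (by positivity) hLLY 2
      calc CU * 10 ^ 4 / ((δ / 4) ^ 4 * LL 0 (Y + 1) ^ 2)
          ≤ CU * 10 ^ 4 / ((δ / 4) ^ 4 * (Lg Y / 2) ^ 2) := by gcongr
        _ = CU * 10 ^ 4 / (δ / 4) ^ 4 * 4 / Lg Y ^ 2 := by field_simp; norm_num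
        _ ≤ _ := by
          gcongr
          exact le_max_right _ _
    · have hemp : ((Pool.Agent.Y722.HS.box ι H).filter (fun c => ∃ y : ℕ, Y ≤ y ∧ y ^ 11 ≤ H ∧
          δ * Lg y < |Q y c - (r + 1 / 2) * Lg y|)) = ∅ := by
        rw [Finset.filter_eq_empty_iff]
        rintro c _ ⟨y, hy1, hy2, _⟩
        exact hYx (hy1.trans (hle y hy2))
      rw [hemp, Finset.card_empty, Nat.cast_zero]
      have : 0 ≤ max (T0 ^ 2) (CU * 10 ^ 4 / (δ / 4) ^ 4 * 4) := (sq_nonneg T0).trans (le_max_left _ _)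
      positivity

end Pool.Agent.X280.BP
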