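import Pool.Agent.X280.BP.Clt

/-!
# The model and the normal law
-/

set_option autoImplicit false

namespace Pool.Agent.X280.BP

open Finset Filter Topology Pool.Agent.Y722.HS

variable {ι : Type} [Fintype ι] [DecidableEq ι]

theorem prod_sub_prod {κ : Type*} (s : Finset κ) (f g : κ → ℂ) (hf : ∀ i ∈ s, ‖f i‖ ≤ 1)
    (hg : ∀ i ∈ s, ‖g i‖ ≤ 1) : ‖∏ i ∈ s, f i - ∏ i ∈ s, g i‖ ≤ ∑ i ∈ s, ‖f i - g i‖ := by
  classical
  induction s using Finset.induction_on with
  | empty => simp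
  | insert i s hi ih =>
    rw [Finset.prod_insert hi, Finset.prod_insert hi, Finset.sum_insert hi]
    have e : f i * ∏ j ∈ s, f j - g i * ∏ j ∈ s, g j =
        (f i - g i) * ∏ j ∈ s, f j + g i * (∏ j ∈ s, f j - ∏ j ∈ s, g j) := by ring
    rw [e]
    have h1 : ‖∏ j ∈ s, f j‖ ≤ 1 := by
      rw [norm_prod]
      exact Finset.prod_le_one (fun j _ => norm_nonneg _)
        fun j hj => hf j (Finset.mem_insert_of_mem hj)
    have h2 := ih (fun j hj => hf j (Finset.mem_insert_of_mem hj))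
      (fun j hj => hg j (Finset.mem_insert_of_mem hj))
    refine (norm_add_le _ _).trans (add_le_add ?_ ?_)
    · rw [norm_mul]
      exact mul_le_of_le_one_right (norm_nonneg _) h1
    · rw [norm_mul]
      calc ‖g i‖ * ‖∏ j ∈ s, f j - ∏ j ∈ s, g j‖ ≤ 1 * ∑ j ∈ s, ‖f j - g j‖ :=
            mul_le_mul (hg i (Finset.mem_insert_self i s)) h2 (norm_nonneg _) zero_le_one
        _ = _ := one_mul _

theorem EMc_mul (p : ℕ) [NeZero p] (t : ℂ) (f : (ι → ZMod p) → ℂ) :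
    EMc p (fun c => t * f c) = t * EMc p f := by
  unfold EMc
  rw [← Finset.mul_sum, mul_div_assoc]

theorem EMc_add (p : ℕ) [NeZero p] (f g : (ι → ZMod p) → ℂ) :
    EMc p (fun c => f c + g c) = EMc p f + EMc p g := by
  unfold EMc
  rw [Finset.sum_add_distrib, add_div]

theorem norm_EMc_le (p : ℕ) [NeZero p] (f : (ι → ZMod p) → ℂ) (b : ℝ) (h : ∀ c, ‖f c‖ ≤ b) :
    ‖EMc p f‖ ≤ b := by
  unfold EMc
  have hM : (0 : ℝ) < p := by exact_mod_cast Nat.pos_of_ne_zero (NeZero.ne p)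
  have hpos : (0 : ℝ) < (p : ℝ) ^ Fintype.card ι := by positivity
  rw [norm_div, Complex.norm_real, Real.norm_eq_abs, abs_of_pos hpos, div_le_iff₀ hpos]
  refine (norm_sum_le _ _).trans ((Finset.sum_le_sum fun c _ => h c).trans (le_of_eq ?_))
  rw [Finset.sum_const, nsmul_eq_mul, Finset.card_univ, Fintype.card_fun, ZMod.card]
  push_cast
  ring

theorem exp_neg_taylor {y : ℝ} (h0 : 0 ≤ y) : |Real.exp (-y) - (1 - y)| ≤ y ^ 2 := by
  rcases le_total y 1 with h | h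
  · have := Real.abs_exp_sub_one_sub_id_le (x := -y) (by rw [abs_neg, abs_of_nonneg h0]; exact h)
    rw [show Real.exp (-y) - (1 - y) = Real.exp (-y) - 1 - -y by ring]
    simpa using this
  · have h1 : Real.exp (-y) ≤ 1 := Real.exp_le_one_iff.mpr (by linarith)
    have h2 : 0 < Real.exp (-y) := Real.exp_pos _
    rw [abs_le]
    constructor <;> nlinarith

/-- One prime. -/
theorem one_char (p : ℕ) [NeZero p] (Z : (ι → ZMod p) → ℝ) (b : ℝ) (hb : ∀ c, |Z c| ≤ b)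
    (h0 : EM p Z = 0) (s : ℝ) :
    ‖EMc p (fun c => Complex.exp ((s * Z c : ℝ) * Complex.I)) -
      (Real.exp (-(s ^ 2 * EM p (fun c => Z c ^ 2) / 2)) : ℝ)‖ ≤
      |s| ^ 3 * b ^ 3 + s ^ 4 * b ^ 4 := by
  have hb0 : 0 ≤ b := (abs_nonneg _).trans (hb 0)
  set v := EM p (fun c => Z c ^ 2) with hv
  have hv0 : 0 ≤ v := by
    rw [hv]; unfold EM; positivity
  have hvb : v ≤ b ^ 2 := by
    rw [hv]
    refine EM_le_of_le p _ _ fun c => ?_
    exact sq_le_sq' (by have := (abs_le.mp (hb c)).1; linarith) (abs_le.mp (hb c)).2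
  have e1 : EMc p (fun c => Complex.exp ((s * Z c : ℝ) * Complex.I)) =
      ((1 - s ^ 2 * v / 2 : ℝ) : ℂ) + EMc p (fun c => rem 3 (s * Z c)) := by
    have e2 : (fun c => Complex.exp ((s * Z c : ℝ) * Complex.I)) = fun c =>
        (((1 + (-(s ^ 2) / 2) * Z c ^ 2 : ℝ) : ℂ) + ((s : ℂ) * Complex.I) * ((Z c : ℝ) : ℂ)) +
          rem 3 (s * Z c) := by
      funext c
      unfold rem
      rw [Finset.sum_range_succ, Finset.sum_range_succ, Finset.sum_range_one]
      have hI : Complex.I ^ 2 = -1 := Complex.I_sq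
      simp only [Nat.factorial, pow_zero, pow_one, Nat.cast_one, div_one]
      push_cast
      ring_nf
      rw [hI]
      ring
    rw [e2, EMc_add, EMc_add, EMc_mul, EMc_ofReal, EMc_ofReal, h0, EM_add', EM_const', EM_mul', ← hv]
    push_cast
    ring
  rw [e1]
  have h1 : ‖EMc p (fun c => rem 3 (s * Z c))‖ ≤ |s| ^ 3 * b ^ 3 := by
    refine norm_EMc_le p _ _ fun c => (rem_le 3 _).trans ?_
    rw [abs_mul, mul_pow]
    have h2 : |Z c| ^ 3 ≤ b ^ 3 := pow_le_pow_left₀ (abs_nonneg _) (hb c) 3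
    have h3 : (1 : ℝ) ≤ ((3).factorial : ℝ) := by norm_num [Nat.factorial]
    calc |s| ^ 3 * |Z c| ^ 3 / ((3).factorial : ℝ) ≤ |s| ^ 3 * |Z c| ^ 3 / 1 := by gcongr
      _ ≤ |s| ^ 3 * b ^ 3 := by rw [div_one]; gcongr
  have h4 := exp_neg_taylor (y := s ^ 2 * v / 2) (by positivity)
  have h5 : (s ^ 2 * v / 2) ^ 2 ≤ s ^ 4 * b ^ 4 := by
    calc (s ^ 2 * v / 2) ^ 2 ≤ (s ^ 2 * b ^ 2) ^ 2 := by
          apply pow_le_pow_left₀ (by positivity)
          have : s ^ 2 * v ≤ s ^ 2 * b ^ 2 := by gcongr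
          have : 0 ≤ s ^ 2 * v := by positivity
          linarith
      _ = _ := by ring
  have e3 : ((1 - s ^ 2 * v / 2 : ℝ) : ℂ) + EMc p (fun c => rem 3 (s * Z c)) -
      (Real.exp (-(s ^ 2 * v / 2)) : ℝ) = EMc p (fun c => rem 3 (s * Z c)) -
        ((Real.exp (-(s ^ 2 * v / 2)) - (1 - s ^ 2 * v / 2) : ℝ) : ℂ) := by
    push_cast
    ring
  rw [e3]
  refine (norm_sub_le _ _).trans (add_le_add h1 ?_)
  rw [Complex.norm_real, Real.norm_eq_abs]
  exact h4.trans h5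

variable {a : ∀ p : ℕ, (ι → ZMod p) → ℝ} {G : ∀ p : ℕ, (ι → ZMod p) → Prop} {r C : ℝ}

theorem exp_neg_lip {x y : ℝ} (hx : 0 ≤ x) (hy : 0 ≤ y) :
    |Real.exp (-x) - Real.exp (-y)| ≤ |x - y| := by
  wlog h : x ≤ y generalizing x y
  · rw [abs_sub_comm, abs_sub_comm x y]
    exact this hy hx (le_of_not_ge h)
  have h1 : Real.exp (-y) ≤ Real.exp (-x) := Real.exp_le_exp.mpr (by linarith)
  rw [abs_of_nonneg (by linarith), abs_sub_comm, abs_of_nonneg (by linarith)]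
  have h2 : Real.exp (-x) ≤ 1 := Real.exp_le_one_iff.mpr (by linarith)
  have h3 : 1 + -(y - x) ≤ Real.exp (-(y - x)) := by
    have := Real.add_one_le_exp (-(y - x)); linarith
  have h4 : Real.exp (-y) = Real.exp (-x) * Real.exp (-(y - x)) := by
    rw [← Real.exp_add]; ring_nf
  rw [h4]
  have h5 := Real.exp_pos (-x)
  have h6 : Real.exp (-(y - x)) ≤ 1 := Real.exp_le_one_iff.mpr (by linarith)
  nlinarith

/-- **The model characteristic function is nearly Gaussian.** -/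
theorem Dat.phi_near (D : Dat a G r C) : ∃ K : ℝ, 0 ≤ K ∧ ∀ (x : ℕ) (s : ℝ), |s| ≤ 1 →
    ‖phi (ZZ a G) x s - (Real.exp (-(s ^ 2 * LL 0 x / 2)) : ℝ)‖ ≤ K * s ^ 2 := by
  classical
  set T : ℝ := ∑' n : ℕ, 1 / ((n : ℝ) * √n) with hT
  have hT0 : 0 ≤ T := tsum_nonneg fun n => by positivity
  set Kv : ℝ := 22 + 31 * C + 5 * |r + 1 / 2| with hKv
  have hC := D.C1
  have hKv0 : 0 ≤ Kv := by rw [hKv]; positivity
  refine ⟨11000 * T + (Kv * T + 2 * T), by positivity, fun x s hs => ?_⟩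
  set I := (Ico 0 x).filter Nat.Prime with hI
  set v : ℕ → ℝ := fun p => if h : p = 0 then 0 else
    (haveI : NeZero p := ⟨h⟩; EM p (fun c => ZZ a G p c ^ 2)) with hv
  have hvp : ∀ (p : ℕ) [NeZero p], v p = EM p (fun c => ZZ a G p c ^ 2) := by
    intro p _
    rw [hv]
    simp only
    rw [dif_neg (NeZero.ne p)]
  have hv0 : ∀ p, 0 ≤ v p := by
    intro p
    rw [hv]
    simp only
    split_ifs with h
    · exact le_rfl
    · unfold EM
      positivity
  have hs0 : 0 ≤ |s| := abs_nonneg s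
  have hs3 : |s| ^ 3 ≤ s ^ 2 := by
    calc |s| ^ 3 = |s| * |s| ^ 2 := by ring
      _ ≤ 1 * |s| ^ 2 := by gcongr
      _ = s ^ 2 := by rw [one_mul, sq_abs]
  have hs4 : s ^ 4 ≤ s ^ 2 := by
    have : s ^ 2 ≤ 1 := by rw [← sq_abs]; exact pow_le_one₀ hs0 hs
    nlinarith [sq_nonneg s]
  -- first step
  have h1 : ‖phi (ZZ a G) x s - ∏ p ∈ I, ((Real.exp (-(s ^ 2 * v p / 2)) : ℝ) : ℂ)‖ ≤
      11000 * T * s ^ 2 := by
    unfold phi
    refine (prod_sub_prod I _ _ ?_ ?_).trans ?_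
    · intro p hp
      have hpp : p.Prime := (Finset.mem_filter.mp hp).2
      have : NeZero p := ⟨hpp.ne_zero⟩
      rw [Ep_eq]
      refine norm_EMc_le p _ _ fun c => le_of_eq ?_
      exact Complex.norm_exp_ofReal_mul_I _
    · intro p _
      rw [Complex.norm_real, Real.norm_eq_abs, abs_of_pos (Real.exp_pos _)]
      exact Real.exp_le_one_iff.mpr (by have := hv0 p; nlinarith [sq_nonneg s])
    · have h2 : ∀ p ∈ I, ‖Ep p (fun c => Complex.exp ((s * ZZ a G p c : ℝ) * Complex.I)) -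
          ((Real.exp (-(s ^ 2 * v p / 2)) : ℝ) : ℂ)‖ ≤ 11000 * s ^ 2 * (1 / ((p : ℝ) * √p)) := by
        intro p hp
        have hpp : p.Prime := (Finset.mem_filter.mp hp).2
        have : NeZero p := ⟨hpp.ne_zero⟩
        have hp1 : (1 : ℝ) ≤ p := by exact_mod_cast hpp.one_lt.le
        have hsq1 : 1 ≤ √(p : ℝ) := Real.one_le_sqrt.2 hp1
        have hsq0 : 0 < √(p : ℝ) := by linarith
        have hss : √(p : ℝ) * √(p : ℝ) = p := Real.mul_self_sqrt (by linarith)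
        rw [Ep_eq, hvp p]
        refine (one_char p (ZZ a G p) (10 / √p) (D.sys.bd p hpp) (D.sys.mean p hpp) s).trans ?_
        have k1 : (10 / √(p : ℝ)) ^ 3 = 1000 * (1 / ((p : ℝ) * √p)) := by
          rw [div_pow, show √(p : ℝ) ^ 3 = (√(p : ℝ) * √(p : ℝ)) * √(p : ℝ) by ring, hss]
          norm_num
          ring
        have k2 : (10 / √(p : ℝ)) ^ 4 ≤ 10000 * (1 / ((p : ℝ) * √p)) := by
          have e : (10 / √(p : ℝ)) ^ 4 = 10000 * (1 / ((p : ℝ) * √p)) * (1 / √p) := by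
            rw [div_pow, show √(p : ℝ) ^ 4 = (√(p : ℝ) * √(p : ℝ)) * √(p : ℝ) * √(p : ℝ) by ring, hss]
            norm_num
            ring
          rw [e]
          apply mul_le_of_le_one_right (by positivity)
          rw [div_le_one hsq0]
          exact hsq1
        have k3 : 0 ≤ 1 / ((p : ℝ) * √p) := by positivity
        rw [k1]
        calc |s| ^ 3 * (1000 * (1 / ((p : ℝ) * √p))) + s ^ 4 * (10 / √(p : ℝ)) ^ 4
            ≤ s ^ 2 * (1000 * (1 / ((p : ℝ) * √p))) + s ^ 2 * (10000 * (1 / ((p : ℝ) * √p))) := by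
              gcongr
          _ = 11000 * s ^ 2 * (1 / ((p : ℝ) * √p)) := by ring
      refine (Finset.sum_le_sum h2).trans ?_
      rw [← Finset.mul_sum]
      calc 11000 * s ^ 2 * ∑ p ∈ I, 1 / ((p : ℝ) * √p) ≤ 11000 * s ^ 2 * T := by
            gcongr
            exact summable_three.sum_le_tsum _ fun n _ => by positivity
        _ = 11000 * T * s ^ 2 := by ring
  -- second step
  have h3 : ∏ p ∈ I, ((Real.exp (-(s ^ 2 * v p / 2)) : ℝ) : ℂ) =
      ((Real.exp (-(s ^ 2 * (∑ p ∈ I, v p) / 2)) : ℝ) : ℂ) := by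
    rw [← Complex.ofReal_prod, ← Real.exp_sum]
    congr 2
    rw [Finset.sum_neg_distrib, Finset.mul_sum, Finset.sum_div]
  have h4 : |∑ p ∈ I, v p - LL 0 x| ≤ Kv * T + 2 * T := by
    unfold LL
    rw [← hI, ← Finset.sum_sub_distrib]
    have h5 : ∀ p ∈ I, |v p - 1 / p| ≤ (Kv + 2) * (1 / ((p : ℝ) * √p)) := by
      intro p hp
      have hpp : p.Prime := (Finset.mem_filter.mp hp).2
      have : NeZero p := ⟨hpp.ne_zero⟩
      have hp0 : (0 : ℝ) < p := by exact_mod_cast hpp.pos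
      have hsq0 : 0 < √(p : ℝ) := Real.sqrt_pos.2 hp0
      rw [hvp p]
      by_cases h5 : 5 ≤ p
      · refine (D.var hpp h5).trans ?_
        rw [← hKv]
        have : 0 ≤ 2 * (1 / ((p : ℝ) * √p)) := by positivity
        have e : Kv / ((p : ℝ) * √p) = Kv * (1 / ((p : ℝ) * √p)) := by ring
        rw [e]
        linarith
      · have e : EM p (fun c => ZZ a G p c ^ 2) = 0 := by
          have : (fun c => ZZ a G p c ^ 2) = fun _ => (0 : ℝ) := by
            funext c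
            unfold ZZ
            rw [if_neg h5]
            ring
          rw [this, EM_const']
        rw [e, zero_sub, abs_neg, abs_of_pos (by positivity)]
        have hs2 : √(p : ℝ) ≤ 2 := by
          rw [Real.sqrt_le_iff]
          have : (p : ℝ) ≤ 4 := by exact_mod_cast (by omega : p ≤ 4)
          constructor <;> linarith
        have h12 : (1 : ℝ) / p ≤ 2 * (1 / ((p : ℝ) * √p)) := by
          rw [mul_one_div, div_le_div_iff₀ hp0 (by positivity)]
          nlinarith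
        have : 0 ≤ Kv * (1 / ((p : ℝ) * √p)) := by positivity
        linarith
    refine (Finset.abs_sum_le_sum_abs _ _).trans ((Finset.sum_le_sum h5).trans ?_)
    rw [← Finset.mul_sum]
    calc (Kv + 2) * ∑ p ∈ I, 1 / ((p : ℝ) * √p) ≤ (Kv + 2) * T := by
          gcongr
          exact summable_three.sum_le_tsum _ fun n _ => by positivity
      _ = _ := by ring
  have hV0 : 0 ≤ ∑ p ∈ I, v p := Finset.sum_nonneg fun p _ => hv0 p
  have h6 : ‖((Real.exp (-(s ^ 2 * (∑ p ∈ I, v p) / 2)) : ℝ) : ℂ) -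
      ((Real.exp (-(s ^ 2 * LL 0 x / 2)) : ℝ) : ℂ)‖ ≤ (Kv * T + 2 * T) * s ^ 2 := by
    rw [← Complex.ofReal_sub, Complex.norm_real, Real.norm_eq_abs]
    refine (exp_neg_lip (by positivity) (by have := LL_nonneg 0 x; positivity)).trans ?_
    rw [show s ^ 2 * (∑ p ∈ I, v p) / 2 - s ^ 2 * LL 0 x / 2 = s ^ 2 / 2 * (∑ p ∈ I, v p - LL 0 x) by
      ring, abs_mul, abs_of_nonneg (by positivity)]
    have h7 : 0 ≤ |∑ p ∈ I, v p - LL 0 x| := abs_nonneg _
    nlinarith [sq_nonneg s]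
  rw [h3] at h1
  have e : phi (ZZ a G) x s - (Real.exp (-(s ^ 2 * LL 0 x / 2)) : ℝ) =
      (phi (ZZ a G) x s - ((Real.exp (-(s ^ 2 * (∑ p ∈ I, v p) / 2)) : ℝ) : ℂ)) +
      (((Real.exp (-(s ^ 2 * (∑ p ∈ I, v p) / 2)) : ℝ) : ℂ) -
      ((Real.exp (-(s ^ 2 * LL 0 x / 2)) : ℝ) : ℂ)) := by ring
  rw [e]
  refine (norm_add_le _ _).trans ((add_le_add h1 h6).trans (le_of_eq ?_))
  ring

end Pool.Agent.X280.BP
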