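import Pool.Agent.X280.BP.Lim

/-!
# Bounds for the even moments
-/

set_option autoImplicit false
set_option linter.unusedSimpArgs false

namespace Pool.Agent.X280.BP

open Finset Filter Topology Pool.Agent.Y722.HS

variable {ι : Type} [Fintype ι] [DecidableEq ι]

theorem exp_le_sq (u : ℝ) : Real.exp u ≤ u + Real.exp (u ^ 2) := by
  have h2 : 1 + u ^ 2 ≤ Real.exp (u ^ 2) := by
    have := Real.add_one_le_exp (u ^ 2); linarith
  by_cases h : |u| ≤ 1
  · have h1 := Real.abs_exp_sub_one_sub_id_le h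
    have h3 := (abs_le.mp h1).2
    linarith
  · push Not at h
    by_cases hu : 0 ≤ u
    · rw [abs_of_nonneg hu] at h
      have : Real.exp u ≤ Real.exp (u ^ 2) := Real.exp_le_exp.mpr (by nlinarith)
      linarith
    · push Not at hu
      rw [abs_of_neg hu] at h
      have : Real.exp u ≤ 1 := Real.exp_le_one_iff.mpr hu.le
      nlinarith

theorem EM_exp (p : ℕ) [NeZero p] (Z : (ι → ZMod p) → ℝ) (b : ℝ) (hb : ∀ c, |Z c| ≤ b)
    (h0 : EM p Z = 0) (l : ℝ) : EM p (fun c => Real.exp (l * Z c)) ≤ Real.exp (l ^ 2 * b ^ 2) := by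
  have h1 : EM p (fun c => Real.exp (l * Z c)) ≤
      EM p (fun c => l * Z c + Real.exp (l ^ 2 * b ^ 2)) := by
    unfold EM
    gcongr with c
    refine (exp_le_sq _).trans (add_le_add le_rfl ?_)
    rw [Real.exp_le_exp, mul_pow]
    have h2 : Z c ^ 2 ≤ b ^ 2 := sq_le_sq' (by have := (abs_le.mp (hb c)).1; linarith)
      (abs_le.mp (hb c)).2
    gcongr
  refine h1.trans (le_of_eq ?_)
  have hM : (0 : ℝ) < p := by exact_mod_cast Nat.pos_of_ne_zero (NeZero.ne p)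
  unfold EM at h0 ⊢
  rw [Finset.sum_add_distrib, ← Finset.mul_sum, add_div, mul_div_assoc, h0, mul_zero, zero_add,
    Finset.sum_const, nsmul_eq_mul, Finset.card_univ, Fintype.card_fun, ZMod.card]
  push_cast
  field_simp

theorem lim_exp (I : Finset ℕ) (hI : ∀ p ∈ I, p.Prime) (Z : ∀ p : ℕ, (ι → ZMod p) → ℝ) (l : ℝ) :
    Tendsto (fun H => EB H (fun c => Real.exp (l * ∑ p ∈ I, Z p (red p c)))) atTop
      (𝓝 (∏ p ∈ I, (Ep p (fun c => (Real.exp (l * Z p c) : ℂ))).re)) := by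
  have h := lim_prod_c I hI fun p c => (Real.exp (l * Z p c) : ℂ)
  have e1 : ∀ c : ι → ℤ, ∏ p ∈ I, ((Real.exp (l * Z p (red p c)) : ℝ) : ℂ) =
      ((Real.exp (l * ∑ p ∈ I, Z p (red p c)) : ℝ) : ℂ) := by
    intro c
    rw [← Complex.ofReal_prod, Finset.mul_sum, Real.exp_sum]
  have e2 : ∀ p ∈ I, Ep p (fun c => (Real.exp (l * Z p c) : ℂ)) =
      (((Ep p (fun c => (Real.exp (l * Z p c) : ℂ))).re : ℝ) : ℂ) := by
    intro p hp
    have : NeZero p := ⟨(hI p hp).ne_zero⟩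
    rw [Ep_eq, EMc_ofReal, Complex.ofReal_re]
  simp only [e1] at h
  rw [Finset.prod_congr rfl e2, ← Complex.ofReal_prod] at h
  have h2 := (Complex.continuous_re.tendsto _).comp h
  rw [Complex.ofReal_re] at h2
  refine h2.congr fun H => ?_
  simp only [Function.comp]
  rw [EBc_ofReal, Complex.ofReal_re]

/-- **The even moments.** -/
theorem mom_even (I : Finset ℕ) (x : ℕ) (hI : ∀ p ∈ I, p.Prime ∧ p ≤ x)
    (Z : ∀ p : ℕ, (ι → ZMod p) → ℝ) (b : ℕ → ℝ) (hb : ∀ p ∈ I, ∀ c, |Z p c| ≤ b p)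
    (h0 : ∀ p ∈ I, ∀ [NeZero p], EM p (Z p) = 0) (W : ℝ) (hW : ∑ p ∈ I, b p ^ 2 ≤ W)
    (l : ℝ) (hl : 0 < l) (k H : ℕ) (hH : x ^ (2 * k) ≤ 2 * H + 1) :
    EB H (fun c => (∑ p ∈ I, Z p (red p c)) ^ (2 * k)) ≤
      2 * ((2 * k).factorial : ℝ) / l ^ (2 * k) * Real.exp (l ^ 2 * W) +
      2 ^ Fintype.card ι * ((x : ℝ) ^ (2 * k) / (2 * H + 1)) * (∑ p ∈ I, b p) ^ (2 * k) := by
  set S : (ι → ℤ) → ℝ := fun c => ∑ p ∈ I, Z p (red p c) with hS
  have hle : ∀ l' : ℝ, l' ^ 2 = l ^ 2 →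
      ∏ p ∈ I, (Ep p (fun c => (Real.exp (l' * Z p c) : ℂ))).re ≤ Real.exp (l ^ 2 * W) := by
    intro l' hl'
    have h1 : ∀ p ∈ I, 0 ≤ (Ep p (fun c => (Real.exp (l' * Z p c) : ℂ))).re ∧
        (Ep p (fun c => (Real.exp (l' * Z p c) : ℂ))).re ≤ Real.exp (l ^ 2 * b p ^ 2) := by
      intro p hp
      have : NeZero p := ⟨(hI p hp).1.ne_zero⟩
      rw [Ep_eq, EMc_ofReal, Complex.ofReal_re, ← hl']
      refine ⟨?_, EM_exp p (Z p) (b p) (hb p hp) (h0 p hp) l'⟩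
      unfold EM
      positivity
    refine (Finset.prod_le_prod (fun p hp => (h1 p hp).1) fun p hp => (h1 p hp).2).trans ?_
    rw [← Real.exp_sum, ← Finset.mul_sum]
    exact Real.exp_le_exp.mpr (mul_le_mul_of_nonneg_left hW (by positivity))
  have hlim1 := lim_exp I (fun p hp => (hI p hp).1) Z l
  have hlim2 := lim_exp I (fun p hp => (hI p hp).1) Z (-l)
  have hlim3 : Tendsto (fun H' : ℕ => 2 ^ Fintype.card ι * ((x : ℝ) ^ (2 * k) / (2 * H + 1) +
      (x : ℝ) ^ (2 * k) / (2 * (H' : ℝ) + 1)) * (∑ p ∈ I, b p) ^ (2 * k)) atTop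
      (𝓝 (2 ^ Fintype.card ι * ((x : ℝ) ^ (2 * k) / (2 * H + 1) + 0) *
        (∑ p ∈ I, b p) ^ (2 * k))) :=
    ((tendsto_const_nhds.add (tendsto_ratio _)).const_mul _).mul_const _
  have hG := (((hlim1.add hlim2).const_mul (((2 * k).factorial : ℝ) / l ^ (2 * k)))).add hlim3
  have hlower : ∀ᶠ H' : ℕ in atTop, EB H (fun c => S c ^ (2 * k)) ≤
      ((2 * k).factorial : ℝ) / l ^ (2 * k) * (EB H' (fun c => Real.exp (l * S c)) +
        EB H' (fun c => Real.exp (-l * S c))) +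
      2 ^ Fintype.card ι * ((x : ℝ) ^ (2 * k) / (2 * H + 1) +
      (x : ℝ) ^ (2 * k) / (2 * (H' : ℝ) + 1)) * (∑ p ∈ I, b p) ^ (2 * k) := by
    filter_upwards [eventually_ge_atTop (x ^ (2 * k))] with H' hH'
    have h1 := mom_diff I x (fun p hp => ⟨(hI p hp).1.ne_zero, (hI p hp).2⟩) Z b hb (2 * k) H H' hH
      (by omega)
    have h2 := (abs_le.mp h1).2
    have h3 : EB H' (fun c => S c ^ (2 * k)) ≤ ((2 * k).factorial : ℝ) / l ^ (2 * k) *
        (EB H' (fun c => Real.exp (l * S c)) + EB H' (fun c => Real.exp (-l * S c))) := by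
      have h4 : ∀ c, S c ^ (2 * k) ≤ ((2 * k).factorial : ℝ) / l ^ (2 * k) *
          (Real.exp (l * S c) + Real.exp (-l * S c)) := by
        intro c
        have h5 := Real.pow_div_factorial_le_exp (|l * S c|) (abs_nonneg _) (2 * k)
        have h6 : Real.exp |l * S c| ≤ Real.exp (l * S c) + Real.exp (-l * S c) := by
          rcases abs_cases (l * S c) with ⟨h, _⟩ | ⟨h, _⟩
          · rw [h]; linarith [Real.exp_pos (-l * S c)]
          · rw [h, ← neg_mul]; linarith [Real.exp_pos (l * S c)]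
        have h7 : |l * S c| ^ (2 * k) = l ^ (2 * k) * S c ^ (2 * k) := by
          rw [pow_mul, sq_abs, ← pow_mul, mul_pow]
        rw [h7] at h5
        have hf : (0 : ℝ) < (2 * k).factorial := by exact_mod_cast Nat.factorial_pos _
        have hl2 : 0 < l ^ (2 * k) := by positivity
        have h8 := h5.trans h6
        rw [div_le_iff₀ hf] at h8
        rw [div_mul_eq_mul_div, le_div_iff₀ hl2]
        linarith
      refine (EB_mono H' _ _ h4).trans (le_of_eq ?_)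
      unfold EB
      rw [← Finset.mul_sum, Finset.sum_add_distrib]
      ring
    linarith
  have h9 := ge_of_tendsto hG hlower
  have h10 := hle l rfl
  have h11 := hle (-l) (by ring)
  have hf : (0 : ℝ) ≤ ((2 * k).factorial : ℝ) / l ^ (2 * k) := by positivity
  have h12 := mul_le_mul_of_nonneg_left (add_le_add h10 h11) hf
  rw [add_zero] at h9
  refine h9.trans (add_le_add (h12.trans (le_of_eq ?_)) le_rfl)
  ring

/-- The fourth moment. -/
theorem mom_four (I : Finset ℕ) (x : ℕ) (hI : ∀ p ∈ I, p.Prime ∧ p ≤ x)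
    (Z : ∀ p : ℕ, (ι → ZMod p) → ℝ) (b : ℕ → ℝ) (hb : ∀ p ∈ I, ∀ c, |Z p c| ≤ b p)
    (h0 : ∀ p ∈ I, ∀ [NeZero p], EM p (Z p) = 0) (W : ℝ) (hW0 : 0 < W) (hW : ∑ p ∈ I, b p ^ 2 ≤ W)
    (H : ℕ) (hH : x ^ 4 ≤ 2 * H + 1) :
    EB H (fun c => (∑ p ∈ I, Z p (red p c)) ^ 4) ≤ 90 * W ^ 2 +
      2 ^ Fintype.card ι * ((x : ℝ) ^ 4 / (2 * H + 1)) * (∑ p ∈ I, b p) ^ 4 := by
  have h := mom_even I x hI Z b hb h0 W hW (Real.sqrt (2 / W)) (by positivity) 2 H hH
  have h1 : Real.sqrt (2 / W) ^ 2 = 2 / W := Real.sq_sqrt (by positivity)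
  have h2 : Real.sqrt (2 / W) ^ (2 * 2) = (2 / W) ^ 2 := by rw [pow_mul, h1]
  rw [h2, h1] at h
  have h3 : 2 / W * W = 2 := by field_simp
  rw [h3] at h
  have h4 : Real.exp 2 ≤ 7.5 := by
    have h5 := Real.exp_one_lt_d9
    have h6 : Real.exp 2 = Real.exp 1 * Real.exp 1 := by rw [← Real.exp_add]; norm_num
    rw [h6]
    have := Real.exp_pos 1
    nlinarith
  have h5 : ((2 * 2).factorial : ℝ) = 24 := by norm_num [Nat.factorial]
  rw [h5] at h
  have h6 : 2 * (24 : ℝ) / (2 / W) ^ 2 * Real.exp 2 ≤ 90 * W ^ 2 := by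
    have h7 : 2 * (24 : ℝ) / (2 / W) ^ 2 = 12 * W ^ 2 := by field_simp; ring
    rw [h7]
    nlinarith [sq_nonneg W, hW0]
  norm_num at h ⊢
  linarith

end Pool.Agent.X280.BP
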