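import Pool.Agent.X280.BP.Conic

/-!
# A family of curves of genus one with six marked points: averages
-/

set_option autoImplicit false
set_option linter.unusedSimpArgs false

namespace Pool.Agent.X280.BP

open Finset Pool.Agent.Y722.HS

variable {p : ℕ} [hp : Fact p.Prime]

/-- The quartic with the roots `1, 4, 9, 16`. -/
def cc {R : Type*} [CommRing R] (x : R) : R := (x - 1) * (x - 4) * (x - 9) * (x - 16)

/-- The right side of the equation `y² = x (u x + v)² + (x - 1) (x - 4) (x - 9) (x - 16)`. -/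
def ff {R : Type*} [CommRing R] (c : Fin 2 → R) (x : R) : R := x * (c 0 * x + c 1) ^ 2 + cc x

/-- The character of the value as a function of `u x + v`. -/
noncomputable def hh (x q : ZMod p) : ℝ := ch (x * q ^ 2 + cc x)

theorem hh_eq (c : Fin 2 → ZMod p) (x : ZMod p) : ch (ff c x) = hh x (c 0 * x + c 1) := rfl

theorem EM_two' (f : (Fin 2 → ZMod p) → ℝ) :
    EM p f = (∑ u : ZMod p, ∑ v : ZMod p, f ![u, v]) / (p : ℝ) ^ 2 := by
  unfold EM
  rw [Fintype.card_fin, ← Fintype.sum_prod_type']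
  congr 1
  refine Fintype.sum_equiv (finTwoArrowEquiv (ZMod p)) _ _ fun c => ?_
  congr 1
  funext i
  fin_cases i <;> rfl

/-- One value is uniform. -/
theorem EM_lin (x : ZMod p) (F : ZMod p → ℝ) :
    EM p (fun c : Fin 2 → ZMod p => F (c 0 * x + c 1)) = (∑ q : ZMod p, F q) / p := by
  have hp0 := p_pos' (p := p)
  rw [EM_two']
  have e : ∀ u : ZMod p, ∑ v : ZMod p, F ((![u, v] : Fin 2 → ZMod p) 0 * x +
      (![u, v] : Fin 2 → ZMod p) 1) = ∑ q : ZMod p, F q := by
    intro u
    exact Fintype.sum_equiv (Equiv.addLeft (u * x)) _ _ fun v => rfl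
  rw [Finset.sum_congr rfl fun u _ => e u, Finset.sum_const, Finset.card_univ, ZMod.card,
    nsmul_eq_mul]
  field_simp

/-- Two values at different points are independent. -/
theorem EM_lin2 {x x' : ZMod p} (hx : x ≠ x') (F F' : ZMod p → ℝ) :
    EM p (fun c : Fin 2 → ZMod p => F (c 0 * x + c 1) * F' (c 0 * x' + c 1)) =
      ((∑ q : ZMod p, F q) / p) * ((∑ q : ZMod p, F' q) / p) := by
  have hp0 := p_pos' (p := p)
  have hs : x - x' ≠ 0 := sub_ne_zero.mpr hx
  unfold EM
  rw [Fintype.card_fin]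
  have e : ∑ c : Fin 2 → ZMod p, F (c 0 * x + c 1) * F' (c 0 * x' + c 1) =
      ∑ q : ZMod p × ZMod p, F q.1 * F' q.2 := by
    refine Fintype.sum_equiv (Equiv.mk (fun c : Fin 2 → ZMod p => (c 0 * x + c 1, c 0 * x' + c 1))
      (fun q => ![(q.1 - q.2) / (x - x'), (x * q.2 - x' * q.1) / (x - x')]) ?_ ?_) _ _ fun c => rfl
    · intro c
      funext i
      fin_cases i
      · simp only [Matrix.cons_val]
        change (c 0 * x + c 1 - (c 0 * x' + c 1)) / (x - x') = c 0
        field_simp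
        ring
      · simp only [Matrix.cons_val]
        change (x * (c 0 * x' + c 1) - x' * (c 0 * x + c 1)) / (x - x') = c 1
        field_simp
        ring
    · intro q
      simp only [Matrix.cons_val_zero, Matrix.cons_val_one]
      apply Prod.ext
      · simp only
        field_simp
        ring
      · simp only
        field_simp
        ring
  rw [e, Fintype.sum_prod_type, ← Finset.sum_mul_sum]
  field_simp

/-- The mean value at `x`. -/
noncomputable def ee (x : ZMod p) : ℝ := (∑ q : ZMod p, hh x q) / p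

theorem sum_hh (h5 : 5 ≤ p) {x : ZMod p} (hx : x ≠ 0) :
    ∑ q : ZMod p, hh x q = ch x * (p * (if cc x = 0 then 1 else 0) - 1) := by
  have e1 : ∀ q : ZMod p, hh x q = ch x * ch (q ^ 2 - (-(cc x) / x)) := by
    intro q
    unfold hh
    rw [← ch_mul]
    congr 1
    field_simp
    ring
  simp only [e1]
  rw [← Finset.mul_sum, sum_quad h5]
  have : (-(cc x) / x = 0) ↔ cc x = 0 := by
    rw [div_eq_zero_iff, neg_eq_zero]
    exact or_iff_left hx
  simp only [this]

theorem ch_sq_val (h5 : 5 ≤ p) {a : ZMod p} (b : ZMod p) (hb : b ≠ 0) (hab : a = b ^ 2) : ch a = 1 := by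
  rw [hab, ch_of_sq, if_neg hb, sub_zero]

theorem three_ne (h5 : 5 ≤ p) : (3 : ZMod p) ≠ 0 := (char_ne (six_ne h5)).2.1

/-- The set of the roots. -/
noncomputable def RR (p : ℕ) [Fact p.Prime] : Finset (ZMod p) := {1, 4, 9, 16}

theorem cc_zero_iff (x : ZMod p) : cc x = 0 ↔ x ∈ RR p := by
  unfold cc RR
  simp only [mul_eq_zero, sub_eq_zero, Finset.mem_insert, Finset.mem_singleton]
  tauto

theorem natCast_ne (h11 : 11 ≤ p) {n : ℕ} (h0 : 0 < n) (hn : n < 11 ∨ n = 12 ∨ n = 15) :
    ((n : ℕ) : ZMod p) ≠ 0 := by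
  intro h
  rw [ZMod.natCast_eq_zero_iff] at h
  have hpp : p.Prime := hp.out
  have h1 := Nat.le_of_dvd h0 h
  rcases hn with h2 | h2 | h2
  · omega
  · subst h2
    have h3 : p ∣ 2 ^ 2 * 3 := by simpa using h
    rcases (Nat.Prime.dvd_mul hpp).mp h3 with h4 | h4
    · have := Nat.le_of_dvd (by norm_num) (hpp.dvd_of_dvd_pow h4); omega
    · have := Nat.le_of_dvd (by norm_num) h4; omega
  · subst h2
    have h3 : p ∣ 3 * 5 := by simpa using h
    rcases (Nat.Prime.dvd_mul hpp).mp h3 with h4 | h4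
    · have := Nat.le_of_dvd (by norm_num) h4; omega
    · have := Nat.le_of_dvd (by norm_num) h4; omega

theorem RR_card (h11 : 11 ≤ p) : (RR p).card = 4 := by
  have h (n : ℕ) (h0 : 0 < n) (hn : n < 11 ∨ n = 12 ∨ n = 15) := natCast_ne (p := p) h11 h0 hn
  have h3 := h 3 (by norm_num) (by norm_num)
  have h8 := h 8 (by norm_num) (by norm_num)
  have h15 := h 15 (by norm_num) (by norm_num)
  have h5 := h 5 (by norm_num) (by norm_num)
  have h12 := h 12 (by norm_num) (by norm_num)
  have h7 := h 7 (by norm_num) (by norm_num)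
  push_cast at h3 h8 h15 h5 h12 h7
  unfold RR
  rw [Finset.card_insert_of_notMem, Finset.card_insert_of_notMem, Finset.card_pair]
  · intro e; apply h7; linear_combination -e
  · rw [Finset.mem_insert, Finset.mem_singleton, not_or]
    exact ⟨fun e => h5 (by linear_combination -e), fun e => h12 (by linear_combination -e)⟩
  · rw [Finset.mem_insert, Finset.mem_insert, Finset.mem_singleton, not_or, not_or]
    exact ⟨fun e => h3 (by linear_combination -e), fun e => h8 (by linear_combination -e),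
      fun e => h15 (by linear_combination -e)⟩

theorem ch_root (h5 : 5 ≤ p) {x : ZMod p} (hx : x ∈ RR p) : ch x = 1 ∧ x ≠ 0 := by
  have h2 := two_ne (p := p) h5
  have h3 := three_ne (p := p) h5
  have h4 := four_ne (p := p) h5
  unfold RR at hx
  simp only [Finset.mem_insert, Finset.mem_singleton] at hx
  rcases hx with rfl | rfl | rfl | rfl
  · exact ⟨ch_sq_val h5 1 one_ne_zero (by norm_num), one_ne_zero⟩
  · exact ⟨ch_sq_val h5 2 h2 (by norm_num), h4⟩
  · refine ⟨ch_sq_val h5 3 h3 (by norm_num), ?_⟩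
    rw [show (9 : ZMod p) = 3 ^ 2 by norm_num]
    exact pow_ne_zero 2 h3
  · refine ⟨ch_sq_val h5 4 h4 (by norm_num), ?_⟩
    rw [show (16 : ZMod p) = 4 ^ 2 by norm_num]
    exact pow_ne_zero 2 h4

theorem hh_zero (h5 : 5 ≤ p) (q : ZMod p) : hh (0 : ZMod p) q = 1 := by
  unfold hh cc
  refine ch_sq_val h5 24 ?_ (by ring)
  rw [show (24 : ZMod p) = 2 ^ 3 * 3 by norm_num]
  exact mul_ne_zero (pow_ne_zero 3 (two_ne h5)) (three_ne h5)

theorem sum_ch (h5 : 5 ≤ p) : ∑ x : ZMod p, ch x = 0 := by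
  obtain ⟨h2, h3, hk⟩ := char_ne (six_ne (p := p) h5)
  have e2 : ∑ u : ZMod p, ch u = ((∑ u : ZMod p, quadraticChar (ZMod p) u : ℤ) : ℝ) := by
    unfold ch
    push_cast
    rfl
  rw [e2, quadraticChar_sum_zero hk]
  norm_num

theorem ch_zero' : ch (0 : ZMod p) = 0 := by unfold ch; simp

theorem ee_val (h5 : 5 ≤ p) (x : ZMod p) :
    ee x = (if x = 0 then 1 else 0) + (if x ∈ RR p then 1 else 0) - ch x / p := by
  have hp0 := p_pos' (p := p)
  unfold ee
  by_cases hx : x = 0
  · subst hx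
    have h0 : (0 : ZMod p) ∉ RR p := fun h => (ch_root h5 h).2 rfl
    rw [if_pos rfl, if_neg h0, ch_zero', Finset.sum_congr rfl fun q _ => hh_zero h5 q,
      Finset.sum_const, Finset.card_univ, ZMod.card, nsmul_eq_mul]
    field_simp
    ring
  · rw [if_neg hx, sum_hh h5 hx]
    by_cases hr : x ∈ RR p
    · rw [if_pos ((cc_zero_iff x).mpr hr), if_pos hr, (ch_root h5 hr).1]
      field_simp
      ring
    · rw [if_neg (fun h => hr ((cc_zero_iff x).mp h)), if_neg hr]
      ring

theorem sum_ee (h11 : 11 ≤ p) : ∑ x : ZMod p, ee x = 5 := by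
  have h5 : 5 ≤ p := by omega
  simp only [ee_val h5]
  rw [Finset.sum_sub_distrib, Finset.sum_add_distrib, ← Finset.sum_div, sum_ch h5,
    Finset.sum_ite_eq' univ (0 : ZMod p), if_pos (mem_univ _), Finset.sum_ite_mem, Finset.univ_inter,
    Finset.sum_const, RR_card h11]
  norm_num

theorem sum_ee_sq (h11 : 11 ≤ p) : 0 ≤ ∑ x : ZMod p, ee x ^ 2 ∧ ∑ x : ZMod p, ee x ^ 2 ≤ 6 := by
  have h5 : 5 ≤ p := by omega
  have hp0 := p_pos' (p := p)
  refine ⟨Finset.sum_nonneg fun x _ => sq_nonneg _, ?_⟩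
  have h1 : ∀ x : ZMod p, ee x ^ 2 ≤ (if x = 0 then 1 else 0) + (if x ∈ RR p then 1 else 0) +
      1 / (p : ℝ) ^ 2 := by
    intro x
    rw [ee_val h5]
    by_cases hx : x = 0
    · subst hx
      have h0 : (0 : ZMod p) ∉ RR p := fun h => (ch_root h5 h).2 rfl
      rw [if_pos rfl, if_neg h0, ch_zero']
      have : (0 : ℝ) ≤ 1 / (p : ℝ) ^ 2 := by positivity
      norm_num
    · rw [if_neg hx]
      by_cases hr : x ∈ RR p
      · rw [if_pos hr, (ch_root h5 hr).1]
        have h2 : (0 : ℝ) ≤ 1 / p := by positivity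
        have h3 : (1 : ℝ) / p ≤ 1 := by
          rw [div_le_one hp0]
          exact_mod_cast hp.out.one_lt.le
        have h4 : (1 : ℝ) / (p : ℝ) ^ 2 = (1 / p) ^ 2 := by ring
        rw [h4]
        nlinarith
      · rw [if_neg hr]
        have h2 := ch_abs x
        have h3 : ch x ^ 2 ≤ 1 := by
          rw [← sq_abs]; exact pow_le_one₀ (abs_nonneg _) h2
        have h4 : (0 + 0 - ch x / (p : ℝ)) ^ 2 = ch x ^ 2 / (p : ℝ) ^ 2 := by ring
        rw [h4, zero_add, zero_add]
        gcongr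
  refine (Finset.sum_le_sum fun x _ => h1 x).trans ?_
  rw [Finset.sum_add_distrib, Finset.sum_add_distrib,
    Finset.sum_ite_eq' univ (0 : ZMod p), if_pos (mem_univ _), Finset.sum_ite_mem, Finset.univ_inter,
    Finset.sum_const, RR_card h11, Finset.sum_const, Finset.card_univ, ZMod.card, nsmul_eq_mul]
  have h2 : (p : ℝ) * (1 / (p : ℝ) ^ 2) ≤ 1 := by
    rw [show (p : ℝ) * (1 / (p : ℝ) ^ 2) = 1 / p by field_simp, div_le_one hp0]
    exact_mod_cast hp.out.one_lt.le
  norm_num at h2 ⊢
  linarith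

/-- The character sum of the quartic. -/
noncomputable def SQ (c : Fin 2 → ZMod p) : ℝ := ∑ x : ZMod p, ch (ff c x)

theorem SQ_mean (h11 : 11 ≤ p) : EM p (fun c : Fin 2 → ZMod p => SQ c) = 5 := by
  unfold SQ
  rw [EM_sum']
  have e : ∀ x : ZMod p, EM p (fun c : Fin 2 → ZMod p => ch (ff c x)) = ee x := by
    intro x
    simp only [hh_eq]
    exact EM_lin x (hh x)
  rw [Finset.sum_congr rfl fun x _ => e x, sum_ee h11]

theorem SQ_sq (h11 : 11 ≤ p) : |EM p (fun c : Fin 2 → ZMod p => SQ c ^ 2) - p| ≤ 33 := by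
  classical
  have h5 : 5 ≤ p := by omega
  have hp0 := p_pos' (p := p)
  have e1 : EM p (fun c : Fin 2 → ZMod p => SQ c ^ 2) =
      ∑ x : ZMod p, ∑ x' : ZMod p, EM p (fun c : Fin 2 → ZMod p => ch (ff c x) * ch (ff c x')) := by
    rw [← Finset.sum_congr rfl fun x _ => EM_sum' univ fun x' (c : Fin 2 → ZMod p) =>
      ch (ff c x) * ch (ff c x'), ← EM_sum']
    congr 1
    funext c
    unfold SQ
    rw [pow_two, Finset.sum_mul_sum]
  have e2 : ∀ x x' : ZMod p, EM p (fun c : Fin 2 → ZMod p => ch (ff c x) * ch (ff c x')) =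
      ee x * ee x' + if x = x' then
        (EM p (fun c : Fin 2 → ZMod p => ch (ff c x) ^ 2) - ee x ^ 2) else 0 := by
    intro x x'
    by_cases hxx : x = x'
    · subst hxx
      rw [if_pos rfl]
      have : (fun c : Fin 2 → ZMod p => ch (ff c x) * ch (ff c x)) = fun c => ch (ff c x) ^ 2 := by
        funext c; ring
      rw [this]
      ring
    · rw [if_neg hxx, add_zero]
      simp only [hh_eq]
      exact EM_lin2 hxx (hh x) (hh x')
  have e3 : EM p (fun c : Fin 2 → ZMod p => SQ c ^ 2) = 25 +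
      (∑ x : ZMod p, EM p (fun c : Fin 2 → ZMod p => ch (ff c x) ^ 2) - ∑ x : ZMod p, ee x ^ 2) := by
    rw [e1]
    simp only [e2]
    have h1 : ∀ x : ZMod p, ∑ x' : ZMod p, (ee x * ee x' + if x = x' then
        (EM p (fun c : Fin 2 → ZMod p => ch (ff c x) ^ 2) - ee x ^ 2) else 0) =
        ee x * 5 + (EM p (fun c : Fin 2 → ZMod p => ch (ff c x) ^ 2) - ee x ^ 2) := by
      intro x
      rw [Finset.sum_add_distrib, ← Finset.mul_sum, sum_ee h11, Finset.sum_ite_eq univ x,
        if_pos (mem_univ _)]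
    rw [Finset.sum_congr rfl fun x _ => h1 x, Finset.sum_add_distrib, ← Finset.sum_mul, sum_ee h11,
      Finset.sum_sub_distrib]
    norm_num
  -- the diagonal
  have h2 : ∀ x : ZMod p, 1 - 2 / (p : ℝ) ≤ EM p (fun c : Fin 2 → ZMod p => ch (ff c x) ^ 2) ∧
      EM p (fun c : Fin 2 → ZMod p => ch (ff c x) ^ 2) ≤ 1 := by
    intro x
    have e4 : EM p (fun c : Fin 2 → ZMod p => ch (ff c x) ^ 2) =
        (∑ q : ZMod p, hh x q ^ 2) / p := by
      simp only [hh_eq]
      exact EM_lin x (fun q => hh x q ^ 2)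
    rw [e4]
    have e5 : ∑ q : ZMod p, hh x q ^ 2 = p - ∑ q : ZMod p, if x * q ^ 2 + cc x = 0 then (1 : ℝ) else 0 := by
      unfold hh
      simp only [ch_sq]
      rw [Finset.sum_sub_distrib, Finset.sum_const, Finset.card_univ, ZMod.card, nsmul_eq_mul, mul_one]
    rw [e5]
    have h6 : 0 ≤ ∑ q : ZMod p, if x * q ^ 2 + cc x = 0 then (1 : ℝ) else 0 :=
      Finset.sum_nonneg fun q _ => by split_ifs <;> norm_num
    have h7 : ∑ q : ZMod p, (if x * q ^ 2 + cc x = 0 then (1 : ℝ) else 0) ≤ 2 := by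
      by_cases hx : x = 0
      · subst hx
        have h8 : ∀ q : ZMod p, (if (0 : ZMod p) * q ^ 2 + cc (0 : ZMod p) = 0 then (1 : ℝ) else 0) = 0 := by
          intro q
          rw [if_neg]
          intro h
          have h9 := hh_zero h5 q
          unfold hh at h9
          rw [h, ch_zero'] at h9
          norm_num at h9
        rw [Finset.sum_congr rfl fun q _ => h8 q, Finset.sum_const_zero]
        norm_num
      · have h8 := count_sq h5 (-(cc x) / x) 0
        have h9 : ∀ q : ZMod p, (if x * q ^ 2 + cc x = 0 then (1 : ℝ) else 0) =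
            if (0 + q) ^ 2 = -(cc x) / x then (1 : ℝ) else 0 := by
          intro q
          have : x * q ^ 2 + cc x = 0 ↔ (0 + q) ^ 2 = -(cc x) / x := by
            rw [zero_add, eq_div_iff hx]
            constructor
            · intro h; linear_combination h
            · intro h; linear_combination h
          simp only [this]
        rw [Finset.sum_congr rfl fun q _ => h9 q, h8]
        have := (abs_le.mp (ch_abs (-(cc x) / x))).2
        linarith
    constructor
    · rw [sub_div, div_self hp0.ne']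
      gcongr
    · rw [div_le_one hp0]
      linarith
  have h3 : (p : ℝ) - 2 ≤ ∑ x : ZMod p, EM p (fun c : Fin 2 → ZMod p => ch (ff c x) ^ 2) := by
    have := Finset.sum_le_sum fun (x : ZMod p) (_ : x ∈ univ) => (h2 x).1
    rw [Finset.sum_const, Finset.card_univ, ZMod.card, nsmul_eq_mul] at this
    have e : (p : ℝ) * (1 - 2 / p) = p - 2 := by field_simp
    linarith
  have h4 : ∑ x : ZMod p, EM p (fun c : Fin 2 → ZMod p => ch (ff c x) ^ 2) ≤ p := by
    have := Finset.sum_le_sum fun (x : ZMod p) (_ : x ∈ univ) => (h2 x).2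
    rw [Finset.sum_const, Finset.card_univ, ZMod.card, nsmul_eq_mul, mul_one] at this
    exact this
  obtain ⟨h6, h7⟩ := sum_ee_sq (p := p) h11
  rw [e3, abs_le]
  constructor <;> linarith

end Pool.Agent.X280.BP
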