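import Pool.Agent.X280.BP.Six
import Pool.Agent.X280.BP.Final

/-!
# The family with six marked points: the Weierstrass model
-/

set_option autoImplicit false
set_option linter.unusedSimpArgs false
set_option linter.unusedVariables false

namespace Pool.Agent.X280.BP

open Finset Pool.Agent.Y722.HS

/-- The auxiliary polynomial `w = u² - 30`. -/
def w6 {R : Type*} [CommRing R] (c : Fin 2 → R) : R := c 0 ^ 2 - 30

/-- The auxiliary polynomial `G = 8 u v + 1092 - w²`. -/
def G6 {R : Type*} [CommRing R] (c : Fin 2 → R) : R := 8 * c 0 * c 1 + 1092 - w6 c ^ 2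

/-- The Weierstrass model of `y² = x (u x + v)² + (x - 1) (x - 4) (x - 9) (x - 16)`. -/
def V6 {R : Type*} [CommRing R] (c : Fin 2 → R) : WeierstrassCurve R :=
  ⟨2 * w6 c, -2 * G6 c, 16 * (c 1 ^ 2 - 820) - 2 * w6 c * G6 c, G6 c ^ 2 - 36864, 0⟩

variable {p : ℕ} [hp : Fact p.Prime]

/-- The function `8 (y + x²) + 4 w x + G`. -/
def tau (c : Fin 2 → ZMod p) (q : ZMod p × ZMod p) : ZMod p :=
  8 * q.2 + 8 * q.1 ^ 2 + 4 * w6 c * q.1 + G6 c

theorem eight_ne (h5 : 5 ≤ p) : (8 : ZMod p) ≠ 0 := by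
  rw [show (8 : ZMod p) = 2 ^ 3 by norm_num]
  exact pow_ne_zero 3 (two_ne h5)

/-- The key identity between the two models. -/
theorem key6 (c : Fin 2 → ZMod p) (x : ZMod p) :
    64 * ff c x = (8 * x ^ 2 + 4 * w6 c * x + G6 c) ^ 2 + 4 * (V6 c).a₃ * x - (V6 c).a₄ := by
  simp only [ff, cc, V6, G6, w6]
  ring

open Classical in
theorem count_A (c : Fin 2 → ZMod p) (h5 : 5 ≤ p) :
    (((univ : Finset (ZMod p × ZMod p)).filter fun q => q.2 ^ 2 = ff c q.1).card : ℝ) =
      p + SQ c := by
  rw [Finset.card_filter]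
  push_cast
  rw [Fintype.sum_prod_type]
  have h : ∀ x : ZMod p, ∑ y : ZMod p, (if (x, y).2 ^ 2 = ff c (x, y).1 then (1 : ℝ) else 0) =
      1 + ch (ff c x) := by
    intro x
    have := count_sq h5 (ff c x) 0
    simp only [zero_add] at this
    convert this using 1
  rw [Finset.sum_congr rfl fun x _ => h x, Finset.sum_add_distrib, Finset.sum_const,
    Finset.card_univ, ZMod.card, nsmul_eq_mul, mul_one]
  rfl

open Classical in
theorem count_B (c : Fin 2 → ZMod p) :
    pts (V6 c) = ((univ : Finset (ZMod p × ZMod p)).filter fun q =>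
      q.2 ^ 2 + (V6 c).a₁ * q.1 * q.2 + (V6 c).a₃ * q.2 =
        q.1 ^ 3 + (V6 c).a₂ * q.1 ^ 2 + (V6 c).a₄ * q.1 + (V6 c).a₆).card := by
  unfold pts
  rw [Nat.card_eq_fintype_card, Fintype.card_subtype]

open Classical in
/-- The points with `T ≠ 0` correspond to each other. -/
theorem count_AB (c : Fin 2 → ZMod p) (h5 : 5 ≤ p) :
    (((univ : Finset (ZMod p × ZMod p)).filter fun q => q.2 ^ 2 = ff c q.1).filter
      fun q => tau c q ≠ 0).card =
    (((univ : Finset (ZMod p × ZMod p)).filter fun q =>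
      q.2 ^ 2 + (V6 c).a₁ * q.1 * q.2 + (V6 c).a₃ * q.2 =
        q.1 ^ 3 + (V6 c).a₂ * q.1 ^ 2 + (V6 c).a₄ * q.1 + (V6 c).a₆).filter
      fun q => q.1 ≠ 0).card := by
  have h8 := eight_ne (p := p) h5
  have h4 := four_ne (p := p) h5
  have h64 : (64 : ZMod p) ≠ 0 := by
    rw [show (64 : ZMod p) = 8 ^ 2 by norm_num]
    exact pow_ne_zero 2 h8
  refine Finset.card_nbij' (fun q => (tau c q, 4 * q.1 * tau c q))
    (fun q => (q.2 / (4 * q.1), q.1 / 8 - ((q.2 / (4 * q.1)) ^ 2 + w6 c / 2 * (q.2 / (4 * q.1)) +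
      G6 c / 8))) ?_ ?_ ?_ ?_
  · intro q hq
    rw [Finset.mem_coe, Finset.mem_filter, Finset.mem_filter] at hq
    obtain ⟨⟨_, hq1⟩, hq2⟩ := hq
    rw [Finset.mem_coe, Finset.mem_filter, Finset.mem_filter]
    refine ⟨⟨mem_univ _, ?_⟩, hq2⟩
    have hk := key6 c q.1
    rw [← hq1] at hk
    have ha1 : (V6 c).a₁ = 2 * w6 c := rfl
    have ha2 : (V6 c).a₂ = -2 * G6 c := rfl
    have ha6 : (V6 c).a₆ = 0 := rfl
    simp only [ha1, ha2, ha6]
    have e : tau c q = 8 * q.2 + 8 * q.1 ^ 2 + 4 * w6 c * q.1 + G6 c := rfl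
    have ha4 : (V6 c).a₄ = (8 * q.1 ^ 2 + 4 * w6 c * q.1 + G6 c) ^ 2 + 4 * (V6 c).a₃ * q.1 -
        64 * q.2 ^ 2 := by linear_combination hk
    rw [ha4, e]
    ring
  · intro q hq
    rw [Finset.mem_coe, Finset.mem_filter, Finset.mem_filter] at hq
    obtain ⟨⟨_, hq1⟩, hq2⟩ := hq
    rw [Finset.mem_coe, Finset.mem_filter, Finset.mem_filter]
    have h2 := two_ne (p := p) h5
    have hq2' : q.1 ≠ 0 := hq2
    set x := q.2 / (4 * q.1) with hx
    have hq3 : q.2 = 4 * x * q.1 := by rw [hx]; field_simp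
    have ha1 : (V6 c).a₁ = 2 * w6 c := rfl
    have ha2 : (V6 c).a₂ = -2 * G6 c := rfl
    have ha6 : (V6 c).a₆ = 0 := rfl
    rw [ha1, ha2, ha6, hq3] at hq1
    have hq4 : 16 * x ^ 2 * q.1 + 8 * w6 c * x * q.1 + 4 * (V6 c).a₃ * x =
        q.1 ^ 2 - 2 * G6 c * q.1 + (V6 c).a₄ := by
      apply mul_left_cancel₀ hq2'
      linear_combination hq1
    have ht : 8 * (q.1 / 8 - (x ^ 2 + w6 c / 2 * x + G6 c / 8)) =
        q.1 - (8 * x ^ 2 + 4 * w6 c * x + G6 c) := by
      field_simp
      ring
    refine ⟨⟨mem_univ _, ?_⟩, ?_⟩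
    · simp only
      apply mul_left_cancel₀ h64
      rw [key6 c x]
      have e1 : 64 * (q.1 / 8 - (x ^ 2 + w6 c / 2 * x + G6 c / 8)) ^ 2 =
          (8 * (q.1 / 8 - (x ^ 2 + w6 c / 2 * x + G6 c / 8))) ^ 2 := by ring
      rw [e1, ht]
      linear_combination -hq4
    · unfold tau
      simp only
      rw [ht]
      intro h0
      apply hq2'
      linear_combination h0
  · intro q hq
    rw [Finset.mem_coe, Finset.mem_filter, Finset.mem_filter] at hq
    obtain ⟨⟨_, hq1⟩, hq2⟩ := hq
    have h2 := two_ne (p := p) h5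
    have e1 : 4 * q.1 * tau c q / (4 * tau c q) = q.1 := by field_simp
    apply Prod.ext
    · simp only
      exact e1
    · simp only
      rw [e1]
      unfold tau
      field_simp
      ring
  · intro q hq
    rw [Finset.mem_coe, Finset.mem_filter, Finset.mem_filter] at hq
    obtain ⟨⟨_, hq1⟩, hq2⟩ := hq
    have h2 := two_ne (p := p) h5
    have hq2' : q.1 ≠ 0 := hq2
    set x := q.2 / (4 * q.1) with hx
    have ht : 8 * (q.1 / 8 - (x ^ 2 + w6 c / 2 * x + G6 c / 8)) =
        q.1 - (8 * x ^ 2 + 4 * w6 c * x + G6 c) := by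
      field_simp
      ring
    have e1 : tau c (x, q.1 / 8 - (x ^ 2 + w6 c / 2 * x + G6 c / 8)) = q.1 := by
      unfold tau
      simp only
      rw [ht]
      ring
    apply Prod.ext
    · simp only
      exact e1
    · simp only
      rw [e1]
      field_simp

open Classical in
/-- The relation between the two counts. -/
theorem count_rel (c : Fin 2 → ZMod p) (h5 : 5 ≤ p) (h : (V6 c).a₃ ≠ 0 ∨ (V6 c).a₄ ≠ 0) :
    (pts (V6 c) : ℝ) = p + SQ c + 1 := by
  rw [← count_A c h5, count_B]
  have h8 := eight_ne (p := p) h5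
  have h4 := four_ne (p := p) h5
  set A := (univ : Finset (ZMod p × ZMod p)).filter fun q => q.2 ^ 2 = ff c q.1 with hA
  set B := (univ : Finset (ZMod p × ZMod p)).filter fun q =>
      q.2 ^ 2 + (V6 c).a₁ * q.1 * q.2 + (V6 c).a₃ * q.2 =
        q.1 ^ 3 + (V6 c).a₂ * q.1 ^ 2 + (V6 c).a₄ * q.1 + (V6 c).a₆ with hB
  have h1 := Finset.card_filter_add_card_filter_not (s := A) (fun q => tau c q ≠ 0)
  have h2 := Finset.card_filter_add_card_filter_not (s := B) (fun q => q.1 ≠ 0)
  have h3 : (A.filter fun q => tau c q ≠ 0).card = (B.filter fun q => q.1 ≠ 0).card :=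
    count_AB c h5
  -- the points with `T = 0`
  have hA0 : (A.filter fun q => ¬ tau c q ≠ 0).card =
      ((univ : Finset (ZMod p)).filter fun x => 4 * (V6 c).a₃ * x = (V6 c).a₄).card := by
    refine Finset.card_nbij' (fun q => q.1)
      (fun x => (x, -(8 * x ^ 2 + 4 * w6 c * x + G6 c) / 8)) ?_ ?_ ?_ ?_
    · intro q hq
      rw [Finset.mem_coe, Finset.mem_filter, hA, Finset.mem_filter, not_not] at hq
      obtain ⟨⟨_, hq1⟩, hq2⟩ := hq
      rw [Finset.mem_coe, Finset.mem_filter]
      refine ⟨mem_univ _, ?_⟩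
      have hk := key6 c q.1
      rw [← hq1] at hk
      unfold tau at hq2
      have e : 8 * q.2 = -(8 * q.1 ^ 2 + 4 * w6 c * q.1 + G6 c) := by linear_combination hq2
      have e2 : 64 * q.2 ^ 2 = (8 * q.1 ^ 2 + 4 * w6 c * q.1 + G6 c) ^ 2 := by
        rw [show 64 * q.2 ^ 2 = (8 * q.2) ^ 2 by ring, e]
        ring
      change 4 * (V6 c).a₃ * q.1 = (V6 c).a₄
      linear_combination e2 - hk
    · intro x hx
      rw [Finset.mem_coe, Finset.mem_filter] at hx
      rw [Finset.mem_coe, Finset.mem_filter, hA, Finset.mem_filter, not_not]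
      refine ⟨⟨mem_univ _, ?_⟩, ?_⟩
      · simp only
        have hk := key6 c x
        have h64 : (64 : ZMod p) ≠ 0 := by
          rw [show (64 : ZMod p) = 8 ^ 2 by norm_num]
          exact pow_ne_zero 2 h8
        apply mul_left_cancel₀ h64
        rw [hk]
        have e : 64 * (-(8 * x ^ 2 + 4 * w6 c * x + G6 c) / 8) ^ 2 =
            (8 * x ^ 2 + 4 * w6 c * x + G6 c) ^ 2 := by
          field_simp
          ring
        rw [e]
        linear_combination -hx.2
      · unfold tau
        simp only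
        field_simp
        ring
    · intro q hq
      rw [Finset.mem_coe, Finset.mem_filter, hA, Finset.mem_filter, not_not] at hq
      obtain ⟨⟨_, hq1⟩, hq2⟩ := hq
      unfold tau at hq2
      apply Prod.ext
      · rfl
      · simp only
        rw [div_eq_iff h8]
        linear_combination -hq2
    · intro x hx
      rfl
  have hB0 : (B.filter fun q => ¬ q.1 ≠ 0).card =
      ((univ : Finset (ZMod p)).filter fun y => y * (y + (V6 c).a₃) = 0).card := by
    refine Finset.card_nbij' (fun q => q.2) (fun y => (0, y)) ?_ ?_ ?_ ?_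
    · intro q hq
      rw [Finset.mem_coe, Finset.mem_filter, hB, Finset.mem_filter, not_not] at hq
      obtain ⟨⟨_, hq1⟩, hq2⟩ := hq
      rw [Finset.mem_coe, Finset.mem_filter]
      refine ⟨mem_univ _, ?_⟩
      have ha6 : (V6 c).a₆ = 0 := rfl
      rw [hq2, ha6] at hq1
      change q.2 * (q.2 + (V6 c).a₃) = 0
      linear_combination hq1
    · intro y hy
      rw [Finset.mem_coe, Finset.mem_filter] at hy
      rw [Finset.mem_coe, Finset.mem_filter, hB, Finset.mem_filter, not_not]
      refine ⟨⟨mem_univ _, ?_⟩, rfl⟩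
      have ha6 : (V6 c).a₆ = 0 := rfl
      simp only [ha6]
      linear_combination hy.2
    · intro q hq
      rw [Finset.mem_coe, Finset.mem_filter, not_not] at hq
      apply Prod.ext
      · exact hq.2.symm
      · rfl
    · intro y hy
      rfl
  have hfin : (A.filter fun q => ¬ tau c q ≠ 0).card + 1 = (B.filter fun q => ¬ q.1 ≠ 0).card := by
    rw [hA0, hB0]
    by_cases h3' : (V6 c).a₃ = 0
    · have h4' : (V6 c).a₄ ≠ 0 := by
        rcases h with h | h
        · exact absurd h3' h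
        · exact h
      rw [h3']
      have e1 : ((univ : Finset (ZMod p)).filter fun x => 4 * 0 * x = (V6 c).a₄) = ∅ := by
        rw [Finset.filter_eq_empty_iff]
        intro x _ hx
        apply h4'
        rw [← hx]
        ring
      have e2 : ((univ : Finset (ZMod p)).filter fun y => y * (y + 0) = 0) = {0} := by
        ext y
        simp only [Finset.mem_filter, Finset.mem_univ, true_and, add_zero, Finset.mem_singleton,
          mul_self_eq_zero]
      rw [e1, e2]
      simp
    · have e1 : ((univ : Finset (ZMod p)).filter fun x => 4 * (V6 c).a₃ * x = (V6 c).a₄) =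
          {(V6 c).a₄ / (4 * (V6 c).a₃)} := by
        ext x
        simp only [Finset.mem_filter, Finset.mem_univ, true_and, Finset.mem_singleton]
        rw [eq_div_iff (mul_ne_zero h4 h3'), mul_comm x]
      have e2 : ((univ : Finset (ZMod p)).filter fun y => y * (y + (V6 c).a₃) = 0) =
          {0, -(V6 c).a₃} := by
        ext y
        simp only [Finset.mem_filter, Finset.mem_univ, true_and, Finset.mem_insert,
          Finset.mem_singleton, mul_eq_zero, add_eq_zero_iff_eq_neg]
      rw [e1, e2, Finset.card_singleton, Finset.card_pair]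
      intro h0
      apply h3'
      linear_combination h0
  have hfinal : B.card = A.card + 1 := by omega
  rw [hfinal]
  push_cast
  ring

end Pool.Agent.X280.BP
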