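import Pool.Agent.X280.BP.Main

/-!
# Taylor expansion of `exp (i u)`, the variance
-/

set_option autoImplicit false

namespace Pool.Agent.X280.BP

open Finset Filter Topology Pool.Agent.Y722.HS

/-- The remainder of the exponential series at `i u`. -/
noncomputable def rem (n : ℕ) (u : ℝ) : ℂ :=
  Complex.exp (u * Complex.I) - ∑ j ∈ range n, (u * Complex.I) ^ j / (j.factorial : ℂ)

theorem hasDerivAt_rem (n : ℕ) (u : ℝ) :
    HasDerivAt (fun u : ℝ => rem (n + 1) u) (Complex.I * rem n u) u := by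
  unfold rem
  have h1 : HasDerivAt (fun u : ℝ => (u : ℂ) * Complex.I) Complex.I u := by
    have := (Complex.ofRealCLM.hasDerivAt (x := u)).mul_const Complex.I
    simpa using this
  have h2 : HasDerivAt (fun u : ℝ => Complex.exp (u * Complex.I))
      (Complex.exp (u * Complex.I) * Complex.I) u := h1.cexp
  have h3 : HasDerivAt (fun u : ℝ => ∑ j ∈ range (n + 1), (u * Complex.I) ^ j / (j.factorial : ℂ))
      (∑ j ∈ range (n + 1), (j * (u * Complex.I) ^ (j - 1) * Complex.I) / (j.factorial : ℂ)) u := by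
    apply HasDerivAt.fun_sum
    intro j _
    exact (h1.pow j).div_const _
  refine (h2.fun_sub h3).congr_deriv ?_
  symm
  rw [Finset.sum_range_succ']
  simp only [Nat.cast_zero, zero_mul, zero_div, add_zero, Nat.add_sub_cancel]
  rw [mul_sub, Finset.mul_sum, mul_comm Complex.I]
  congr 1
  refine Finset.sum_congr rfl fun j _ => ?_
  rw [Nat.factorial_succ]
  have : ((j.factorial : ℕ) : ℂ) ≠ 0 := by exact_mod_cast Nat.factorial_ne_zero j
  have h5 : ((j + 1 : ℕ) : ℂ) ≠ 0 := by exact_mod_cast Nat.succ_ne_zero j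
  push_cast at h5 ⊢
  field_simp

theorem rem_zero (n : ℕ) : rem (n + 1) 0 = 0 := by
  unfold rem
  rw [Finset.sum_range_succ']
  simp

theorem rem_le_pos (n : ℕ) : ∀ u : ℝ, 0 ≤ u → ‖rem n u‖ ≤ u ^ n / n.factorial := by
  induction n with
  | zero =>
    intro u _
    unfold rem
    simp [Complex.norm_exp_ofReal_mul_I]
  | succ n ih =>
    intro u hu
    have hB : ∀ x : ℝ, HasDerivAt (fun x : ℝ => x ^ (n + 1) / ((n + 1).factorial : ℝ))
        (x ^ n / (n.factorial : ℝ)) x := by
      intro x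
      refine ((hasDerivAt_pow (n + 1) x).div_const (((n + 1).factorial : ℕ) : ℝ)).congr_deriv ?_
      rw [Nat.factorial_succ]
      have : ((n.factorial : ℕ) : ℝ) ≠ 0 := by exact_mod_cast Nat.factorial_ne_zero n
      push_cast
      field_simp
    have h2 := image_norm_le_of_norm_deriv_right_le_deriv_boundary (a := 0) (b := u)
      (f := fun u : ℝ => rem (n + 1) u) (f' := fun u => Complex.I * rem n u)
      (fun x _ => (hasDerivAt_rem n x).continuousAt.continuousWithinAt)
      (fun x _ => (hasDerivAt_rem n x).hasDerivWithinAt)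
      (B := fun x : ℝ => x ^ (n + 1) / ((n + 1).factorial : ℝ))
      (B' := fun x => x ^ n / (n.factorial : ℝ)) (by
        rw [rem_zero]
        simp) hB (fun x hx => by
        rw [norm_mul, Complex.norm_I, one_mul]
        exact ih x hx.1)
    exact h2 ⟨hu, le_rfl⟩

theorem rem_le (n : ℕ) (u : ℝ) : ‖rem n u‖ ≤ |u| ^ n / n.factorial := by
  rcases le_total 0 u with h | h
  · rw [abs_of_nonneg h]
    exact rem_le_pos n u h
  · rw [abs_of_nonpos h]
    have h1 := rem_le_pos n (-u) (by linarith)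
    have h2 : rem n (-u) = (starRingEnd ℂ) (rem n u) := by
      unfold rem
      rw [map_sub, map_sum, ← Complex.exp_conj]
      congr 1
      · congr 1
        simp
      · refine Finset.sum_congr rfl fun j _ => ?_
        rw [map_div₀, map_pow]
        simp
    rw [h2, Complex.norm_conj] at h1
    exact h1

variable {ι : Type} [Fintype ι] [DecidableEq ι]
variable {a : ∀ p : ℕ, (ι → ZMod p) → ℝ} {G : ∀ p : ℕ, (ι → ZMod p) → Prop} {r C : ℝ}

/-- **The variance.** -/
theorem Dat.var (D : Dat a G r C) {p : ℕ} (hp : p.Prime) (h5 : 5 ≤ p) [NeZero p] :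
    |EM p (fun c => ZZ a G p c ^ 2) - 1 / p| ≤ (22 + 31 * C + 5 * |r + 1 / 2|) / (p * √p) := by
  classical
  obtain ⟨h0, h1, h2, h3, h4, h6⟩ := sqrt_facts hp h5
  have hmu := D.mu_le hp h5
  have hC := D.C1
  have hmean := D.sys.mean p hp
  set s := √(p : ℝ) with hs
  have hps : (0 : ℝ) < p * s := by positivity
  have hss : s * s = p := h1
  -- centring
  have e1 : EM p (fun c => ZZ a G p c ^ 2) = EM p (fun c => uu a G p c ^ 2) - mu a G p ^ 2 := by
    have e2 : (fun c => ZZ a G p c ^ 2) = fun c => uu a G p c ^ 2 -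
        ((2 * mu a G p) * uu a G p c - mu a G p ^ 2) := by
      funext c
      unfold ZZ
      rw [if_pos h5]
      ring
    rw [e2, EM_sub', EM_sub', EM_mul', EM_const', ← mu_eq]
    ring
  -- the main part
  have e3 : EM p (fun c => uu a G p c ^ 2) = EM p (fun c => (1 / (p : ℝ) ^ 2) * a p c ^ 2) +
      EM p (fun c => uu a G p c ^ 2 - (1 / (p : ℝ) ^ 2) * a p c ^ 2) := by
    rw [EM_sub']
    ring
  have hpt : ∀ c, |uu a G p c ^ 2 - (1 / (p : ℝ) ^ 2) * a p c ^ 2| ≤ 22 / (p * s) := by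
    intro c
    unfold uu
    split_ifs with hG
    · have ha := D.hasse p hp h5 c
      rw [← hs] at ha
      have ha2 : a p c ^ 2 ≤ 4 * p := by
        have := sq_le_sq' (by have := (abs_le.mp ha).1; linarith) (abs_le.mp ha).2
        calc a p c ^ 2 ≤ (2 * s) ^ 2 := this
          _ = 4 * (s * s) := by ring
          _ = 4 * p := by rw [h1]
      set v : ℝ := (a p c ^ 2 - 2 * p) / (2 * p ^ 2) with hv
      have hv1 : |v| ≤ 2 / p := by
        rw [hv, abs_div, abs_of_pos (by positivity : (0 : ℝ) < 2 * p ^ 2),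
          div_le_div_iff₀ (by positivity) h4]
        have : |a p c ^ 2 - 2 * (p : ℝ)| ≤ 4 * (p : ℝ) := by
          rw [abs_le]
          constructor
          · nlinarith [sq_nonneg (a p c)]
          · nlinarith
        nlinarith
      have hw : |a p c / p| ≤ 2 / s := by
        rw [abs_div, abs_of_pos h4, div_le_div_iff₀ h4 h0]
        calc |a p c| * s ≤ 2 * s * s := by gcongr
          _ = 2 * p := by rw [mul_assoc, h1]
      have e4 : (a p c / p + v) ^ 2 - 1 / (p : ℝ) ^ 2 * a p c ^ 2 = 2 * (a p c / p) * v + v ^ 2 := by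
        field_simp
        ring
      rw [e4]
      have k1 : |2 * (a p c / p) * v| ≤ 8 / (p * s) := by
        rw [abs_mul, abs_mul, abs_two]
        calc 2 * |a p c / p| * |v| ≤ 2 * (2 / s) * (2 / p) := by gcongr
          _ = 8 / (p * s) := by field_simp; norm_num
      have k2 : |v ^ 2| ≤ 4 / (p * s) := by
        rw [abs_pow]
        calc |v| ^ 2 ≤ (2 / (p : ℝ)) ^ 2 := by gcongr
          _ = 4 / ((p : ℝ) * p) := by field_simp; norm_num
          _ ≤ 4 / (p * s) := by gcongr
      calc _ ≤ |2 * (a p c / p) * v| + |v ^ 2| := abs_add_le _ _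
        _ ≤ 8 / (p * s) + 4 / (p * s) := add_le_add k1 k2
        _ = 12 / (p * s) := by ring
        _ ≤ 22 / (p * s) := by gcongr; norm_num
    · have hb := D.bad p hp h5 c hG
      have hb2 : a p c ^ 2 ≤ 1 := by
        have := sq_le_sq' (by have := (abs_le.mp hb).1; linarith) (abs_le.mp hb).2
        linarith
      have e4 : (0 : ℝ) ^ 2 - 1 / (p : ℝ) ^ 2 * a p c ^ 2 = -(1 / (p : ℝ) ^ 2 * a p c ^ 2) := by ring
      rw [e4, abs_neg, abs_of_nonneg (by positivity)]
      calc 1 / (p : ℝ) ^ 2 * a p c ^ 2 ≤ 1 / (p : ℝ) ^ 2 * 1 := by gcongr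
        _ = 1 / ((p : ℝ) * p) := by rw [mul_one, pow_two]
        _ ≤ 22 / (p * s) := by
          apply div_le_div₀ (by norm_num) (by norm_num) hps
          gcongr
  have k3 : |EM p (fun c => uu a G p c ^ 2 - (1 / (p : ℝ) ^ 2) * a p c ^ 2)| ≤ 22 / (p * s) := by
    refine (EM_abs_le p _ (fun _ => 22 / (p * s)) hpt).trans (le_of_eq (EM_const' p _))
  have k4 : |EM p (fun c => (1 / (p : ℝ) ^ 2) * a p c ^ 2) - 1 / p| ≤ C / (p * s) := by
    rw [EM_mul']
    have h7 := D.sq p hp h5
    rw [← hs] at h7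
    have e5 : 1 / (p : ℝ) ^ 2 * EM p (fun c => a p c ^ 2) - 1 / p =
        (EM p (fun c => a p c ^ 2) - p) / p ^ 2 := by
      field_simp
    rw [e5, abs_div, abs_of_pos (by positivity : (0 : ℝ) < (p : ℝ) ^ 2),
      div_le_div_iff₀ (by positivity) hps]
    calc |EM p (fun c => a p c ^ 2) - p| * (p * s) ≤ C * s * (p * s) := by gcongr
      _ = C * (p * (s * s)) := by ring
      _ = C * (p : ℝ) ^ 2 := by rw [h1]; ring
  have k5 : |mu a G p ^ 2| ≤ (30 * C + 5 * |r + 1 / 2|) / (p * s) := by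
    rw [abs_pow]
    have h8 := D.mu_val hp h5
    rw [← hs] at h8
    have h9 : |mu a G p| ^ 2 ≤ 5 / s * |mu a G p| := by
      rw [pow_two]
      exact mul_le_mul_of_nonneg_right hmu (abs_nonneg _)
    have h10 : |mu a G p| ≤ (6 * C + |r + 1 / 2|) / p := by
      have e7 : mu a G p = (mu a G p + (r + 1 / 2) / p) - (r + 1 / 2) / p := by ring
      have h11 : |mu a G p| ≤ 6 * C / (p * s) + |r + 1 / 2| / p := by
        rw [e7]
        refine (abs_sub _ _).trans (add_le_add h8 ?_)
        rw [abs_div, abs_of_pos h4]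
      have h12 : 6 * C / (p * s) ≤ 6 * C / p := by
        apply div_le_div_of_nonneg_left (by linarith) h4
        nlinarith
      have h13 : (6 * C + |r + 1 / 2|) / p = 6 * C / p + |r + 1 / 2| / p := by ring
      rw [h13]
      linarith
    refine h9.trans ?_
    calc 5 / s * |mu a G p| ≤ 5 / s * ((6 * C + |r + 1 / 2|) / p) := by gcongr
      _ = (30 * C + 5 * |r + 1 / 2|) / (p * s) := by field_simp; ring
  rw [e1, e3]
  have e6 : EM p (fun c => (1 / (p : ℝ) ^ 2) * a p c ^ 2) +
      EM p (fun c => uu a G p c ^ 2 - (1 / (p : ℝ) ^ 2) * a p c ^ 2) - mu a G p ^ 2 - 1 / p =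
      (EM p (fun c => (1 / (p : ℝ) ^ 2) * a p c ^ 2) - 1 / p) +
      EM p (fun c => uu a G p c ^ 2 - (1 / (p : ℝ) ^ 2) * a p c ^ 2) - mu a G p ^ 2 := by ring
  rw [e6]
  calc _ ≤ |EM p (fun c => (1 / (p : ℝ) ^ 2) * a p c ^ 2) - 1 / p| +
      |EM p (fun c => uu a G p c ^ 2 - (1 / (p : ℝ) ^ 2) * a p c ^ 2)| + |mu a G p ^ 2| :=
        (abs_sub _ _).trans (add_le_add (abs_add_le _ _) le_rfl)
    _ ≤ C / (p * s) + 22 / (p * s) + (30 * C + 5 * |r + 1 / 2|) / (p * s) :=
        add_le_add (add_le_add k4 k3) k5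
    _ = (22 + 31 * C + 5 * |r + 1 / 2|) / (p * s) := by ring

end Pool.Agent.X280.BP
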