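import Pool.Agent.X280.BP.Abs2

/-!
# The normal law for triangular systems
-/

set_option autoImplicit false
set_option linter.unusedSectionVars false

namespace Pool.Agent.X280.BP

open Finset Filter Topology Pool.Agent.Y722.HS MeasureTheory ProbabilityTheory

variable {ι : Type} [Fintype ι] [DecidableEq ι]

theorem phi_scale (Z : ∀ p : ℕ, (ι → ZMod p) → ℝ) (x : ℕ) (T s : ℝ) :
    phi (fun p c => T * Z p c) x s = phi Z x (s * T) := by
  unfold phi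
  refine Finset.prod_congr rfl fun p _ => ?_
  congr 1
  funext c
  rw [mul_assoc]

theorem SS_scale (Z : ∀ p : ℕ, (ι → ZMod p) → ℝ) (x : ℕ) (T : ℝ) (c : ι → ℤ) :
    SS (fun p c => T * Z p c) 0 x c = T * SS Z 0 x c := by
  unfold SS
  rw [Finset.mul_sum]

/-- **Convergence of the characteristic functions for triangular systems.** -/
theorem clt_tri (Z : ℕ → ∀ p : ℕ, (ι → ZMod p) → ℝ) (b : ℕ → ℕ → ℝ) {B W v m : ℝ} (hB1 : 1 ≤ B)
    (hW0 : 0 < W) (hv0 : 0 ≤ v)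
    (hb : ∀ᶠ y : ℕ in atTop, ∀ p ∈ (Ico 0 (y + 1)).filter Nat.Prime, ∀ c, |Z y p c| ≤ b y p)
    (hbB : ∀ᶠ y : ℕ in atTop, ∀ p ∈ (Ico 0 (y + 1)).filter Nat.Prime, b y p ≤ B)
    (hmean : ∀ᶠ y : ℕ in atTop, ∀ p ∈ (Ico 0 (y + 1)).filter Nat.Prime, ∀ [NeZero p],
      EM p (Z y p) = 0)
    (hW : ∀ᶠ y : ℕ in atTop, ∑ p ∈ (Ico 0 (y + 1)).filter Nat.Prime, b y p ^ 2 ≤ W)
    (h3 : Tendsto (fun y : ℕ => ∑ p ∈ (Ico 0 (y + 1)).filter Nat.Prime, b y p ^ 3) atTop (𝓝 0))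
    (hv : Tendsto (fun y : ℕ => ∑ p ∈ (Ico 0 (y + 1)).filter Nat.Prime, vv (Z y) p) atTop (𝓝 v))
    (Q : ℕ → (ι → ℤ) → ℝ) (η : ℕ → ℝ) (hη : Tendsto η atTop (𝓝 0))
    (hQ : ∀ᶠ y : ℕ in atTop, ∀ c, |Q y c - (m + SS (Z y) 0 (y + 1) c)| ≤ η y)
    (t : ℝ) {ε : ℝ} (hε : 0 < ε) :
    ∃ k : ℕ, ∀ᶠ y : ℕ in atTop, ∀ H : ℕ, y ^ k ≤ H →
      ‖EBc H (fun c => Complex.exp ((t * Q y c : ℝ) * Complex.I)) -
        Complex.exp ((t * m : ℝ) * Complex.I) * (Real.exp (-(t ^ 2 * v / 2)) : ℝ)‖ ≤ ε := by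
  have hB0 : 0 < B := lt_of_lt_of_le one_pos hB1
  set n := Fintype.card ι with hn
  set T : ℝ := max 1 |t| with hT
  have hT1 : 1 ≤ T := le_max_left _ _
  have hT0 : 0 < T := by linarith
  set s : ℝ := t / T with hs
  have hs1 : |s| ≤ 1 := by
    rw [hs, abs_div, abs_of_pos hT0, div_le_one hT0]
    exact le_max_right _ _
  have hsT : s * T = t := by rw [hs]; field_simp
  -- the number of moments
  obtain ⟨k, hk1, hk2, hk3⟩ : ∃ k : ℕ, 1 ≤ k ∧ T ^ 2 * W * Real.exp 1 * 2 ≤ k ∧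
      4 * (1 / 2 : ℝ) ^ k ≤ ε / 5 := by
    have h1 : ∀ᶠ k : ℕ in atTop, T ^ 2 * W * Real.exp 1 * 2 ≤ k :=
      tendsto_natCast_atTop_atTop.eventually_ge_atTop _
    have h2 : Tendsto (fun k : ℕ => 4 * (1 / 2 : ℝ) ^ k) atTop (𝓝 (4 * 0)) :=
      (tendsto_pow_atTop_nhds_zero_of_lt_one (by norm_num) (by norm_num)).const_mul _
    rw [mul_zero] at h2
    have h3 := h2.eventually (ge_mem_nhds (show (0 : ℝ) < ε / 5 by positivity))
    obtain ⟨k, hk⟩ := ((eventually_ge_atTop 1).and (h1.and h3)).exists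
    exact ⟨k, hk.1, hk.2.1, hk.2.2⟩
  refine ⟨4 * k + 1, ?_⟩
  have hE : (0 : ℝ) < ε / 5 := by positivity
  have hz3 : ∀ K : ℝ, Tendsto (fun y : ℕ => K / (y : ℝ)) atTop (𝓝 0) := fun K =>
    tendsto_const_nhds.div_atTop tendsto_natCast_atTop_atTop
  have hη' : Tendsto (fun y => |t| * η y) atTop (𝓝 0) := by
    have := hη.const_mul |t|
    rwa [mul_zero] at this
  have h3' : Tendsto (fun y : ℕ => (|t| ^ 3 + t ^ 4 * B) *
      ∑ p ∈ (Ico 0 (y + 1)).filter Nat.Prime, b y p ^ 3) atTop (𝓝 0) := by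
    have := h3.const_mul (|t| ^ 3 + t ^ 4 * B)
    rwa [mul_zero] at this
  have hv' : Tendsto (fun y : ℕ => t ^ 2 / 2 *
      |∑ p ∈ (Ico 0 (y + 1)).filter Nat.Prime, vv (Z y) p - v|) atTop (𝓝 0) := by
    have h4 := ((hv.sub_const v).abs).const_mul (t ^ 2 / 2)
    rwa [sub_self, abs_zero, mul_zero] at h4
  filter_upwards [eventually_ge_atTop 4, hb, hbB, hmean, hW, hQ, hη'.eventually (ge_mem_nhds hE),
    h3'.eventually (ge_mem_nhds hE), hv'.eventually (ge_mem_nhds hE),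
    (hz3 (4 * 2 ^ n * (4 * (T * B)) ^ (2 * k) : ℝ)).eventually (ge_mem_nhds hE)]
    with y hy4 yb ybB ymean yW yQ y1 y2 y3 y5 H hH
  set I := (Ico 0 (y + 1)).filter Nat.Prime with hI
  have hy0 : (0 : ℝ) < y := by exact_mod_cast (by omega : 0 < y)
  have hcond : (y + 1) ^ (2 * k) ≤ 2 * H + 1 := by
    have h1 : (y + 1) ^ (2 * k) ≤ (2 * y) ^ (2 * k) := Nat.pow_le_pow_left (by omega) _
    have h2 : (2 * y) ^ (2 * k) ≤ y ^ (4 * k + 1) := by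
      calc (2 * y) ^ (2 * k) ≤ (y * y) ^ (2 * k) := Nat.pow_le_pow_left
            (Nat.mul_le_mul_right y (by omega)) _
        _ = y ^ (4 * k) := by rw [← pow_two, ← pow_mul]; ring_nf
        _ ≤ y ^ (4 * k + 1) := Nat.pow_le_pow_right (by omega) (by omega)
    omega
  have hb0 : ∀ p ∈ I, 0 ≤ b y p := fun p hp => (abs_nonneg _).trans (yb p hp 0)
  -- comparison with the model
  have hA := charG (fun p c => T * Z y p c) (fun p => T * b y p) (B := T * B) (by nlinarith)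
    (x := y + 1) (H := H) (m := k) (by omega) hk1 hcond
    (fun p hp c => by rw [abs_mul, abs_of_pos hT0]; exact mul_le_mul_of_nonneg_left (yb p hp c) hT0.le)
    (fun p hp => mul_le_mul_of_nonneg_left (ybB p hp) hT0.le)
    (fun p hp _ => by rw [EM_mul', ymean p hp, mul_zero]) (s := s) (W := T ^ 2 * W) hs1
    (by positivity) (by
      have e : ∑ p ∈ (Ico 0 (y + 1)).filter Nat.Prime, (T * b y p) ^ 2 =
          T ^ 2 * ∑ p ∈ (Ico 0 (y + 1)).filter Nat.Prime, b y p ^ 2 := by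
        rw [Finset.mul_sum]
        refine Finset.sum_congr rfl fun p _ => ?_
        ring
      rw [e]
      exact mul_le_mul_of_nonneg_left yW (by positivity))
  rw [← hn, phi_scale, hsT] at hA
  have eA : ∀ c, s * SS (fun p c => T * Z y p c) 0 (y + 1) c = t * SS (Z y) 0 (y + 1) c := by
    intro c
    rw [SS_scale, ← mul_assoc, hsT]
  simp only [eA] at hA
  have hA1 : 4 * 2 ^ n * (T * B * ((y + 1 : ℕ) : ℝ) ^ 2) ^ (2 * k) / (2 * H + 1) ≤ ε / 5 := by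
    have h1 : (T * B * ((y + 1 : ℕ) : ℝ) ^ 2) ^ (2 * k) ≤ (4 * (T * B) * (y : ℝ) ^ 2) ^ (2 * k) := by
      apply pow_le_pow_left₀ (by positivity)
      have h2 : ((y + 1 : ℕ) : ℝ) ≤ 2 * y := by exact_mod_cast (by omega : y + 1 ≤ 2 * y)
      calc T * B * ((y + 1 : ℕ) : ℝ) ^ 2 ≤ T * B * (2 * y) ^ 2 := by gcongr
        _ = 4 * (T * B) * (y : ℝ) ^ 2 := by ring
    have h3 : (y : ℝ) ^ (4 * k + 1) ≤ 2 * H + 1 := by
      have : (y : ℝ) ^ (4 * k + 1) ≤ H := by exact_mod_cast hH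
      linarith
    have hpos : (0 : ℝ) < (y : ℝ) ^ (4 * k + 1) := by positivity
    calc 4 * 2 ^ n * (T * B * ((y + 1 : ℕ) : ℝ) ^ 2) ^ (2 * k) / (2 * H + 1)
        ≤ 4 * 2 ^ n * (4 * (T * B) * (y : ℝ) ^ 2) ^ (2 * k) / (y : ℝ) ^ (4 * k + 1) := by gcongr
      _ = (4 * 2 ^ n * (4 * (T * B)) ^ (2 * k) / (y : ℝ) : ℝ) := by
          rw [mul_pow, ← pow_mul, show 2 * (2 * k) = 4 * k by ring, pow_succ]
          field_simp
      _ ≤ ε / 5 := y5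
  have hA2 : 4 * (s ^ 2 * (T ^ 2 * W) * Real.exp 1 / k) ^ k ≤ ε / 5 := by
    refine le_trans ?_ hk3
    have hk0 : (0 : ℝ) < k := by exact_mod_cast hk1
    have hs2 : s ^ 2 ≤ 1 := by rw [← sq_abs]; exact pow_le_one₀ (abs_nonneg _) hs1
    have h1 : s ^ 2 * (T ^ 2 * W) * Real.exp 1 / k ≤ 1 / 2 := by
      rw [div_le_iff₀ hk0]
      have h6 : s ^ 2 * (T ^ 2 * W) * Real.exp 1 ≤ (1 : ℝ) * (T ^ 2 * W) * Real.exp 1 := by gcongr
      linarith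
    gcongr
  -- the model
  have hB' := phiG (Z y) (b y) (y + 1) yb (fun p hp => ymean p hp) t
  rw [← hI] at hB'
  have hB2 : ∑ p ∈ I, (|t| ^ 3 * b y p ^ 3 + t ^ 4 * b y p ^ 4) ≤ ε / 5 := by
    refine le_trans ?_ y2
    rw [Finset.mul_sum]
    refine Finset.sum_le_sum fun p hp => ?_
    have h1 := hb0 p hp
    have h2 := ybB p hp
    have h4 : b y p ^ 4 ≤ B * b y p ^ 3 := by
      rw [show b y p ^ 4 = b y p * b y p ^ 3 by ring]
      exact mul_le_mul_of_nonneg_right h2 (by positivity)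
    have h5 : t ^ 4 * b y p ^ 4 ≤ t ^ 4 * (B * b y p ^ 3) :=
      mul_le_mul_of_nonneg_left h4 (by positivity)
    calc |t| ^ 3 * b y p ^ 3 + t ^ 4 * b y p ^ 4 ≤ |t| ^ 3 * b y p ^ 3 + t ^ 4 * (B * b y p ^ 3) := by
          linarith
      _ = (|t| ^ 3 + t ^ 4 * B) * b y p ^ 3 := by ring
  set V := ∑ p ∈ I, vv (Z y) p with hV
  have hV0 : 0 ≤ V := Finset.sum_nonneg fun p _ => vv_nonneg (Z y) p
  have hC : ‖((Real.exp (-(t ^ 2 * V / 2)) : ℝ) : ℂ) - ((Real.exp (-(t ^ 2 * v / 2)) : ℝ) : ℂ)‖ ≤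
      ε / 5 := by
    rw [← Complex.ofReal_sub, Complex.norm_real, Real.norm_eq_abs]
    refine (exp_neg_lip (by positivity) (by positivity)).trans ?_
    rw [show t ^ 2 * V / 2 - t ^ 2 * v / 2 = t ^ 2 / 2 * (V - v) by ring, abs_mul,
      abs_of_nonneg (by positivity)]
    exact y3
  -- the remainder
  set em : ℂ := Complex.exp ((t * m : ℝ) * Complex.I) with hem
  have hem1 : ‖em‖ = 1 := Complex.norm_exp_ofReal_mul_I _
  have hR : ‖EBc H (fun c => Complex.exp ((t * Q y c : ℝ) * Complex.I)) -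
      em * EBc H (fun c => Complex.exp ((t * SS (Z y) 0 (y + 1) c : ℝ) * Complex.I))‖ ≤ ε / 5 := by
    rw [← EBc_mul, ← EBc_sub]
    refine (norm_EBc_le H _ (fun _ => |t| * η y) fun c => ?_).trans ?_
    · have e : em * Complex.exp ((t * SS (Z y) 0 (y + 1) c : ℝ) * Complex.I) =
          Complex.exp ((t * (m + SS (Z y) 0 (y + 1) c) : ℝ) * Complex.I) := by
        rw [hem, ← Complex.exp_add]
        congr 1
        push_cast
        ring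
      rw [e]
      refine (norm_exp_sub _ _).trans ?_
      rw [← mul_sub, abs_mul]
      exact mul_le_mul_of_nonneg_left (yQ c) (abs_nonneg _)
    · rw [EB_const]
      exact y1
  set X := EBc H (fun c => Complex.exp ((t * SS (Z y) 0 (y + 1) c : ℝ) * Complex.I)) with hX
  have hD : ‖X - ((Real.exp (-(t ^ 2 * v / 2)) : ℝ) : ℂ)‖ ≤ ε / 5 + ε / 5 + ε / 5 + ε / 5 := by
    have e : X - ((Real.exp (-(t ^ 2 * v / 2)) : ℝ) : ℂ) = (X - phi (Z y) (y + 1) t) +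
        (phi (Z y) (y + 1) t - ((Real.exp (-(t ^ 2 * V / 2)) : ℝ) : ℂ)) +
        (((Real.exp (-(t ^ 2 * V / 2)) : ℝ) : ℂ) - ((Real.exp (-(t ^ 2 * v / 2)) : ℝ) : ℂ)) := by ring
    rw [e]
    refine (norm_add_le _ _).trans (add_le_add ((norm_add_le _ _).trans (add_le_add ?_ ?_)) hC)
    · exact hA.trans (add_le_add hA1 hA2)
    · exact hB'.trans hB2
  have e : EBc H (fun c => Complex.exp ((t * Q y c : ℝ) * Complex.I)) -
      em * (Real.exp (-(t ^ 2 * v / 2)) : ℝ) =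
      (EBc H (fun c => Complex.exp ((t * Q y c : ℝ) * Complex.I)) - em * X) +
      em * (X - ((Real.exp (-(t ^ 2 * v / 2)) : ℝ) : ℂ)) := by ring
  rw [e]
  refine (norm_add_le _ _).trans ?_
  rw [norm_mul, hem1, one_mul]
  linarith

/-- **The normal law for triangular systems.** -/
theorem gauss_tri (Z : ℕ → ∀ p : ℕ, (ι → ZMod p) → ℝ) (b : ℕ → ℕ → ℝ) {B W m : ℝ} {v : NNReal}
    (hB1 : 1 ≤ B) (hW0 : 0 < W) (hv0 : v ≠ 0)
    (hb : ∀ᶠ y : ℕ in atTop, ∀ p ∈ (Ico 0 (y + 1)).filter Nat.Prime, ∀ c, |Z y p c| ≤ b y p)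
    (hbB : ∀ᶠ y : ℕ in atTop, ∀ p ∈ (Ico 0 (y + 1)).filter Nat.Prime, b y p ≤ B)
    (hmean : ∀ᶠ y : ℕ in atTop, ∀ p ∈ (Ico 0 (y + 1)).filter Nat.Prime, ∀ [NeZero p],
      EM p (Z y p) = 0)
    (hW : ∀ᶠ y : ℕ in atTop, ∑ p ∈ (Ico 0 (y + 1)).filter Nat.Prime, b y p ^ 2 ≤ W)
    (h3 : Tendsto (fun y : ℕ => ∑ p ∈ (Ico 0 (y + 1)).filter Nat.Prime, b y p ^ 3) atTop (𝓝 0))
    (hv : Tendsto (fun y : ℕ => ∑ p ∈ (Ico 0 (y + 1)).filter Nat.Prime, vv (Z y) p) atTop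
      (𝓝 (v : ℝ)))
    (Q : ℕ → (ι → ℤ) → ℝ) (η : ℕ → ℝ) (hη : Tendsto η atTop (𝓝 0))
    (hQ : ∀ᶠ y : ℕ in atTop, ∀ c, |Q y c - (m + SS (Z y) 0 (y + 1) c)| ≤ η y)
    (u : ℝ) {ε : ℝ} (hε : 0 < ε) :
    ∃ k y0 : ℕ, ∀ y H : ℕ, y0 ≤ y → y ^ k ≤ H →
      |(law H (Q y)).real (Set.Iic u) - (gaussianReal m v).real (Set.Iic u)| ≤ ε := by
  refine law_of_char Q (gaussianReal m v) (fun t ε hε => ?_) u ?_ hε
  · rw [charFun_gaussianReal]
    have e : Complex.exp ((t : ℂ) * (m : ℂ) * Complex.I - ((v : ℝ) : ℂ) * t ^ 2 / 2) =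
        Complex.exp ((t * m : ℝ) * Complex.I) * ((Real.exp (-(t ^ 2 * v / 2)) : ℝ) : ℂ) := by
      push_cast
      rw [← Complex.exp_add]
      congr 1
      ring
    rw [e]
    exact clt_tri Z b hB1 hW0 v.2 hb hbB hmean hW h3 hv Q η hη hQ t hε
  · have := nullSingletonClass_gaussianReal (μ := m) (v := v) hv0
    exact measure_singleton u

end Pool.Agent.X280.BP
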