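import Pool.Agent.X280.BP.Chain

/-!
# Uniform bounds for almost all members
-/

set_option autoImplicit false

namespace Pool.Agent.X280.BP

open Finset Filter Topology Pool.Agent.Y722.HS

variable {ι : Type} [Fintype ι] [DecidableEq ι]

/-- Centred bounded local data. -/
structure Sys (Z : ∀ p : ℕ, (ι → ZMod p) → ℝ) (B : ℝ) : Prop where
  one_le : 1 ≤ B
  bd : ∀ p : ℕ, p.Prime → ∀ c, |Z p c| ≤ B / √p
  mean : ∀ p : ℕ, p.Prime → ∀ [NeZero p], EM p (Z p) = 0

/-- The sum of the local data over the primes in `[a, b)`. -/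
noncomputable def SS (Z : ∀ p : ℕ, (ι → ZMod p) → ℝ) (a b : ℕ) (c : ι → ℤ) : ℝ :=
  ∑ p ∈ (Ico a b).filter Nat.Prime, Z p (red p c)

/-- The sum of `1 / p` over the primes in `[a, b)`. -/
noncomputable def LL (a b : ℕ) : ℝ := ∑ p ∈ (Ico a b).filter Nat.Prime, (1 : ℝ) / p

theorem LL_nonneg (a b : ℕ) : 0 ≤ LL a b := Finset.sum_nonneg fun p _ => by positivity

theorem LL_mono (a : ℕ) {b b' : ℕ} (h : b ≤ b') : LL a b ≤ LL a b' := by
  unfold LL
  refine Finset.sum_le_sum_of_subset_of_nonneg ?_ fun p _ _ => by positivity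
  exact Finset.filter_subset_filter _ (Finset.Ico_subset_Ico_right h)

variable {Z : ∀ p : ℕ, (ι → ZMod p) → ℝ} {B : ℝ}

theorem Sys.four (h : Sys Z B) {a b x H : ℕ} (hb : b ≤ x)
    (hx : 2 ^ Fintype.card ι * x ^ 10 ≤ 2 * H + 1) :
    EB H (fun c => SS Z a b c ^ 4) ≤ 91 * B ^ 4 * LL a b ^ 2 := by
  set I := (Ico a b).filter Nat.Prime with hI
  have hB0 : 0 < B := lt_of_lt_of_le one_pos h.one_le
  by_cases hne : I.Nonempty
  · obtain ⟨q, hq⟩ := hne
    have hq2 : q.Prime ∧ a ≤ q ∧ q < b := by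
      rw [hI, Finset.mem_filter, Finset.mem_Ico] at hq
      exact ⟨hq.2, hq.1.1, hq.1.2⟩
    have hx1 : 1 ≤ x := by
      have := hq2.1.two_le; omega
    have hxR : (1 : ℝ) ≤ x := by exact_mod_cast hx1
    have hq0 : (0 : ℝ) < q := by exact_mod_cast hq2.1.pos
    have hLq : (1 : ℝ) / x ≤ LL a b := by
      have h1 : (1 : ℝ) / q ≤ LL a b := by
        unfold LL
        exact Finset.single_le_sum (f := fun p : ℕ => (1 : ℝ) / p) (fun p _ => by positivity) hq
      refine le_trans ?_ h1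
      have : (q : ℝ) ≤ x := by exact_mod_cast (by omega : q ≤ x)
      exact one_div_le_one_div_of_le hq0 this
    have hL0 : 0 < LL a b := lt_of_lt_of_le (by positivity) hLq
    have hx4 : x ^ 4 ≤ 2 * H + 1 := by
      calc x ^ 4 ≤ x ^ 10 := Nat.pow_le_pow_right hx1 (by norm_num)
        _ ≤ 2 ^ Fintype.card ι * x ^ 10 := Nat.le_mul_of_pos_left _ (by positivity)
        _ ≤ _ := hx
    have h1 := mom_four I x (fun p hp => by
      rw [hI, Finset.mem_filter, Finset.mem_Ico] at hp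
      exact ⟨hp.2, by omega⟩) Z (fun p => B / √p) (fun p hp => by
      rw [hI, Finset.mem_filter] at hp
      exact h.bd p hp.2) (fun p hp => by
      rw [hI, Finset.mem_filter] at hp
      exact h.mean p hp.2) (B ^ 2 * LL a b) (by positivity) (by
      apply le_of_eq
      unfold LL
      rw [Finset.mul_sum]
      refine Finset.sum_congr rfl fun p _ => ?_
      rw [div_pow, Real.sq_sqrt (by positivity)]
      ring) H hx4
    have h2 : ∑ p ∈ I, B / √p ≤ B * x := by
      calc ∑ p ∈ I, B / √(p : ℝ) ≤ ∑ p ∈ I, B := by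
            refine Finset.sum_le_sum fun p hp => ?_
            rw [hI, Finset.mem_filter] at hp
            have : 1 ≤ √(p : ℝ) := Real.one_le_sqrt.2 (by exact_mod_cast hp.2.one_lt.le)
            exact div_le_self hB0.le this
        _ = I.card * B := by rw [Finset.sum_const, nsmul_eq_mul]
        _ ≤ x * B := by
            have hc : I.card ≤ x := by
              calc I.card ≤ (Ico a b).card := Finset.card_filter_le _ _
                _ = b - a := Nat.card_Ico a b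
                _ ≤ x := by omega
            have : (I.card : ℝ) ≤ x := by exact_mod_cast hc
            gcongr
        _ = B * x := by ring
    have h3 : 0 ≤ ∑ p ∈ I, B / √p := Finset.sum_nonneg fun p _ => by positivity
    have h4 : (∑ p ∈ I, B / √p) ^ 4 ≤ (B * x) ^ 4 := pow_le_pow_left₀ h3 h2 4
    have hxR2 : (2 : ℝ) ^ Fintype.card ι * (x : ℝ) ^ 10 ≤ 2 * H + 1 := by exact_mod_cast hx
    have h5 : 2 ^ Fintype.card ι * ((x : ℝ) ^ 4 / (2 * H + 1)) * (∑ p ∈ I, B / √p) ^ 4 ≤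
        B ^ 4 * LL a b ^ 2 := by
      calc 2 ^ Fintype.card ι * ((x : ℝ) ^ 4 / (2 * H + 1)) * (∑ p ∈ I, B / √p) ^ 4
          ≤ 2 ^ Fintype.card ι * ((x : ℝ) ^ 4 / (2 * H + 1)) * (B * x) ^ 4 := by gcongr
        _ = B ^ 4 * (1 / x) ^ 2 * ((2 ^ Fintype.card ι * (x : ℝ) ^ 10) / (2 * H + 1)) := by
            field_simp
        _ ≤ B ^ 4 * (1 / x) ^ 2 * 1 := by
            gcongr
            rw [div_le_one (by positivity)]
            exact hxR2
        _ = B ^ 4 * (1 / x) ^ 2 := mul_one _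
        _ ≤ _ := by gcongr
    have h6 : 90 * (B ^ 2 * LL a b) ^ 2 = 90 * (B ^ 4 * LL a b ^ 2) := by ring
    have h7 : EB H (fun c => SS Z a b c ^ 4) = EB H (fun c => (∑ p ∈ I, Z p (red p c)) ^ 4) := rfl
    rw [h7]
    linarith
  · rw [Finset.not_nonempty_iff_eq_empty] at hne
    have h1 : ∀ c, SS Z a b c = 0 := fun c => by
      unfold SS; rw [← hI, hne, Finset.sum_empty]
    have h2 : EB H (fun c => SS Z a b c ^ 4) = 0 := by
      simp only [h1]
      simp [EB]
    rw [h2]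
    positivity

theorem Sys.max (h : Sys Z B) {b x H : ℕ} (hb : b ≤ x)
    (hx : 2 ^ Fintype.card ι * x ^ 10 ≤ 2 * H + 1) :
    ∃ M : (ι → ℤ) → ℝ, EB H M ≤ 2916 * (91 * B ^ 4) * LL 0 b ^ 2 ∧
      ∀ c t, t ≤ b → SS Z 0 t c ^ 4 ≤ M c := by
  classical
  have e1 : ∀ a b c, ∑ i ∈ Ico a b, (if i.Prime then Z i (red i c) else 0) = SS Z a b c := by
    intro a b c
    unfold SS
    rw [Finset.sum_filter]
  have e2 : ∀ a b, ∑ i ∈ Ico a b, (if i.Prime then (1 : ℝ) / i else 0) = LL a b := by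
    intro a b
    unfold LL
    rw [Finset.sum_filter]
  have hB0 : 0 < B := lt_of_lt_of_le one_pos h.one_le
  obtain ⟨M, h1, h2⟩ := chain H (fun i c => if i.Prime then Z i (red i c) else 0)
    (fun i => if i.Prime then (1 : ℝ) / i else 0) (fun i => by positivity) (91 * B ^ 4)
    (by positivity) b (fun a b' _ hb' => by
      simp only [e1, e2]
      exact h.four (hb'.trans hb) hx) (b - 0) 0 b (Nat.zero_le _) le_rfl le_rfl
  rw [e2] at h1
  refine ⟨M, h1, fun c t ht => ?_⟩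
  have := h2 c t (Nat.zero_le _) ht
  rwa [e1] at this

/-- The constant of the uniform bound. -/
noncomputable def CU : ℝ := 2916 * 91 * 4 * 2

open Classical in
/-- **Almost all members, uniformly in the length.** -/
theorem Sys.uniform (h : Sys Z B) {δ : ℝ} (hδ : 0 < δ) {Y x H : ℕ} (hY : 0 < LL 0 Y)
    (hx : 2 ^ Fintype.card ι * x ^ 10 ≤ 2 * H + 1) :
    (((Pool.Agent.Y722.HS.box ι H).filter
      (fun c => ∃ y : ℕ, Y ≤ y ∧ y ≤ x ∧ δ * LL 0 y < |SS Z 0 y c|)).card : ℝ) ≤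
      CU * B ^ 4 / (δ ^ 4 * LL 0 Y ^ 2) * (2 * H + 1 : ℝ) ^ Fintype.card ι := by
  have hB0 : 0 < B := lt_of_lt_of_le one_pos h.one_le
  set lam := LL 0 Y with hlam
  have hch : ∀ i : ℕ, ∃ M : (ι → ℤ) → ℝ, EB H M ≤ 2916 * (91 * B ^ 4) * (lam * 2 ^ (i + 1)) ^ 2 ∧
      (∀ c, 0 ≤ M c) ∧
      ∀ c t, t ≤ x → LL 0 t < lam * 2 ^ (i + 1) → SS Z 0 t c ^ 4 ≤ M c := by
    intro i
    set P : ℕ → Prop := fun y => LL 0 y < lam * 2 ^ (i + 1) with hP
    have hP0 : P 0 := by
      rw [hP]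
      have : LL 0 0 = 0 := by simp [LL]
      simp only [this]
      positivity
    set b := Nat.findGreatest P x with hb
    have hbx : b ≤ x := Nat.findGreatest_le x
    have hPb : P b := Nat.findGreatest_spec (P := P) (Nat.zero_le x) hP0
    obtain ⟨M, h1, h2⟩ := h.max hbx hx
    refine ⟨M, h1.trans ?_, fun c => ?_, fun c t ht hlt => h2 c t ?_⟩
    · have h3 : LL 0 b ^ 2 ≤ (lam * 2 ^ (i + 1)) ^ 2 :=
        pow_le_pow_left₀ (LL_nonneg _ _) hPb.le 2
      exact mul_le_mul_of_nonneg_left h3 (by positivity)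
    · have := h2 c 0 (Nat.zero_le _)
      refine le_trans ?_ this
      positivity
    · exact Nat.le_findGreatest ht hlt
  choose M hM1 hM0 hM2 using hch
  obtain ⟨N, hN⟩ : ∃ N : ℕ, LL 0 x < lam * 2 ^ N := by
    obtain ⟨N, hN⟩ := pow_unbounded_of_one_lt (LL 0 x / lam) (by norm_num : (1 : ℝ) < 2)
    exact ⟨N, by rw [div_lt_iff₀ hY] at hN; linarith⟩
  set G : (ι → ℤ) → ℝ := fun c => ∑ i ∈ range N, M i c / (δ * (lam * 2 ^ i)) ^ 4 with hG
  have hG0 : ∀ c, 0 ≤ G c := fun c => Finset.sum_nonneg fun i _ =>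
    div_nonneg (hM0 i c) (by positivity)
  have hbad : ∀ c, (∃ y : ℕ, Y ≤ y ∧ y ≤ x ∧ δ * LL 0 y < |SS Z 0 y c|) → 1 ≤ G c := by
    rintro c ⟨y, hy1, hy2, hy3⟩
    have h1 : 1 ≤ LL 0 y / lam := by
      rw [le_div_iff₀ hY, one_mul]; exact LL_mono 0 hy1
    obtain ⟨i, hi1, hi2⟩ := exists_nat_pow_near h1 (by norm_num : (1 : ℝ) < 2)
    rw [le_div_iff₀ hY] at hi1
    rw [div_lt_iff₀ hY] at hi2
    have hiN : i < N := by
      by_contra hcon
      push Not at hcon
      have h2 : (2 : ℝ) ^ N ≤ 2 ^ i := pow_le_pow_right₀ (by norm_num) hcon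
      have h3 := LL_mono 0 hy2
      nlinarith
    have h4 := hM2 i c y hy2 (by linarith)
    have h5 : (δ * (lam * 2 ^ i)) ^ 4 ≤ SS Z 0 y c ^ 4 := by
      have h6 : δ * (lam * 2 ^ i) ≤ |SS Z 0 y c| := by
        refine le_trans ?_ hy3.le
        exact mul_le_mul_of_nonneg_left (by linarith) hδ.le
      have h7 := pow_le_pow_left₀ (by positivity) h6 4
      rwa [show |SS Z 0 y c| ^ 4 = SS Z 0 y c ^ 4 by
        rw [← abs_pow, abs_of_nonneg (by positivity)]] at h7
    have h8 : 1 ≤ M i c / (δ * (lam * 2 ^ i)) ^ 4 := by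
      rw [le_div_iff₀ (by positivity), one_mul]
      exact h5.trans h4
    exact h8.trans (Finset.single_le_sum (f := fun i => M i c / (δ * (lam * 2 ^ i)) ^ 4)
      (fun i _ => div_nonneg (hM0 i c) (by positivity)) (Finset.mem_range.mpr hiN))
  have hcard : (((Pool.Agent.Y722.HS.box ι H).filter
      (fun c => ∃ y : ℕ, Y ≤ y ∧ y ≤ x ∧ δ * LL 0 y < |SS Z 0 y c|)).card : ℝ) ≤
      EB H G * (2 * H + 1 : ℝ) ^ Fintype.card ι := by
    unfold EB
    rw [div_mul_cancel₀ _ (by positivity)]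
    rw [Finset.card_filter]
    push_cast
    refine Finset.sum_le_sum fun c _ => ?_
    split_ifs with hc
    · exact hbad c hc
    · exact hG0 c
  have hEG : EB H G ≤ CU * B ^ 4 / (δ ^ 4 * lam ^ 2) := by
    rw [hG, EB_sum]
    have h1 : ∀ i ∈ range N, EB H (fun c => M i c / (δ * (lam * 2 ^ i)) ^ 4) ≤
        2916 * 91 * 4 * B ^ 4 / (δ ^ 4 * lam ^ 2) * (1 / 4) ^ i := by
      intro i _
      have e1 : EB H (fun c => M i c / (δ * (lam * 2 ^ i)) ^ 4) =
          EB H (M i) / (δ * (lam * 2 ^ i)) ^ 4 := by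
        unfold EB
        rw [← Finset.sum_div]
        ring
      rw [e1, div_le_iff₀ (by positivity)]
      refine (hM1 i).trans (le_of_eq ?_)
      have e2 : ((1 : ℝ) / 4) ^ i = 1 / (2 ^ i) ^ 2 := by
        rw [div_pow, one_pow, ← pow_mul, mul_comm i 2, pow_mul]; norm_num
      rw [e2, pow_succ]
      field_simp
      ring
    refine (Finset.sum_le_sum h1).trans ?_
    rw [← Finset.mul_sum]
    have h2 : ∑ i ∈ range N, ((1 : ℝ) / 4) ^ i ≤ 2 := by
      rw [geom_sum_eq (by norm_num) N]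
      have h4 : 0 ≤ ((1 : ℝ) / 4) ^ N := by positivity
      rw [div_le_iff_of_neg (by norm_num)]
      linarith
    have h3 : 0 ≤ 2916 * 91 * 4 * B ^ 4 / (δ ^ 4 * lam ^ 2) := by positivity
    refine (mul_le_mul_of_nonneg_left h2 h3).trans (le_of_eq ?_)
    unfold CU
    ring
  exact hcard.trans (mul_le_mul_of_nonneg_right hEG (by positivity))

end Pool.Agent.X280.BP
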